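import Pool.Agent.Lib.MP_6ff0c5_lc.Net.Steps
import Pool.Agent.Lib.MP_6ff0c5_lc.LQ.Def

/-!
MP_6ff0c5_lc, part B: the layout of the network of an LQ instance.

Tile coordinates `(L, J)`. Crossbar: `0 ≤ L < ns` (strings), `0 ≤ J < nl` (lanes). Column `L = ns`: the sources. Columns
`ns + 1`, `ns + 2`, rows `-2K ≤ J < 0`: the chain (`K` blocks, the lowest one is the first one).
-/

set_option autoImplicit false

namespace Pool.Agent.Lib.MP_6ff0c5_lc.N

open LQ (Inst Form)

/-- The data of a layout: gates, number of further variables, tapped lanes of the strings, length of the chain. -/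
structure Lay where
  G : List Bool
  V : ℕ
  taps : List (List ℕ)
  K : ℕ

/-- number of variables -/
def Lay.nvar (P : Lay) : ℕ := 3 * P.G.length + P.V

/-- number of lanes -/
def Lay.nl (P : Lay) : ℕ := 2 + 2 * P.nvar

/-- number of strings -/
def Lay.ns (P : Lay) : ℕ := P.taps.length

/-- the string `l` taps the lane `j` -/
def Lay.tap (P : Lay) (l j : ℕ) : Bool := decide (j ∈ P.taps.getD l [])

/-- the lane `j` is tapped by a string on the left of the string `l` -/
def Lay.ended (P : Lay) (l j : ℕ) : Bool := (P.taps.take l).any fun s => decide (j ∈ s)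

/-- the tiles of the crossbar -/
def Lay.tt (P : Lay) (l j : ℕ) : ℕ :=
  if P.ended l j then (if P.tap l j then 4 else 3) else (if P.tap l j then 2 else 1)

/-- the tiles of the sources of the variables, from row `2` -/
def Lay.src (P : Lay) : List ℕ :=
  (P.G.flatMap fun t => (List.range 6).map fun i => (if t then 13 else 7) + i) ++
    ((List.range P.V).flatMap fun _ => [5, 6])

/-- **the tile function** -/
def Lay.tile (P : Lay) (L J : ℤ) : ℕ :=
  if 0 ≤ J then
    if 0 ≤ L ∧ L < P.ns then (if J < P.nl then P.tt L.toNat J.toNat else 0)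
    else if L = P.ns then (if J < 2 then 27 + J.toNat else P.src.getD (J - 2).toNat 0)
    else if L = P.ns + 1 then (if J < 2 then 29 + J.toNat else 0)
    else if L = P.ns + 2 then (if J < 2 then 31 + J.toNat else 0)
    else 0
  else if -(2 * P.K : ℤ) ≤ J then
    if L = P.ns + 1 then (if J < -(2 * P.K : ℤ) + 2 then 23 else 19) + (J % 2).toNat
    else if L = P.ns + 2 then (if J < -(2 * P.K : ℤ) + 2 then 25 else 21) + (J % 2).toNat
    else 0
  else 0

/-- The conditions on a layout. -/
structure Lay.OK (P : Lay) : Prop where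
  hK : 1 ≤ P.K
  hV : 1 ≤ P.V
  tapped : ∀ j < P.nl, ∃ l < P.ns, P.tap l j = true

/-- **The blocks of the network** with their positions. -/
inductive Lay.Has (P : Lay) : Blk → ℤ → ℤ → Prop
  | V (l j : ℕ) (hl : l < P.ns) (hj : j < P.nl) (h : P.tt l j = 1) : Lay.Has P bV l j
  | T (l j : ℕ) (hl : l < P.ns) (hj : j < P.nl) (h : P.tt l j = 2) : Lay.Has P bT l j
  | X (l j : ℕ) (hl : l < P.ns) (hj : j < P.nl) (h : P.tt l j = 3) : Lay.Has P bX l j
  | A (l j : ℕ) (hl : l < P.ns) (hj : j < P.nl) (h : P.tt l j = 4) : Lay.Has P bA l j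
  | G0 (g : ℕ) (h : P.G[g]? = some false) : Lay.Has P bG0 P.ns (2 + 6 * g)
  | G1 (g : ℕ) (h : P.G[g]? = some true) : Lay.Has P bG1 P.ns (2 + 6 * g)
  | S (v : ℕ) (h : v < P.V) : Lay.Has P bS P.ns (2 + 6 * P.G.length + 2 * v)
  | U : Lay.Has P bU P.ns 0
  | E (k : ℕ) (h1 : 1 ≤ k) (h2 : k < P.K) : Lay.Has P bE (P.ns + 1) (-(2 * k : ℤ))
  | F : Lay.Has P bF (P.ns + 1) (-(2 * P.K : ℤ))

/-! ### The layout of an instance -/

/-- the lanes tapped by the string of a form: `0` is `-u`, `1` is `u`, `2 + 2 v` is `z_v`, `3 + 2 v` is `-z_v` -/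
def formTaps (f : Form) : List ℕ :=
  (if f.1 = 1 then [0] else []) ++ (if f.1 = -1 then [1] else []) ++
    f.2.flatMap fun p => if p.1 = 1 then [3 + 2 * p.2] else if p.1 = -1 then [2 + 2 * p.2] else []

/-- **The layout of an instance** (one variable is added, so that there is at least one). -/
def layOf (I : Inst) (K : ℕ) : Lay where
  G := I.gates
  V := I.nv + 1
  taps := [0, 1, 3] :: [0] :: ((List.range (I.N + 1)).flatMap fun v => [[3 + 2 * v], [2 + 2 * v, 0]]) ++
    I.forms.map formTaps
  K := K + 2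

/-- the network in unshifted coordinates -/
def net0 (I : Inst) (K : ℕ) : Net := netOf (layOf I K).tile

/-- translation of a network -/
def Net.shift (N : Net) (X Y : ℤ) : Net where
  act x y := N.act (x - X) (y - Y)
  cup x y := N.cup (x - X) (y - Y)

/-- the size of the instance -/
def isize (I : Inst) (K : ℕ) : ℕ := (layOf I K).ns + (layOf I K).nl + K + 4

/-- **The network of an LQ instance.** -/
def net (I : Inst) (K : ℕ) : Net := (net0 I K).shift (9 * (4 * isize I K)) (9 * (2 * isize I K))

end Pool.Agent.Lib.MP_6ff0c5_lc.N
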