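import Mathlib

/-!
MP_6ff0c5_lc, part B: networks of rooms.

Rooms `A(x,y)` and `B(x,y)`, `x, y ∈ ℤ`. Port 1, 2, 3 of `A(x,y)` leads to `B(x,y)`, `B(x-1,y)`, `B(x-1,y-1)`. A network says
which rooms `A` are active and which rooms `B` are cups. `Net.Sol` is the system of inequalities delivered by the geometry
(unknowns: `a x y = (a₁, a₂)` for active rooms `A`, `b x y = (u₁, u₂)` for rooms `B` with an active neighbour).
-/

set_option autoImplicit false

namespace Pool.Agent.Lib.MP_6ff0c5_lc.N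

/-- A network: the active rooms `A`, the cup rooms `B`. -/
structure Net where
  act : ℤ → ℤ → Bool
  cup : ℤ → ℤ → Bool

/-- The types of rooms `B`. -/
inductive BT
  | free
  | hub
  | pin2
  | pin13
  | cup
  deriving DecidableEq

/-- The type of a room `B`: its three neighbours are `A(x,y)` (door 1), `A(x+1,y)` (door 2), `A(x+1,y+1)` (door 3). -/
def Net.bt (N : Net) (x y : ℤ) : BT :=
  if N.act (x + 1) y then (if N.act x y || N.act (x + 1) (y + 1) then .hub else .pin2)
  else if N.act x y && N.act (x + 1) (y + 1) && N.cup x y then .cup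
  else if N.act x y || N.act (x + 1) (y + 1) then .pin13 else .free

/-- The third coordinate of a position in a room `A`. -/
def a3 {R : Type*} [Add R] [Neg R] (a : R × R) : R := -(a.1 + a.2)

/-- The third coordinate of a position in a room `B`. -/
noncomputable def u3 (u : ℝ × ℝ) : ℝ := (12 * u.1 - u.2) / 13

/-- The conditions on the position in a room `B`. -/
def Tight : BT → ℝ × ℝ → Prop
  | .free, _ => True
  | .hub, u => 0 < u.1 - u3 u
  | .pin2, u => 0 < u.1 - u3 u ∧ u.1 < 0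
  | .pin13, u => 0 < u.1 - u3 u ∧ 0 < 2 * u3 u - u.1
  | .cup, u => 0 < u.1 + u3 u

/-- door 1 -/
noncomputable def D1 (a u : ℝ × ℝ) : ℝ := a.1 - u.1 + 5 / 24 * a.1 * u.2 + 5 / 2 * a.2 * u.1

/-- door 2 -/
noncomputable def D2 (a u : ℝ × ℝ) : ℝ := a.2 - u.2 + 429 / 1444 * a.1 * u.2 + 1287 / 361 * a.2 * u.1

/-- door 3 -/
noncomputable def D3 (a u : ℝ × ℝ) : ℝ := a3 a - u3 u - 165 / 2888 * a.1 * u.2 - 495 / 722 * a.2 * u.1

/-- **The system of inequalities of a network**, with a bound `H` for the unknowns. -/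
structure Net.Sol (N : Net) (H : ℝ) (a b : ℤ → ℤ → ℝ × ℝ) : Prop where
  asize : ∀ x y, N.act x y = true → |(a x y).1| ≤ H ∧ |(a x y).2| ≤ H
  bsize : ∀ x y, N.bt x y ≠ .free → |(b x y).1| ≤ H ∧ |(b x y).2| ≤ H
  tight : ∀ x y, Tight (N.bt x y) (b x y)
  d1 : ∀ x y, N.act x y = true → 0 < D1 (a x y) (b x y)
  d2 : ∀ x y, N.act x y = true → 0 < D2 (a x y) (b (x - 1) y)
  d3 : ∀ x y, N.act x y = true → 0 < D3 (a x y) (b (x - 1) (y - 1))

/-! ### The reduced system: the rooms `B` are eliminated -/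

/-- The constraints of the reduced system. -/
inductive Con
  /-- the hub wire from port 2 of `A(x+1,y)` to port 1 of `A(x,y)` -/
  | h1 (x y : ℤ)
  /-- the hub wire from port 2 of `A(x,y-1)` to port 3 of `A(x,y)` -/
  | h3 (x y : ℤ)
  /-- the cup wire between port 1 of `A(x,y)` and port 3 of `A(x+1,y+1)` -/
  | cp (x y : ℤ)
  /-- port 1, 2, 3 of `A(x,y)` is pinned -/
  | p1 (x y : ℤ)
  | p2 (x y : ℤ)
  | p3 (x y : ℤ)
  deriving DecidableEq

/-- The constraint is present in the network. -/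
def Con.In (N : Net) : Con → Bool
  | .h1 x y => N.act x y && N.act (x + 1) y
  | .h3 x y => N.act x y && N.act x (y - 1)
  | .cp x y => N.act x y && N.act (x + 1) (y + 1) && !N.act (x + 1) y && N.cup x y
  | .p1 x y => N.act x y && !N.act (x + 1) y && !(N.cup x y && N.act (x + 1) (y + 1))
  | .p2 x y => N.act x y && !N.act (x - 1) y && !N.act x (y + 1)
  | .p3 x y => N.act x y && !N.act x (y - 1) && !(N.cup (x - 1) (y - 1) && N.act (x - 1) (y - 1))

section ring

variable {R : Type*} [CommRing R]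

/-- The slack of a constraint: the sum of the values of its two ports (of its port, for a pin). -/
def Con.slack (a : ℤ → ℤ → R × R) : Con → R
  | .h1 x y => (a (x + 1) y).2 + (a x y).1
  | .h3 x y => (a x (y - 1)).2 + a3 (a x y)
  | .cp x y => (a x y).1 + a3 (a (x + 1) (y + 1))
  | .p1 x y => (a x y).1
  | .p2 x y => (a x y).2
  | .p3 x y => a3 (a x y)

/-- `8664 ℓ₁`, `8664 ℓ₂`, `8664 ℓ₃`, `8664 m₁`, `8664 m₃`: the linear forms in the second order terms -/
def e1 (a : R × R) : R := 1805 * a.1 - 21660 * a.2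
def e2 (a : R × R) : R := 2574 * a.1 - 30888 * a.2
def e3 (a : R × R) : R := -495 * a.1 + 5940 * a.2
def f1 (a : R × R) : R := 45125 * a.1 + 21660 * a.2
def f3 (a : R × R) : R := -12375 * a.1 - 5940 * a.2

/-- `8664` times the second order term of a constraint. -/
def Con.Q (a : ℤ → ℤ → R × R) : Con → R
  | .h1 x y => (a x y).1 * e2 (a (x + 1) y) - (a (x + 1) y).2 * e1 (a x y)
  | .h3 x y => a3 (a x y) * e2 (a x (y - 1)) - (a x (y - 1)).2 * e3 (a x y)
  | .cp x y => a3 (a (x + 1) (y + 1)) * f1 (a x y) - (a x y).1 * f3 (a (x + 1) (y + 1))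
  | .p1 _ _ => 0
  | .p2 _ _ => 0
  | .p3 _ _ => 0

end ring

/-- The constraint holds. -/
def Con.Holds (a : ℤ → ℤ → ℝ × ℝ) (c : Con) : Prop := c.Q a < 8664 * c.slack a

/-- **The reduced system.** -/
def Net.Red (N : Net) (a : ℤ → ℤ → ℝ × ℝ) : Prop := ∀ c : Con, c.In N = true → c.Holds a

end Pool.Agent.Lib.MP_6ff0c5_lc.N
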