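import Pool.Agent.Lib.MP_6ff0c5_lc.Net.Blk

/-!
MP_6ff0c5_lc, part B: bounds for the ports of a block from bounds for the slacks and for the input ports.
-/

set_option autoImplicit false

namespace Pool.Agent.Lib.MP_6ff0c5_lc.N

/-- the names of the ports of a room -/
inductive K
  | one
  | two
  | three
  deriving DecidableEq

/-- A port: `(x, y, k)` is the port `k` of the room `A(x, y)`. -/
abbrev Port := ℤ × ℤ × K

section ring

variable {R : Type*} [CommRing R]

/-- the value of a port -/
def pval (a : ℤ → ℤ → R × R) (p : Port) : R :=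
  match p.2.2 with
  | .one => (a p.1 p.2.1).1
  | .two => (a p.1 p.2.1).2
  | .three => a3 (a p.1 p.2.1)

/-- the ports of a constraint -/
def Con.ports : Con → Port × Option Port
  | .h1 x y => ((x + 1, y, .two), some (x, y, .one))
  | .h3 x y => ((x, y - 1, .two), some (x, y, .three))
  | .cp x y => ((x, y, .one), some (x + 1, y + 1, .three))
  | .p1 x y => ((x, y, .one), none)
  | .p2 x y => ((x, y, .two), none)
  | .p3 x y => ((x, y, .three), none)

theorem slack_ports (a : ℤ → ℤ → R × R) (c : Con) :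
    c.slack a = pval a c.ports.1 + (match c.ports.2 with | some q => pval a q | none => 0) := by
  rcases c with ⟨x, y⟩ | ⟨x, y⟩ | ⟨x, y⟩ | ⟨x, y⟩ | ⟨x, y⟩ | ⟨x, y⟩ <;> simp [Con.slack, Con.ports, pval]

end ring

/-- A step of the computation of bounds: port `k` of a room from the two other ports, or one port of a wire from the other
one (the first port if `fst`), or the port of a pin. -/
inductive Step
  | room (x y : ℤ) (k : K)
  | con (c : Con) (fst : Bool)

def lookP : List (Port × ℕ) → Port → Option ℕ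
  | [], _ => none
  | e :: l, p => if e.1 = p then some e.2 else lookP l p

def K.others : K → K × K
  | .one => (.two, .three)
  | .two => (.one, .three)
  | .three => (.one, .two)

def Step.run (kn : List (Port × ℕ)) : Step → Option (Port × ℕ)
  | .room x y k =>
    match lookP kn (x, y, k.others.1), lookP kn (x, y, k.others.2) with
    | some m, some n => some ((x, y, k), m + n)
    | _, _ => none
  | .con c fst =>
    match c.ports with
    | (p, none) => some (p, 1)
    | (p, some q) => if fst then (lookP kn q).map (fun m => (p, m + 1)) else (lookP kn p).map fun m => (q, m + 1)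

def runB : List Step → List (Port × ℕ) → Option (List (Port × ℕ))
  | [], kn => some kn
  | s :: l, kn =>
    match s.run kn with
    | some e => runB l (e :: kn)
    | none => none

/-- the constraints used by the steps -/
def stepCons : List Step → List Con
  | [] => []
  | .room _ _ _ :: l => stepCons l
  | .con c _ :: l => c :: stepCons l

theorem lookP_spec {l : List (Port × ℕ)} {p : Port} {n : ℕ} (h : lookP l p = some n) : (p, n) ∈ l := by
  induction l with
  | nil => exact absurd h (by simp [lookP])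
  | cons e l ih =>
    unfold lookP at h
    split_ifs at h with h1
    · subst h1
      have : e.2 = n := Option.some.inj h
      subst this
      exact List.mem_cons_self
    · exact List.mem_cons_of_mem _ (ih h)

variable {a : ℤ → ℤ → ℝ × ℝ} {B : ℝ}

theorem pval_sum (a : ℤ → ℤ → ℝ × ℝ) (x y : ℤ) (k : K) :
    pval a (x, y, k) = -(pval a (x, y, k.others.1) + pval a (x, y, k.others.2)) := by
  rcases k with _ | _ | _ <;> simp [pval, K.others, a3]

theorem run_spec (hB : 0 ≤ B) {kn : List (Port × ℕ)} (hkn : ∀ e ∈ kn, |pval a e.1| ≤ e.2 * B) {s : Step} {e : Port × ℕ}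
    (hs : ∀ c ∈ stepCons [s], |c.slack a| ≤ B) (h : s.run kn = some e) : |pval a e.1| ≤ e.2 * B := by
  rcases s with ⟨x, y, k⟩ | ⟨c, fst⟩
  · unfold Step.run at h
    rcases h1 : lookP kn (x, y, k.others.1) with _ | m
    · simp [h1] at h
    rcases h2 : lookP kn (x, y, k.others.2) with _ | n
    · simp [h1, h2] at h
    simp only [h1, h2, Option.some.injEq] at h
    subst h
    have k1 := hkn _ (lookP_spec h1)
    have k2 := hkn _ (lookP_spec h2)
    simp only at k1 k2 ⊢
    rw [pval_sum, abs_neg]
    push_cast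
    calc |pval a (x, y, k.others.1) + pval a (x, y, k.others.2)| ≤ _ := abs_add_le _ _
      _ ≤ _ := by linarith
  · have hc : |c.slack a| ≤ B := hs c (by simp [stepCons])
    rw [slack_ports] at hc
    unfold Step.run at h
    rcases hp : c.ports with ⟨p, _ | q⟩
    · simp only [hp, Option.some.injEq] at h hc
      subst h
      simpa using hc
    · simp only [hp] at h hc
      split_ifs at h with hf
      · rcases h1 : lookP kn q with _ | m
        · simp [h1] at h
        simp only [h1, Option.map_some, Option.some.injEq] at h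
        subst h
        have k1 := hkn _ (lookP_spec h1)
        simp only at k1 ⊢
        push_cast
        have : pval a p = (pval a p + pval a q) - pval a q := by ring
        rw [this]
        calc |(pval a p + pval a q) - pval a q| ≤ |pval a p + pval a q| + |pval a q| := abs_sub _ _
          _ ≤ _ := by linarith
      · rcases h1 : lookP kn p with _ | m
        · simp [h1] at h
        simp only [h1, Option.map_some, Option.some.injEq] at h
        subst h
        have k1 := hkn _ (lookP_spec h1)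
        simp only at k1 ⊢
        push_cast
        have : pval a q = (pval a p + pval a q) - pval a p := by ring
        rw [this]
        calc |(pval a p + pval a q) - pval a p| ≤ |pval a p + pval a q| + |pval a p| := abs_sub _ _
          _ ≤ _ := by linarith

theorem runB_spec (hB : 0 ≤ B) : ∀ (l : List Step) (kn : List (Port × ℕ)) (_ : ∀ e ∈ kn, |pval a e.1| ≤ e.2 * B)
    (_ : ∀ c ∈ stepCons l, |c.slack a| ≤ B) {kn' : List (Port × ℕ)} (_ : runB l kn = some kn'),
    ∀ e ∈ kn', |pval a e.1| ≤ e.2 * B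
  | [], kn, hkn, _, kn', h => by
    simp only [runB, Option.some.injEq] at h
    subst h
    exact hkn
  | s :: l, kn, hkn, hs, kn', h => by
    unfold runB at h
    rcases h1 : s.run kn with _ | e
    · simp [h1] at h
    simp only [h1] at h
    have hs1 : ∀ c ∈ stepCons [s], |c.slack a| ≤ B := by
      intro c hc
      apply hs
      rcases s with ⟨x, y, k⟩ | ⟨c', fst⟩
      · simp [stepCons] at hc
      · simp only [stepCons, List.mem_cons, List.not_mem_nil, or_false] at hc ⊢
        exact Or.inl hc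
    have hs2 : ∀ c ∈ stepCons l, |c.slack a| ≤ B := by
      intro c hc
      apply hs
      rcases s with ⟨x, y, k⟩ | ⟨c', fst⟩
      · exact hc
      · exact List.mem_cons_of_mem _ hc
    refine runB_spec hB l _ ?_ hs2 h
    intro e' he'
    rcases List.mem_cons.1 he' with rfl | he'
    · exact run_spec hB hkn hs1 h1
    · exact hkn _ he'

/-- All rooms of the list `rooms` have ports 1 and 2 with bounds at most `m`. -/
def covers (kn : List (Port × ℕ)) (m : ℕ) (rooms : List (ℤ × ℤ)) : Bool :=
  rooms.all fun r => (match lookP kn (r.1, r.2, .one) with | some n => decide (n ≤ m) | none => false) &&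
    (match lookP kn (r.1, r.2, .two) with | some n => decide (n ≤ m) | none => false)

/-- The check for a list of steps: it starts with the input ports, uses only constraints of `cs`, and bounds all rooms. -/
def chkSteps (l : List Step) (inp : List Port) (cs : List Con) (m : ℕ) (rooms : List (ℤ × ℤ)) : Bool :=
  (stepCons l).all (fun c => decide (c ∈ cs)) &&
    match runB l (inp.map fun p => (p, 1)) with
    | some kn => covers kn m rooms
    | none => false

theorem chkSteps_spec {l : List Step} {inp : List Port} {cs : List Con} {m : ℕ} {rooms : List (ℤ × ℤ)}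
    (h : chkSteps l inp cs m rooms = true) (hB : 0 ≤ B) (hinp : ∀ p ∈ inp, |pval a p| ≤ B)
    (hcs : ∀ c ∈ cs, |c.slack a| ≤ B) {r : ℤ × ℤ} (hr : r ∈ rooms) :
    |(a r.1 r.2).1| ≤ m * B ∧ |(a r.1 r.2).2| ≤ m * B := by
  unfold chkSteps at h
  rw [Bool.and_eq_true] at h
  obtain ⟨h1, h2⟩ := h
  rcases h3 : runB l (inp.map fun p => (p, 1)) with _ | kn
  · rw [h3] at h2; simp at h2
  rw [h3] at h2
  simp only at h2
  have h4 := runB_spec hB l _ (a := a) (by
    intro e he
    obtain ⟨p, hp, rfl⟩ := List.mem_map.1 he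
    simpa using hinp p hp) (by
    intro c hc
    exact hcs c (by simpa using List.all_eq_true.1 h1 c hc)) h3
  have h5 := List.all_eq_true.1 h2 r hr
  rw [Bool.and_eq_true] at h5
  obtain ⟨h6, h7⟩ := h5
  constructor
  · rcases h8 : lookP kn (r.1, r.2, .one) with _ | n
    · rw [h8] at h6; simp at h6
    rw [h8] at h6
    have h9 := h4 _ (lookP_spec h8)
    have h10 : (n : ℝ) ≤ m := by exact_mod_cast (by simpa using h6 : n ≤ m)
    exact h9.trans (mul_le_mul_of_nonneg_right h10 hB)
  · rcases h8 : lookP kn (r.1, r.2, .two) with _ | n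
    · rw [h8] at h7; simp at h7
    rw [h8] at h7
    have h9 := h4 _ (lookP_spec h8)
    have h10 : (n : ℝ) ≤ m := by exact_mod_cast (by simpa using h7 : n ≤ m)
    exact h9.trans (mul_le_mul_of_nonneg_right h10 hB)

/-! ### The size of the second order terms -/

/-- The rooms of a constraint. -/
def Con.rooms : Con → List (ℤ × ℤ)
  | .h1 x y => [(x + 1, y), (x, y)]
  | .h3 x y => [(x, y - 1), (x, y)]
  | .cp x y => [(x, y), (x + 1, y + 1)]
  | .p1 x y => [(x, y)]
  | .p2 x y => [(x, y)]
  | .p3 x y => [(x, y)]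

theorem abs_a3_le {v : ℝ × ℝ} {M : ℝ} (h : |v.1| ≤ M ∧ |v.2| ≤ M) : |a3 v| ≤ 2 * M := by
  unfold a3
  rw [abs_neg]
  calc |v.1 + v.2| ≤ |v.1| + |v.2| := abs_add_le _ _
    _ ≤ _ := by linarith [h.1, h.2]

theorem abs_lin_le {v : ℝ × ℝ} {M p q : ℝ} (h : |v.1| ≤ M ∧ |v.2| ≤ M) : |p * v.1 + q * v.2| ≤ (|p| + |q|) * M := by
  calc |p * v.1 + q * v.2| ≤ |p * v.1| + |q * v.2| := abs_add_le _ _
    _ = |p| * |v.1| + |q| * |v.2| := by rw [abs_mul, abs_mul]
    _ ≤ |p| * M + |q| * M := by
      have := mul_le_mul_of_nonneg_left h.1 (abs_nonneg p)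
      have := mul_le_mul_of_nonneg_left h.2 (abs_nonneg q)
      linarith
    _ = _ := by ring

theorem abs_e1_le {v : ℝ × ℝ} {M : ℝ} (h : |v.1| ≤ M ∧ |v.2| ≤ M) : |e1 v| ≤ 23465 * M := by
  have := abs_lin_le (p := 1805) (q := -21660) h
  have e : e1 v = 1805 * v.1 + -21660 * v.2 := by unfold e1; ring
  rw [e]; norm_num at this ⊢; linarith

theorem abs_e2_le {v : ℝ × ℝ} {M : ℝ} (h : |v.1| ≤ M ∧ |v.2| ≤ M) : |e2 v| ≤ 33462 * M := by
  have := abs_lin_le (p := 2574) (q := -30888) h
  have e : e2 v = 2574 * v.1 + -30888 * v.2 := by unfold e2; ring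
  rw [e]; norm_num at this ⊢; linarith

theorem abs_e3_le {v : ℝ × ℝ} {M : ℝ} (h : |v.1| ≤ M ∧ |v.2| ≤ M) : |e3 v| ≤ 6435 * M := by
  have := abs_lin_le (p := -495) (q := 5940) h
  have e : e3 v = -495 * v.1 + 5940 * v.2 := by unfold e3; ring
  rw [e]; norm_num at this ⊢; linarith

theorem abs_f1_le {v : ℝ × ℝ} {M : ℝ} (h : |v.1| ≤ M ∧ |v.2| ≤ M) : |f1 v| ≤ 66785 * M := by
  have := abs_lin_le (p := 45125) (q := 21660) h
  have e : f1 v = 45125 * v.1 + 21660 * v.2 := by unfold f1; ring
  rw [e]; norm_num at this ⊢; linarith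

theorem abs_f3_le {v : ℝ × ℝ} {M : ℝ} (h : |v.1| ≤ M ∧ |v.2| ≤ M) : |f3 v| ≤ 18315 * M := by
  have := abs_lin_le (p := -12375) (q := -5940) h
  have e : f3 v = -12375 * v.1 + -5940 * v.2 := by unfold f3; ring
  rw [e]; norm_num at this ⊢; linarith

theorem abs_mul_le' {x y X Y : ℝ} (hx : |x| ≤ X) (hy : |y| ≤ Y) : |x * y| ≤ X * Y := by
  rw [abs_mul]
  exact mul_le_mul hx hy (abs_nonneg _) ((abs_nonneg _).trans hx)

/-- the second order term is quadratically small -/
theorem Q_bound {M : ℝ} (hM : 0 ≤ M) {c : Con} (h : ∀ r ∈ c.rooms, |(a r.1 r.2).1| ≤ M ∧ |(a r.1 r.2).2| ≤ M) :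
    |c.Q a| ≤ 151885 * M ^ 2 := by
  have hM2 : 0 ≤ M ^ 2 := by positivity
  rcases c with ⟨x, y⟩ | ⟨x, y⟩ | ⟨x, y⟩ | ⟨x, y⟩ | ⟨x, y⟩ | ⟨x, y⟩ <;> simp only [Con.rooms, List.mem_cons,
    List.not_mem_nil, or_false, forall_eq_or_imp, forall_eq] at h <;> simp only [Con.Q]
  · obtain ⟨h1, h2⟩ := h
    have k1 := abs_mul_le' h2.1 (abs_e2_le h1)
    have k2 := abs_mul_le' h1.2 (abs_e1_le h2)
    calc _ ≤ |(a x y).1 * e2 (a (x + 1) y)| + |(a (x + 1) y).2 * e1 (a x y)| := abs_sub _ _
      _ ≤ _ := by nlinarith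
  · obtain ⟨h1, h2⟩ := h
    have k1 := abs_mul_le' (abs_a3_le h2) (abs_e2_le h1)
    have k2 := abs_mul_le' h1.2 (abs_e3_le h2)
    calc _ ≤ |a3 (a x y) * e2 (a x (y - 1))| + |(a x (y - 1)).2 * e3 (a x y)| := abs_sub _ _
      _ ≤ _ := by nlinarith
  · obtain ⟨h1, h2⟩ := h
    have k1 := abs_mul_le' (abs_a3_le h2) (abs_f1_le h1)
    have k2 := abs_mul_le' h1.1 (abs_f3_le h2)
    calc _ ≤ |a3 (a (x + 1) (y + 1)) * f1 (a x y)| + |(a x y).1 * f3 (a (x + 1) (y + 1))| := abs_sub _ _
      _ ≤ _ := by nlinarith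
  all_goals simp only [abs_zero]; positivity

/-- a constraint that holds has a slack that is at least quadratically small -/
theorem slack_ge {M : ℝ} (hM : 0 ≤ M) {c : Con} (hc : c.Holds a)
    (h : ∀ r ∈ c.rooms, |(a r.1 r.2).1| ≤ M ∧ |(a r.1 r.2).2| ≤ M) : -(18 * M ^ 2) ≤ c.slack a := by
  have h1 := Q_bound hM h
  have h2 : -(151885 * M ^ 2) ≤ c.Q a := neg_le_of_abs_le h1
  have h3 : c.Q a < 8664 * c.slack a := hc
  have hM2 : 0 ≤ M ^ 2 := by positivity
  linarith

end Pool.Agent.Lib.MP_6ff0c5_lc.N
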