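import Pool.Agent.Lib.MP_6ff0c5_lc.K.Comp

section

/-!
MP_6ff0c5_lc, part B: the layout of an instance is well-formed; its strings.
-/

set_option autoImplicit false

namespace Pool.Agent.Lib.MP_6ff0c5_lc.N

open LQ (Inst Form)

theorem layOf_nvar (I : Inst) (K : ℕ) : (layOf I K).nvar = I.N + 1 := by
  unfold Lay.nvar layOf Inst.N
  simp only
  omega

private theorem layOf_taps (I : Inst) (K : ℕ) : (layOf I K).taps =
    [0, 1, 3] :: [0] :: (((List.range (I.N + 1)).flatMap fun v => [[3 + 2 * v], [2 + 2 * v, 0]]) ++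
      I.forms.map formTaps) := rfl

private theorem layOK_succ (n : ℕ) :
    ((List.range (n + 1)).flatMap fun v => [[3 + 2 * v], [2 + 2 * v, 0]]) =
      ((List.range n).flatMap fun v => [[3 + 2 * v], [2 + 2 * v, 0]]) ++
        [[3 + 2 * n], [2 + 2 * n, 0]] := by
  rw [List.range_succ, List.flatMap_append]
  rfl

private theorem layOK_len (n : ℕ) :
    ((List.range n).flatMap fun v => [[3 + 2 * v], [2 + 2 * v, 0]]).length = 2 * n := by
  induction n with
  | zero => rfl
  | succ n ih =>
    rw [layOK_succ, List.length_append, ih]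
    rfl

private theorem layOK_get (n : ℕ) {v : ℕ} (hv : v < n) :
    ((List.range n).flatMap fun v => [[3 + 2 * v], [2 + 2 * v, 0]])[2 * v]? = some [3 + 2 * v] ∧
    ((List.range n).flatMap fun v => [[3 + 2 * v], [2 + 2 * v, 0]])[2 * v + 1]? =
      some [2 + 2 * v, 0] := by
  induction n with
  | zero => omega
  | succ n ih =>
    rw [layOK_succ]
    by_cases h : v < n
    · rw [List.getElem?_append_left (by rw [layOK_len]; omega),
        List.getElem?_append_left (by rw [layOK_len]; omega)]
      exact ih h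
    · have h1 : v = n := by omega
      subst h1
      rw [List.getElem?_append_right (by rw [layOK_len]),
        List.getElem?_append_right (by rw [layOK_len]; omega), layOK_len, Nat.sub_self,
        Nat.add_sub_cancel_left]
      exact ⟨rfl, rfl⟩

private theorem layOK_nl (I : Inst) (K : ℕ) : (layOf I K).nl = 2 + 2 * (I.N + 1) := by
  unfold Lay.nl
  rw [layOf_nvar]

private theorem layOK_range (n : ℕ) (φ : ℕ → ℝ) :
    ((List.range n).map φ).sum = ∑ j ∈ Finset.range n, φ j := by
  induction n with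
  | zero => simp
  | succ n ih =>
    rw [List.range_succ, List.map_append, List.sum_append, ih, Finset.sum_range_succ]
    simp

private theorem layOK_sum (n : ℕ) (l : List ℕ) (y : ℕ → ℝ) (hl : l.Nodup) (hn : ∀ j ∈ l, j < n) :
    ((List.range n).map fun j => if j ∈ l then y j else 0).sum = (l.map y).sum := by
  rw [layOK_range, ← Finset.sum_filter]
  have h1 : (Finset.range n).filter (fun j => j ∈ l) = l.toFinset := by
    ext j
    rw [Finset.mem_filter, Finset.mem_range, List.mem_toFinset]
    exact ⟨fun h => h.2, fun h => ⟨hn j h, h⟩⟩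
  rw [h1, List.sum_toFinset y hl]

private theorem layOK_mem {f : Form} {n : ℕ}
    (_hp : ∀ p ∈ f.2, (p.1 = -1 ∨ p.1 = 0 ∨ p.1 = 1) ∧ p.2 < n) (j : ℕ) :
    j ∈ formTaps f ↔ (f.1 = 1 ∧ j = 0) ∨ (f.1 = -1 ∧ j = 1) ∨
      ∃ p ∈ f.2, (p.1 = 1 ∧ j = 3 + 2 * p.2) ∨ (p.1 = -1 ∧ j = 2 + 2 * p.2) := by
  unfold formTaps
  rw [List.mem_append, List.mem_append, List.mem_flatMap, or_assoc]
  refine or_congr ?_ (or_congr ?_ (exists_congr fun p => and_congr_right fun _ => ?_))
  · by_cases h : f.1 = 1
    · simp [h]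
    · simp [h]
  · by_cases h : f.1 = -1
    · simp [h]
    · simp [h]
  · by_cases h : p.1 = 1
    · simp [h]
    · by_cases h' : p.1 = -1
      · simp [h']
      · simp [h, h']

private theorem layOK_formTaps {f : Form} {n : ℕ}
    (hp : ∀ p ∈ f.2, (p.1 = -1 ∨ p.1 = 0 ∨ p.1 = 1) ∧ p.2 < n)
    (hnd : (f.2.map Prod.snd).Nodup) :
    (formTaps f).Nodup ∧ ∀ j ∈ formTaps f, j < 2 + 2 * (n + 1) := by
  constructor
  · unfold formTaps
    have h1 : (f.2.flatMap fun p => if p.1 = 1 then [3 + 2 * p.2] else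
        if p.1 = -1 then [2 + 2 * p.2] else []).Nodup := by
      rw [List.nodup_flatMap]
      constructor
      · intro p _
        by_cases h : p.1 = 1
        · simp [h]
        · by_cases h' : p.1 = -1
          · simp [h']
          · simp [h, h']
      · have h2 : f.2.Pairwise fun a b => a.2 ≠ b.2 := by
          have := hnd
          unfold List.Nodup at this
          rwa [List.pairwise_map] at this
        refine h2.imp ?_
        intro a b hab
        show List.Disjoint _ _
        intro j hj1 hj2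
        have h3 : ∀ p : ℤ × ℕ, (j ∈ if p.1 = 1 then [3 + 2 * p.2] else
            if p.1 = -1 then [2 + 2 * p.2] else []) → (j - 2) / 2 = p.2 := by
          intro p hpj
          by_cases h : p.1 = 1
          · rw [if_pos h, List.mem_singleton] at hpj
            omega
          · rw [if_neg h] at hpj
            by_cases h' : p.1 = -1
            · rw [if_pos h', List.mem_singleton] at hpj
              omega
            · rw [if_neg h'] at hpj
              exact absurd hpj List.not_mem_nil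
        exact hab ((h3 a hj1).symm.trans (h3 b hj2))
    have hge : ∀ j ∈ (f.2.flatMap fun p => if p.1 = 1 then [3 + 2 * p.2] else
        if p.1 = -1 then [2 + 2 * p.2] else []), 2 ≤ j := by
      intro j hj
      rw [List.mem_flatMap] at hj
      obtain ⟨p, -, hpj⟩ := hj
      by_cases h : p.1 = 1
      · rw [if_pos h, List.mem_singleton] at hpj
        omega
      · rw [if_neg h] at hpj
        by_cases h' : p.1 = -1
        · rw [if_pos h', List.mem_singleton] at hpj
          omega
        · rw [if_neg h'] at hpj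
          exact absurd hpj List.not_mem_nil
    by_cases h : f.1 = 1
    · rw [if_pos h, if_neg (by omega), List.append_nil]
      rw [List.singleton_append, List.nodup_cons]
      exact ⟨fun h0 => by have := hge 0 h0; omega, h1⟩
    · by_cases h' : f.1 = -1
      · rw [if_neg h, if_pos h', List.nil_append, List.singleton_append, List.nodup_cons]
        exact ⟨fun h0 => by have := hge 1 h0; omega, h1⟩
      · rw [if_neg h, if_neg h', List.nil_append, List.nil_append]
        exact h1
  · intro j hj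
    rcases (layOK_mem hp j).1 hj with ⟨-, rfl⟩ | ⟨-, rfl⟩ | ⟨p, hpf, ⟨-, rfl⟩ | ⟨-, rfl⟩⟩
    · omega
    · omega
    · have := (hp p hpf).2
      omega
    · have := (hp p hpf).2
      omega

theorem layOf_ns (I : Inst) (K : ℕ) : (layOf I K).ns = 2 + 2 * (I.N + 1) + I.forms.length := by
  unfold Lay.ns
  rw [layOf_taps, List.length_cons, List.length_cons, List.length_append, layOK_len,
    List.length_map]
  omega

/-- the string `0` taps the lanes `0, 1, 3` -/
theorem tap_zero (I : Inst) (K j : ℕ) : (layOf I K).tap 0 j = decide (j = 0 ∨ j = 1 ∨ j = 3) := by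
  unfold Lay.tap
  rw [layOf_taps]
  simp

/-- the string `1` taps the lane `0` -/
theorem tap_one (I : Inst) (K j : ℕ) : (layOf I K).tap 1 j = decide (j = 0) := by
  unfold Lay.tap
  rw [layOf_taps]
  simp

/-- the string `2 + 2 v` taps the lane `3 + 2 v` -/
theorem tap_neg (I : Inst) (K j : ℕ) {v : ℕ} (hv : v < I.N + 1) : (layOf I K).tap (2 + 2 * v) j = decide (j = 3 + 2 * v) := by
  unfold Lay.tap
  rw [layOf_taps, List.getD_eq_getElem?_getD, show 2 + 2 * v = 2 * v + 1 + 1 by omega,
    List.getElem?_cons_succ, List.getElem?_cons_succ, List.getElem?_append_left (by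
      rw [layOK_len]; omega), (layOK_get (I.N + 1) hv).1]
  simp

/-- the string `3 + 2 v` taps the lanes `2 + 2 v` and `0` -/
theorem tap_pos (I : Inst) (K j : ℕ) {v : ℕ} (hv : v < I.N + 1) :
    (layOf I K).tap (3 + 2 * v) j = decide (j = 2 + 2 * v ∨ j = 0) := by
  unfold Lay.tap
  rw [layOf_taps, List.getD_eq_getElem?_getD, show 3 + 2 * v = (2 * v + 1) + 1 + 1 by omega,
    List.getElem?_cons_succ, List.getElem?_cons_succ, List.getElem?_append_left (by
      rw [layOK_len]; omega), (layOK_get (I.N + 1) hv).2]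
  simp

/-- the strings of the forms -/
theorem tap_form (I : Inst) (K j : ℕ) {i : ℕ} {f : Form} (hf : I.forms[i]? = some f) :
    (layOf I K).tap (2 + 2 * (I.N + 1) + i) j = decide (j ∈ formTaps f) := by
  unfold Lay.tap
  rw [layOf_taps, List.getD_eq_getElem?_getD,
    show 2 + 2 * (I.N + 1) + i = (2 * (I.N + 1) + i) + 1 + 1 by omega,
    List.getElem?_cons_succ, List.getElem?_cons_succ, List.getElem?_append_right (by
      rw [layOK_len]; omega), layOK_len, Nat.add_sub_cancel_left, List.getElem?_map, hf]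
  rfl

/-- every string is one of these -/
theorem string_cases (I : Inst) (K : ℕ) {l : ℕ} (hl : l < (layOf I K).ns) :
    l = 0 ∨ l = 1 ∨ (∃ v < I.N + 1, l = 2 + 2 * v) ∨ (∃ v < I.N + 1, l = 3 + 2 * v) ∨
      ∃ i f, I.forms[i]? = some f ∧ l = 2 + 2 * (I.N + 1) + i := by
  rw [layOf_ns] at hl
  by_cases h0 : l = 0
  · exact Or.inl h0
  by_cases h1 : l = 1
  · exact Or.inr (Or.inl h1)
  by_cases h2 : l < 2 + 2 * (I.N + 1)
  · rcases Nat.mod_two_eq_zero_or_one l with h3 | h3
    · exact Or.inr (Or.inr (Or.inl ⟨(l - 2) / 2, by omega, by omega⟩))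
    · exact Or.inr (Or.inr (Or.inr (Or.inl ⟨(l - 3) / 2, by omega, by omega⟩)))
  · refine Or.inr (Or.inr (Or.inr (Or.inr ⟨l - (2 + 2 * (I.N + 1)),
      I.forms[l - (2 + 2 * (I.N + 1))]'(by omega), ?_, by omega⟩)))
    exact List.getElem?_eq_getElem _

theorem layOf_ok (I : Inst) (K : ℕ) : (layOf I K).OK := by
  refine ⟨?_, ?_, ?_⟩
  · unfold layOf
    simp only
    omega
  · unfold layOf
    simp only
    omega
  · intro j hj
    rw [layOK_nl] at hj
    by_cases h0 : j = 0 ∨ j = 1
    · refine ⟨0, by rw [layOf_ns]; omega, ?_⟩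
      rw [tap_zero, decide_eq_true_eq]
      omega
    · rcases Nat.mod_two_eq_zero_or_one j with h3 | h3
      · refine ⟨3 + 2 * ((j - 2) / 2), by rw [layOf_ns]; omega, ?_⟩
        rw [tap_pos I K j (by omega), decide_eq_true_eq]
        omega
      · refine ⟨2 + 2 * ((j - 3) / 2), by rw [layOf_ns]; omega, ?_⟩
        rw [tap_neg I K j (by omega), decide_eq_true_eq]
        omega

/-- The sum over the tapped lanes of a form: `y 0` is the value of the lane `0` (which is `-u`), etc. -/
theorem formTaps_sum (I : Inst) (hI : I.WF) (K : ℕ) {f : Form} (hf : f ∈ I.forms) (y : ℕ → ℝ) (u : ℝ) (z : ℕ → ℝ)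
    (h0 : y 0 = -u) (h1 : y 1 = u) (h2 : ∀ v < I.N, y (2 + 2 * v) = z v) (h3 : ∀ v < I.N, y (3 + 2 * v) = -z v) :
    ((List.range (layOf I K).nl).map fun j => if j ∈ formTaps f then y j else 0).sum =
      -((f.1 : ℝ) * u + LQ.lsum z f.2) := by
  obtain ⟨hc, hp, hnd⟩ := hI f hf
  obtain ⟨h4, h5⟩ := layOK_formTaps hp hnd
  rw [layOK_sum _ _ y h4 (fun j hj => by rw [layOK_nl]; exact h5 j hj)]
  unfold formTaps
  rw [List.map_append, List.map_append, List.sum_append, List.sum_append]
  have h6 : ((if f.1 = 1 then [0] else []).map y).sum + ((if f.1 = -1 then [1] else []).map y).sum =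
      -((f.1 : ℝ) * u) := by
    rcases hc with h | h | h
    · simp [h, h1]
    · simp [h]
    · simp [h, h0]
  have h7 : ∀ l : List (ℤ × ℕ), (∀ p ∈ l, (p.1 = -1 ∨ p.1 = 0 ∨ p.1 = 1) ∧ p.2 < I.N) →
      ((l.flatMap fun p => if p.1 = 1 then [3 + 2 * p.2] else if p.1 = -1 then [2 + 2 * p.2]
        else []).map y).sum = -LQ.lsum z l := by
    intro l
    induction l with
    | nil => intro _; simp [LQ.lsum]
    | cons p l ih =>
      intro hl
      have h8 := ih fun q hq => hl q (List.mem_cons_of_mem p hq)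
      obtain ⟨h9, h10⟩ := hl p List.mem_cons_self
      rw [List.flatMap_cons, List.map_append, List.sum_append, h8]
      have h11 : LQ.lsum z (p :: l) = (p.1 : ℝ) * z p.2 + LQ.lsum z l := by
        unfold LQ.lsum
        rw [List.map_cons, List.sum_cons]
      rw [h11]
      rcases h9 with h | h | h
      · simp [h, h2 p.2 h10]
        ring
      · simp [h]
      · simp [h, h3 p.2 h10]
        ring
  rw [h6, h7 f.2 hp]
  ring

/-- The same with inequalities: lower bounds of the lanes. -/
theorem formTaps_le (I : Inst) (hI : I.WF) (K : ℕ) {f : Form} (hf : f ∈ I.forms) (y : ℕ → ℝ) (u e : ℝ) (z : ℕ → ℝ)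
    (he : 0 ≤ e) (h0 : -u - e ≤ y 0) (h1 : u - e ≤ y 1) (h2 : ∀ v < I.N, z v - e ≤ y (2 + 2 * v))
    (h3 : ∀ v < I.N, -z v - e ≤ y (3 + 2 * v)) :
    -((f.1 : ℝ) * u + LQ.lsum z f.2) - (layOf I K).nl * e ≤
      ((List.range (layOf I K).nl).map fun j => if j ∈ formTaps f then y j else 0).sum := by
  obtain ⟨hc, hp, hnd⟩ := hI f hf
  set y0 : ℕ → ℝ := fun j => if j = 0 then -u else if j = 1 then u else
    if j % 2 = 0 then z ((j - 2) / 2) else -z ((j - 3) / 2) with hy0
  have hs := formTaps_sum I hI K hf y0 u z (by simp [hy0]) (by simp [hy0])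
    (by
      intro v _
      simp only [hy0]
      rw [if_neg (by omega), if_neg (by omega), if_pos (by omega)]
      congr 1
      omega)
    (by
      intro v _
      simp only [hy0]
      rw [if_neg (by omega), if_neg (by omega), if_neg (by omega)]
      congr 2
      omega)
  rw [← hs, layOK_range, layOK_range]
  have h4 : ∀ j ∈ Finset.range (layOf I K).nl, (if j ∈ formTaps f then y0 j else 0) - e ≤
      if j ∈ formTaps f then y j else 0 := by
    intro j _
    by_cases hj : j ∈ formTaps f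
    · rw [if_pos hj, if_pos hj]
      rcases (layOK_mem hp j).1 hj with ⟨-, rfl⟩ | ⟨-, rfl⟩ | ⟨p, hpf, ⟨-, rfl⟩ | ⟨-, rfl⟩⟩
      · simpa [hy0] using h0
      · simpa [hy0] using h1
      · have := h3 p.2 (hp p hpf).2
        simp only [hy0]
        rw [if_neg (by omega), if_neg (by omega), if_neg (by omega),
          show (3 + 2 * p.2 - 3) / 2 = p.2 by omega]
        exact this
      · have := h2 p.2 (hp p hpf).2
        simp only [hy0]
        rw [if_neg (by omega), if_neg (by omega), if_pos (by omega),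
          show (2 + 2 * p.2 - 2) / 2 = p.2 by omega]
        exact this
    · rw [if_neg hj, if_neg hj]
      linarith
  have h5 := Finset.sum_le_sum h4
  rw [Finset.sum_sub_distrib, Finset.sum_const, Finset.card_range, nsmul_eq_mul] at h5
  exact h5

end Pool.Agent.Lib.MP_6ff0c5_lc.N
end

section

section

/-!
MP_6ff0c5_lc, part B: auxiliary facts on the tiles next to a tile of the crossbar or to a source.
-/

set_option autoImplicit false

namespace Pool.Agent.Lib.MP_6ff0c5_lc.N

variable {P : Lay}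

theorem aux_act {T : ℤ → ℤ → ℕ} {X Y : ℤ} {v : Bool} (L J i k : ℤ) (hX : X = 9 * L + i)
    (hY : Y = 9 * J + k) (hi : 0 ≤ i) (hi' : i < 9) (hk : 0 ≤ k) (hk' : k < 9)
    (hv : tbit masks (T L J) i k = v) : (netOf T).act X Y = v := by
  rw [hX, hY, act_at T L J i k hi hi' hk hk', hv]

theorem aux_cup {T : ℤ → ℤ → ℕ} {X Y : ℤ} {v : Bool} (L J i k : ℤ) (hX : X = 9 * L + i)
    (hY : Y = 9 * J + k) (hi : 0 ≤ i) (hi' : i < 9) (hk : 0 ≤ k) (hk' : k < 9)
    (hv : tbit cmasks (T L J) i k = v) : (netOf T).cup X Y = v := by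
  rw [hX, hY, cup_at T L J i k hi hi' hk hk', hv]

/-- the tiles on the left of the sources -/
theorem aux_le4 (P : Lay) {L J : ℤ} (hL : L < P.ns) : P.tile L J ≤ 4 := by
  rcases lt_or_ge L 0 with h0 | h0
  · rw [tile_left h0]
    omega
  rcases lt_or_ge J 0 with h1 | h1
  · rw [tile_cross_out hL (Or.inl h1)]
    omega
  rcases le_or_gt (P.nl : ℤ) J with h2 | h2
  · rw [tile_cross_out hL (Or.inr h2)]
    omega
  obtain ⟨l, rfl⟩ := Int.eq_ofNat_of_zero_le h0
  obtain ⟨j, rfl⟩ := Int.eq_ofNat_of_zero_le h1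
  have h3 := tile_cross (P := P) (l := l) (j := j) (by exact_mod_cast hL) (by exact_mod_cast h2)
  have h4 := tt_cases P l j
  rw [h3]
  omega

/-- the tile on the left of a lane that goes on -/
theorem aux_left {l j : ℕ} (hl : l ≤ P.ns) (hj : j < P.nl) (he : P.ended l j = true) :
    2 ≤ P.tile ((l : ℤ) - 1) j ∧ P.tile ((l : ℤ) - 1) j ≤ 4 := by
  rcases l with _ | l
  · rw [ended_zero] at he
    exact absurd he (by decide)
  · have h1 : (((l + 1 : ℕ) : ℤ) - 1) = (l : ℤ) := by push_cast; ring
    rw [h1]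
    have hl' : l < P.ns := by omega
    rw [ended_succ P hl' j, Bool.or_eq_true] at he
    rw [tile_cross hl' hj]
    have h4 := tt_cases P l j
    have h5 : P.tt l j ≠ 1 := by
      intro h
      rw [tt_eq_one] at h
      rw [h.1, h.2] at he
      exact absurd he (by decide)
    omega

/-- the sources -/
theorem aux_src {j : ℕ} (hj : j < P.nl) :
    (5 ≤ P.tile P.ns j ∧ P.tile P.ns j ≤ 18) ∨ P.tile P.ns j = 27 ∨ P.tile P.ns j = 28 := by
  rcases lt_or_ge j 2 with h | h
  · rw [tile_U0 h]
    omega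
  · rcases lt_or_ge (j - 2) (6 * P.G.length) with h1 | h1
    · left
      have hg : (j - 2) / 6 < P.G.length := by omega
      have h2 := tile_G (P := P) (List.getElem?_eq_getElem hg) (i := (j - 2) % 6)
        (Nat.mod_lt _ (by norm_num))
      have h3 : (2 + 6 * (((j - 2) / 6 : ℕ) : ℤ) + (((j - 2) % 6 : ℕ) : ℤ)) = (j : ℤ) := by
        omega
      rw [h3] at h2
      rw [h2]
      have h4 : (j - 2) % 6 < 6 := Nat.mod_lt _ (by norm_num)
      split_ifs <;> omega
    · left
      have hnl : P.nl = 2 + 2 * (3 * P.G.length + P.V) := rfl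
      have hv : (j - 2 - 6 * P.G.length) / 2 < P.V := by omega
      have h2 := tile_S (P := P) hv (i := (j - 2 - 6 * P.G.length) % 2)
        (Nat.mod_lt _ (by norm_num))
      have h3 : (2 + 6 * (P.G.length : ℤ) + 2 * (((j - 2 - 6 * P.G.length) / 2 : ℕ) : ℤ) +
          (((j - 2 - 6 * P.G.length) % 2 : ℕ) : ℤ)) = (j : ℤ) := by
        omega
      rw [h3] at h2
      rw [h2]
      omega

/-- the tile on the right of a lane -/
theorem aux_right {l j : ℕ} (hl : l < P.ns) (hj : j < P.nl) (he : P.ended (l + 1) j = true) :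
    (3 ≤ P.tile ((l : ℤ) + 1) j ∧ P.tile ((l : ℤ) + 1) j ≤ 18) ∨ P.tile ((l : ℤ) + 1) j = 27 ∨
      P.tile ((l : ℤ) + 1) j = 28 := by
  have h1 : ((l : ℤ) + 1) = ((l + 1 : ℕ) : ℤ) := by push_cast; ring
  rw [h1]
  rcases Nat.lt_or_ge (l + 1) P.ns with h2 | h2
  · rw [tile_cross h2 hj]
    have h4 := tt_cases P (l + 1) j
    have h5 : P.tt (l + 1) j ≠ 1 := by
      intro h
      rw [tt_eq_one, he] at h
      exact absurd h.1 (by decide)
    have h6 : P.tt (l + 1) j ≠ 2 := by
      intro h
      rw [tt_eq_two, he] at h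
      exact absurd h.1 (by decide)
    omega
  · have h3 : l + 1 = P.ns := by omega
    rw [h3]
    have := aux_src (P := P) hj
    omega

/-! ### bits -/

theorem aux_c8 {id : ℕ} (h : id ≤ 4) : tbit cmasks id 2 8 = false ∧ tbit cmasks id 3 8 = false ∧
    tbit cmasks id 4 8 = false ∧ tbit cmasks id 5 8 = false ∧ tbit cmasks id 8 4 = false := by
  have : ∀ id < 5, tbit cmasks id 2 8 = false ∧ tbit cmasks id 3 8 = false ∧
    tbit cmasks id 4 8 = false ∧ tbit cmasks id 5 8 = false ∧ tbit cmasks id 8 4 = false := by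
    decide +kernel
  exact this id (by omega)

theorem aux_m8 {id : ℕ} (h : id ≤ 4) : tbit masks id 4 8 = false ∧ tbit masks id 5 8 = false ∧
    tbit masks id 6 8 = false := by
  have : ∀ id < 5, tbit masks id 4 8 = false ∧ tbit masks id 5 8 = false ∧
    tbit masks id 6 8 = false := by
    decide +kernel
  exact this id (by omega)

theorem aux_m85 {id : ℕ} (h : 2 ≤ id ∧ id ≤ 4) : tbit masks id 8 5 = true := by
  have : ∀ id < 5, 2 ≤ id → tbit masks id 8 5 = true := by
    decide +kernel
  exact this id (by omega) h.1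

theorem aux_m0 {id : ℕ} (h : (3 ≤ id ∧ id ≤ 18) ∨ id = 27 ∨ id = 28) :
    tbit masks id 0 3 = false ∧ tbit masks id 0 4 = false ∧ tbit masks id 0 5 = true := by
  have : ∀ id < 29, (3 ≤ id ∧ id ≤ 18) ∨ id = 27 ∨ id = 28 →
      tbit masks id 0 3 = false ∧ tbit masks id 0 4 = false ∧ tbit masks id 0 5 = true := by
    decide +kernel
  exact this id (by omega) h

end Pool.Agent.Lib.MP_6ff0c5_lc.N
end

section

/-!
MP_6ff0c5_lc, part B: the blocks of the chain are at their places, with the right surroundings.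
-/

set_option autoImplicit false

namespace Pool.Agent.Lib.MP_6ff0c5_lc.N

variable {P : Lay}

private theorem ac_act {T : ℤ → ℤ → ℕ} {x y : ℤ} {b : Bool} (L J i k : ℤ) (n : ℕ) (hT : T L J = n)
    (hx : x = 9 * L + i) (hy : y = 9 * J + k) (hi : (0 ≤ i ∧ i < 9) ∧ 0 ≤ k ∧ k < 9) (hb : tbit masks n i k = b) :
    (netOf T).act x y = b := by
  rw [hx, hy, act_at T L J i k hi.1.1 hi.1.2 hi.2.1 hi.2.2, hT, hb]

private theorem ac_cup {T : ℤ → ℤ → ℕ} {x y : ℤ} {b : Bool} (L J i k : ℤ) (n : ℕ) (hT : T L J = n)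
    (hx : x = 9 * L + i) (hy : y = 9 * J + k) (hi : (0 ≤ i ∧ i < 9) ∧ 0 ≤ k ∧ k < 9) (hb : tbit cmasks n i k = b) :
    (netOf T).cup x y = b := by
  rw [hx, hy, cup_at T L J i k hi.1.1 hi.1.2 hi.2.1 hi.2.2, hT, hb]

private theorem ac_up (hP : P.OK) {k : ℕ} (h1 : 1 ≤ k) (h2 : k ≤ P.K) :
    P.tile (P.ns + 2) (-(2 * k : ℤ) + 2) = 31 ∨ P.tile (P.ns + 2) (-(2 * k : ℤ) + 2) = 21 := by
  rcases Nat.eq_or_lt_of_le h1 with h | h
  · left
    subst h
    have := tile_U2 (P := P) (i := 0) (by norm_num)
    simpa using this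
  · right
    obtain ⟨m, rfl⟩ : ∃ m, k = m + 1 := ⟨k - 1, by omega⟩
    have := tile_E2 (P := P) (k := m) (by omega) (by omega) (i := 0) (by norm_num)
    have e : (-(2 * ((m + 1 : ℕ) : ℤ)) + 2 : ℤ) = -(2 * (m : ℤ)) + ((0 : ℕ) : ℤ) := by push_cast; ring
    rw [e, this]

private theorem ac_dn (_hP : P.OK) {k : ℕ} (_h1 : 1 ≤ k) (h2 : k < P.K) :
    (P.tile (P.ns + 1) (-(2 * k : ℤ) - 1) = 20 ∧ P.tile (P.ns + 2) (-(2 * k : ℤ) - 1) = 22) ∨
      (P.tile (P.ns + 1) (-(2 * k : ℤ) - 1) = 24 ∧ P.tile (P.ns + 2) (-(2 * k : ℤ) - 1) = 26) := by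
  rcases Nat.lt_or_ge (k + 1) P.K with h | h
  · left
    have a := tile_E1 (P := P) (k := k + 1) (by omega) h (i := 1) (by norm_num)
    have b := tile_E2 (P := P) (k := k + 1) (by omega) h (i := 1) (by norm_num)
    have e : (-(2 * (k : ℤ)) - 1 : ℤ) = -(2 * ((k + 1 : ℕ) : ℤ)) + ((1 : ℕ) : ℤ) := by push_cast; ring
    rw [e, a, b]
    exact ⟨rfl, rfl⟩
  · right
    have hk : P.K = k + 1 := by omega
    have a := tile_F1 (P := P) (by omega) (i := 1) (by norm_num)
    have b := tile_F2 (P := P) (by omega) (i := 1) (by norm_num)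
    have e : (-(2 * (k : ℤ)) - 1 : ℤ) = -(2 * (P.K : ℤ)) + ((1 : ℕ) : ℤ) := by rw [hk]; push_cast; ring
    rw [e, a, b]
    exact ⟨rfl, rfl⟩

/-- Below the block is another block of the chain (tiles `19..22` or `23..26`), above it a block of the chain or the tiles
`29`, `31` of the block `U`; on the left (column `ns`, negative rows) there is nothing. -/
theorem at_E (hP : P.OK) {k : ℕ} (h1 : 1 ≤ k) (h2 : k < P.K) : bE.At P.tile (P.ns + 1) (-(2 * k : ℤ)) := by
  have hl : P.tile P.ns (-(2 * k : ℤ)) = 0 := tile_src_neg (by omega)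
  have hl' : P.tile P.ns (-(2 * k : ℤ) - 1) = 0 := tile_src_neg (by omega)
  refine ⟨?_, ?_, ?_⟩
  · intro da db a1 a2 b1 b2
    have a3 : da < 2 := a2
    have b3 : db < 2 := b2
    have a4 : da = 0 ∨ da = 1 := by omega
    have b4 : db = 0 ∨ db = 1 := by omega
    have e0 : ((P.ns : ℤ) + 1 + 1 : ℤ) = (P.ns : ℤ) + 2 := by ring
    rcases a4 with rfl | rfl <;> rcases b4 with rfl | rfl
    · have := tile_E1 (P := P) h1 h2 (i := 0) (by norm_num)
      simpa [bE] using this
    · have := tile_E1 (P := P) h1 h2 (i := 1) (by norm_num)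
      simpa [bE] using this
    · have := tile_E2 (P := P) h1 h2 (i := 0) (by norm_num)
      rw [e0]
      simpa [bE] using this
    · have := tile_E2 (P := P) h1 h2 (i := 1) (by norm_num)
      rw [e0]
      simpa [bE] using this
  · intro e he
    simp only [bE, List.mem_cons, List.not_mem_nil, or_false] at he
    rcases he with rfl | rfl | rfl | rfl | rfl | rfl | rfl | rfl | rfl | rfl | rfl | rfl | rfl | rfl | rfl | rfl | rfl |
      rfl | rfl | rfl | rfl
    · exact ac_act P.ns (-(2 * k : ℤ)) 8 0 0 hl (by ring) (by ring) (by norm_num) (by decide +kernel)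
    · exact ac_act P.ns (-(2 * k : ℤ)) 8 1 0 hl (by ring) (by ring) (by norm_num) (by decide +kernel)
    · exact ac_act P.ns (-(2 * k : ℤ)) 8 2 0 hl (by ring) (by ring) (by norm_num) (by decide +kernel)
    · exact ac_act P.ns (-(2 * k : ℤ)) 8 3 0 hl (by ring) (by ring) (by norm_num) (by decide +kernel)
    · exact ac_act P.ns (-(2 * k : ℤ)) 8 4 0 hl (by ring) (by ring) (by norm_num) (by decide +kernel)
    · exact ac_act P.ns (-(2 * k : ℤ)) 8 5 0 hl (by ring) (by ring) (by norm_num) (by decide +kernel)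
    · exact ac_act P.ns (-(2 * k : ℤ)) 8 6 0 hl (by ring) (by ring) (by norm_num) (by decide +kernel)
    · exact ac_act P.ns (-(2 * k : ℤ)) 8 7 0 hl (by ring) (by ring) (by norm_num) (by decide +kernel)
    · exact ac_act P.ns (-(2 * k : ℤ)) 8 8 0 hl (by ring) (by ring) (by norm_num) (by decide +kernel)
    · rcases ac_dn hP h1 h2 with ⟨h, -⟩ | ⟨h, -⟩ <;>
        exact ac_act (P.ns + 1) (-(2 * k : ℤ) - 1) 0 8 _ h (by ring) (by ring) (by norm_num) (by decide +kernel)
    · rcases ac_dn hP h1 h2 with ⟨h, -⟩ | ⟨h, -⟩ <;>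
        exact ac_act (P.ns + 1) (-(2 * k : ℤ) - 1) 1 8 _ h (by ring) (by ring) (by norm_num) (by decide +kernel)
    · rcases ac_dn hP h1 h2 with ⟨h, -⟩ | ⟨h, -⟩ <;>
        exact ac_act (P.ns + 1) (-(2 * k : ℤ) - 1) 2 8 _ h (by ring) (by ring) (by norm_num) (by decide +kernel)
    · rcases ac_dn hP h1 h2 with ⟨h, -⟩ | ⟨h, -⟩ <;>
        exact ac_act (P.ns + 1) (-(2 * k : ℤ) - 1) 3 8 _ h (by ring) (by ring) (by norm_num) (by decide +kernel)
    · rcases ac_dn hP h1 h2 with ⟨h, -⟩ | ⟨h, -⟩ <;>
        exact ac_act (P.ns + 1) (-(2 * k : ℤ) - 1) 4 8 _ h (by ring) (by ring) (by norm_num) (by decide +kernel)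
    · rcases ac_dn hP h1 h2 with ⟨h, -⟩ | ⟨h, -⟩ <;>
        exact ac_act (P.ns + 1) (-(2 * k : ℤ) - 1) 5 8 _ h (by ring) (by ring) (by norm_num) (by decide +kernel)
    · rcases ac_dn hP h1 h2 with ⟨h, -⟩ | ⟨h, -⟩ <;>
        exact ac_act (P.ns + 1) (-(2 * k : ℤ) - 1) 6 8 _ h (by ring) (by ring) (by norm_num) (by decide +kernel)
    · rcases ac_dn hP h1 h2 with ⟨h, -⟩ | ⟨h, -⟩ <;>
        exact ac_act (P.ns + 1) (-(2 * k : ℤ) - 1) 7 8 _ h (by ring) (by ring) (by norm_num) (by decide +kernel)
    · rcases ac_dn hP h1 h2 with ⟨h, -⟩ | ⟨h, -⟩ <;>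
        exact ac_act (P.ns + 1) (-(2 * k : ℤ) - 1) 8 8 _ h (by ring) (by ring) (by norm_num) (by decide +kernel)
    · rcases ac_dn hP h1 h2 with ⟨-, h⟩ | ⟨-, h⟩ <;>
        exact ac_act (P.ns + 2) (-(2 * k : ℤ) - 1) 0 8 _ h (by ring) (by ring) (by norm_num) (by decide +kernel)
    · rcases ac_dn hP h1 h2 with ⟨-, h⟩ | ⟨-, h⟩ <;>
        exact ac_act (P.ns + 2) (-(2 * k : ℤ) - 1) 1 8 _ h (by ring) (by ring) (by norm_num) (by decide +kernel)
    · rcases ac_up hP h1 h2.le with h | h <;>
        exact ac_act (P.ns + 2) (-(2 * k : ℤ) + 2) 1 0 _ h (by ring) (by ring) (by norm_num) (by decide +kernel)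
  · intro e he
    simp only [bE, List.mem_cons, List.not_mem_nil, or_false] at he
    rcases he with rfl | rfl | rfl | rfl | rfl | rfl | rfl | rfl | rfl | rfl | rfl | rfl | rfl | rfl | rfl | rfl | rfl |
      rfl | rfl | rfl
    · exact ac_cup P.ns (-(2 * k : ℤ) - 1) 8 8 0 hl' (by ring) (by ring) (by norm_num) (by decide +kernel)
    · exact ac_cup P.ns (-(2 * k : ℤ)) 8 0 0 hl (by ring) (by ring) (by norm_num) (by decide +kernel)
    · exact ac_cup P.ns (-(2 * k : ℤ)) 8 1 0 hl (by ring) (by ring) (by norm_num) (by decide +kernel)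
    · exact ac_cup P.ns (-(2 * k : ℤ)) 8 2 0 hl (by ring) (by ring) (by norm_num) (by decide +kernel)
    · exact ac_cup P.ns (-(2 * k : ℤ)) 8 3 0 hl (by ring) (by ring) (by norm_num) (by decide +kernel)
    · exact ac_cup P.ns (-(2 * k : ℤ)) 8 4 0 hl (by ring) (by ring) (by norm_num) (by decide +kernel)
    · exact ac_cup P.ns (-(2 * k : ℤ)) 8 5 0 hl (by ring) (by ring) (by norm_num) (by decide +kernel)
    · exact ac_cup P.ns (-(2 * k : ℤ)) 8 6 0 hl (by ring) (by ring) (by norm_num) (by decide +kernel)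
    · exact ac_cup P.ns (-(2 * k : ℤ)) 8 7 0 hl (by ring) (by ring) (by norm_num) (by decide +kernel)
    · exact ac_cup P.ns (-(2 * k : ℤ)) 8 8 0 hl (by ring) (by ring) (by norm_num) (by decide +kernel)
    · rcases ac_dn hP h1 h2 with ⟨h, -⟩ | ⟨h, -⟩ <;>
        exact ac_cup (P.ns + 1) (-(2 * k : ℤ) - 1) 0 8 _ h (by ring) (by ring) (by norm_num) (by decide +kernel)
    · rcases ac_dn hP h1 h2 with ⟨h, -⟩ | ⟨h, -⟩ <;>
        exact ac_cup (P.ns + 1) (-(2 * k : ℤ) - 1) 1 8 _ h (by ring) (by ring) (by norm_num) (by decide +kernel)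
    · rcases ac_dn hP h1 h2 with ⟨h, -⟩ | ⟨h, -⟩ <;>
        exact ac_cup (P.ns + 1) (-(2 * k : ℤ) - 1) 2 8 _ h (by ring) (by ring) (by norm_num) (by decide +kernel)
    · rcases ac_dn hP h1 h2 with ⟨h, -⟩ | ⟨h, -⟩ <;>
        exact ac_cup (P.ns + 1) (-(2 * k : ℤ) - 1) 3 8 _ h (by ring) (by ring) (by norm_num) (by decide +kernel)
    · rcases ac_dn hP h1 h2 with ⟨h, -⟩ | ⟨h, -⟩ <;>
        exact ac_cup (P.ns + 1) (-(2 * k : ℤ) - 1) 4 8 _ h (by ring) (by ring) (by norm_num) (by decide +kernel)
    · rcases ac_dn hP h1 h2 with ⟨h, -⟩ | ⟨h, -⟩ <;>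
        exact ac_cup (P.ns + 1) (-(2 * k : ℤ) - 1) 5 8 _ h (by ring) (by ring) (by norm_num) (by decide +kernel)
    · rcases ac_dn hP h1 h2 with ⟨h, -⟩ | ⟨h, -⟩ <;>
        exact ac_cup (P.ns + 1) (-(2 * k : ℤ) - 1) 6 8 _ h (by ring) (by ring) (by norm_num) (by decide +kernel)
    · rcases ac_dn hP h1 h2 with ⟨h, -⟩ | ⟨h, -⟩ <;>
        exact ac_cup (P.ns + 1) (-(2 * k : ℤ) - 1) 7 8 _ h (by ring) (by ring) (by norm_num) (by decide +kernel)
    · rcases ac_dn hP h1 h2 with ⟨h, -⟩ | ⟨h, -⟩ <;>
        exact ac_cup (P.ns + 1) (-(2 * k : ℤ) - 1) 8 8 _ h (by ring) (by ring) (by norm_num) (by decide +kernel)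
    · rcases ac_dn hP h1 h2 with ⟨-, h⟩ | ⟨-, h⟩ <;>
        exact ac_cup (P.ns + 2) (-(2 * k : ℤ) - 1) 0 8 _ h (by ring) (by ring) (by norm_num) (by decide +kernel)

theorem at_F (hP : P.OK) : bF.At P.tile (P.ns + 1) (-(2 * P.K : ℤ)) := by
  refine ⟨?_, ?_, ?_⟩
  · intro da db a1 a2 b1 b2
    have a3 : da < 2 := a2
    have b3 : db < 2 := b2
    have a4 : da = 0 ∨ da = 1 := by omega
    have b4 : db = 0 ∨ db = 1 := by omega
    have e0 : ((P.ns : ℤ) + 1 + 1 : ℤ) = (P.ns : ℤ) + 2 := by ring
    rcases a4 with rfl | rfl <;> rcases b4 with rfl | rfl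
    · have := tile_F1 (P := P) hP.hK (i := 0) (by norm_num)
      simpa [bF] using this
    · have := tile_F1 (P := P) hP.hK (i := 1) (by norm_num)
      simpa [bF] using this
    · have := tile_F2 (P := P) hP.hK (i := 0) (by norm_num)
      rw [e0]
      simpa [bF] using this
    · have := tile_F2 (P := P) hP.hK (i := 1) (by norm_num)
      rw [e0]
      simpa [bF] using this
  · intro e he
    simp only [bF, List.mem_cons, List.not_mem_nil, or_false] at he
    subst he
    rcases ac_up hP hP.hK le_rfl with h | h <;>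
      exact ac_act (P.ns + 2) (-(2 * P.K : ℤ) + 2) 1 0 _ h (by ring) (by ring) (by norm_num) (by decide +kernel)
  · intro e he
    simp only [bF, List.not_mem_nil] at he

end Pool.Agent.Lib.MP_6ff0c5_lc.N
end

section

/-!
MP_6ff0c5_lc, part B: the tiles of the crossbar are at their places, with the right surroundings.
-/

set_option autoImplicit false

namespace Pool.Agent.Lib.MP_6ff0c5_lc.N

variable {P : Lay}

private theorem cross_tiles {l j : ℕ} (hl : l < P.ns) (hj : j < P.nl) (t : ℕ) (h : P.tt l j = t)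
    (da db : ℤ) (h1 : 0 ≤ da) (h2 : da < 1) (h3 : 0 ≤ db) (h4 : db < 1) :
    P.tile (l + da) (j + db) = t + (1 * da + db).toNat := by
  have e1 : da = 0 := by omega
  have e2 : db = 0 := by omega
  subst e1
  subst e2
  rw [add_zero, add_zero, tile_cross hl hj, h]
  rfl

private theorem cross_c {l j : ℕ} (hl : l < P.ns) (i : ℤ) (hi : 2 ≤ i) (hi' : i ≤ 5) :
    (netOf P.tile).cup (9 * (l : ℤ) + i) (9 * (j : ℤ) + -1) = false := by
  refine aux_cup (l : ℤ) ((j : ℤ) - 1) i 8 rfl (by ring) (by omega) (by omega) (by omega) (by omega) ?_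
  have h1 := aux_c8 (aux_le4 P (L := (l : ℤ)) (J := (j : ℤ) - 1) (by exact_mod_cast hl))
  obtain rfl | rfl | rfl | rfl : i = 2 ∨ i = 3 ∨ i = 4 ∨ i = 5 := by omega
  · exact h1.1
  · exact h1.2.1
  · exact h1.2.2.1
  · exact h1.2.2.2.1

private theorem cross_m {l j : ℕ} (hl : l < P.ns) (i : ℤ) (hi : 4 ≤ i) (hi' : i ≤ 6) :
    (netOf P.tile).act (9 * (l : ℤ) + i) (9 * (j : ℤ) + -1) = false := by
  refine aux_act (l : ℤ) ((j : ℤ) - 1) i 8 rfl (by ring) (by omega) (by omega) (by omega) (by omega) ?_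
  have h1 := aux_m8 (aux_le4 P (L := (l : ℤ)) (J := (j : ℤ) - 1) (by exact_mod_cast hl))
  obtain rfl | rfl | rfl : i = 4 ∨ i = 5 ∨ i = 6 := by omega
  · exact h1.1
  · exact h1.2.1
  · exact h1.2.2

private theorem cross_r {l j : ℕ} (hl : l < P.ns) (hj : j < P.nl) (he : P.ended (l + 1) j = true) :
    (netOf P.tile).act (9 * (l : ℤ) + 9) (9 * (j : ℤ) + 3) = false ∧
    (netOf P.tile).act (9 * (l : ℤ) + 9) (9 * (j : ℤ) + 4) = false ∧
    (netOf P.tile).act (9 * (l : ℤ) + 9) (9 * (j : ℤ) + 5) = true := by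
  have h1 := aux_m0 (aux_right hl hj he)
  refine ⟨?_, ?_, ?_⟩
  · exact aux_act ((l : ℤ) + 1) (j : ℤ) 0 3 (by ring) rfl (by omega) (by omega) (by omega)
      (by omega) h1.1
  · exact aux_act ((l : ℤ) + 1) (j : ℤ) 0 4 (by ring) rfl (by omega) (by omega) (by omega)
      (by omega) h1.2.1
  · exact aux_act ((l : ℤ) + 1) (j : ℤ) 0 5 (by ring) rfl (by omega) (by omega) (by omega)
      (by omega) h1.2.2

private theorem cross_l {l j : ℕ} (hl : l < P.ns) (hj : j < P.nl) (he : P.ended l j = true) :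
    (netOf P.tile).act (9 * (l : ℤ) + -1) (9 * (j : ℤ) + 5) = true ∧
    (netOf P.tile).cup (9 * (l : ℤ) + -1) (9 * (j : ℤ) + 4) = false := by
  have h1 := aux_left hl.le hj he
  refine ⟨?_, ?_⟩
  · exact aux_act ((l : ℤ) - 1) (j : ℤ) 8 5 (by ring) rfl (by omega) (by omega) (by omega)
      (by omega) (aux_m85 h1)
  · exact aux_cup ((l : ℤ) - 1) (j : ℤ) 8 4 (by ring) rfl (by omega) (by omega) (by omega)
      (by omega) (aux_c8 h1.2).2.2.2.2

/-- The tile on the left of a tile with a lane that goes on (`ended l j`): it is a `T`, `X` or `A` tile (`l ≥ 1`). The tile on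
the right of a tile of type `T`, `X`, `A` is an `X` or `A` tile or a source tile (`27`, `28`, `5`, `6`, `7, …, 18`), its column
`0` contains exactly the room in row `5`. The row `8` of the tiles `0, …, 4` contains at most the room in column `3`; there
are no cups in the row `8` and the column `8` of the tiles `0, …, 4`. -/
theorem at_V (hP : P.OK) {l j : ℕ} (hl : l < P.ns) (hj : j < P.nl) (h : P.tt l j = 1) : bV.At P.tile l j := by
  refine ⟨fun da db => cross_tiles hl hj 1 h da db, ?_, ?_⟩
  · simp only [bV, List.not_mem_nil, false_imp_iff, implies_true]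
  · simp only [bV, List.forall_mem_cons, List.not_mem_nil, false_imp_iff, implies_true, and_true]
    exact cross_c hl 2 (by omega) (by omega)

theorem at_T (hP : P.OK) {l j : ℕ} (hl : l < P.ns) (hj : j < P.nl) (h : P.tt l j = 2) : bT.At P.tile l j := by
  have he : P.ended (l + 1) j = true := by
    rw [ended_succ P hl, (tt_eq_two.1 h).2, Bool.or_true]
  refine ⟨fun da db => cross_tiles hl hj 2 h da db, ?_, ?_⟩
  · simp only [bT, List.forall_mem_cons, List.not_mem_nil, false_imp_iff, implies_true, and_true]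
    exact (cross_r hl hj he).2.2
  · simp only [bT, List.forall_mem_cons, List.not_mem_nil, false_imp_iff, implies_true, and_true]
    exact cross_c hl 2 (by omega) (by omega)

theorem at_X (hP : P.OK) {l j : ℕ} (hl : l < P.ns) (hj : j < P.nl) (h : P.tt l j = 3) : bX.At P.tile l j := by
  have he0 : P.ended l j = true := (tt_eq_three.1 h).1
  have he : P.ended (l + 1) j = true := by
    rw [ended_succ P hl, he0, Bool.true_or]
  have hl1 := cross_l hl hj he0
  have hr1 := cross_r hl hj he
  refine ⟨fun da db => cross_tiles hl hj 3 h da db, ?_, ?_⟩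
  · simp only [bX, List.forall_mem_cons, List.not_mem_nil, false_imp_iff, implies_true, and_true]
    exact ⟨hl1.1, cross_m hl 4 (by omega) (by omega), cross_m hl 5 (by omega) (by omega),
      cross_m hl 6 (by omega) (by omega), hr1⟩
  · simp only [bX, List.forall_mem_cons, List.not_mem_nil, false_imp_iff, implies_true, and_true]
    exact ⟨hl1.2, cross_c hl 2 (by omega) (by omega), cross_c hl 3 (by omega) (by omega),
      cross_c hl 4 (by omega) (by omega), cross_c hl 5 (by omega) (by omega)⟩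

theorem at_A (hP : P.OK) {l j : ℕ} (hl : l < P.ns) (hj : j < P.nl) (h : P.tt l j = 4) : bA.At P.tile l j := by
  have he0 : P.ended l j = true := (tt_eq_four.1 h).1
  have he : P.ended (l + 1) j = true := by
    rw [ended_succ P hl, he0, Bool.true_or]
  have hl1 := cross_l hl hj he0
  have hr1 := cross_r hl hj he
  refine ⟨fun da db => cross_tiles hl hj 4 h da db, ?_, ?_⟩
  · simp only [bA, List.forall_mem_cons, List.not_mem_nil, false_imp_iff, implies_true, and_true]
    exact ⟨hl1.1, cross_m hl 4 (by omega) (by omega), cross_m hl 5 (by omega) (by omega),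
      cross_m hl 6 (by omega) (by omega), hr1⟩
  · simp only [bA, List.forall_mem_cons, List.not_mem_nil, false_imp_iff, implies_true, and_true]
    exact ⟨hl1.2, cross_c hl 2 (by omega) (by omega), cross_c hl 3 (by omega) (by omega),
      cross_c hl 4 (by omega) (by omega), cross_c hl 5 (by omega) (by omega)⟩

end Pool.Agent.Lib.MP_6ff0c5_lc.N
end

section

/-!
MP_6ff0c5_lc, part B: the source blocks are at their places, with the right surroundings.
-/

set_option autoImplicit false

namespace Pool.Agent.Lib.MP_6ff0c5_lc.N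

variable {P : Lay}

private theorem src_m (hP : P.OK) {j : ℕ} {Y : ℤ} (hj : j < P.nl) (hY : Y = 9 * (j : ℤ) + 5) :
    (netOf P.tile).act (9 * (P.ns : ℤ) + -1) Y = true :=
  aux_act ((P.ns : ℤ) - 1) (j : ℤ) 8 5 (by ring) hY (by omega) (by omega) (by omega) (by omega)
    (aux_m85 (aux_left le_rfl hj (ended_all hP hj)))

private theorem src_c (hP : P.OK) {j : ℕ} {Y : ℤ} (hj : j < P.nl) (hY : Y = 9 * (j : ℤ) + 4) :
    (netOf P.tile).cup (9 * (P.ns : ℤ) + -1) Y = false :=
  aux_cup ((P.ns : ℤ) - 1) (j : ℤ) 8 4 (by ring) hY (by omega) (by omega) (by omega) (by omega)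
    (aux_c8 (aux_left le_rfl hj (ended_all hP hj)).2).2.2.2.2

private theorem src_zero (i k : ℤ) : tbit masks 0 i k = false := by
  unfold tbit
  have h : masks.getD 0 0 = 0 := rfl
  rw [h, Nat.zero_testBit]

private theorem src_r {Y : ℤ} (hY : 18 ≤ Y) :
    (netOf P.tile).act (9 * (P.ns : ℤ) + 9) Y = false := by
  refine aux_act ((P.ns : ℤ) + 1) (Y / 9) 0 (Y % 9) (by ring) (by omega) (by omega) (by omega)
    (by omega) (by omega) ?_
  rw [tile_right (by omega) (by omega)]
  exact src_zero _ _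

private theorem src_G {g : ℕ} {t : Bool} (h : P.G[g]? = some t) : 2 + 6 * g + 6 ≤ P.nl := by
  have h1 : g < P.G.length := by
    by_contra hge
    rw [List.getElem?_eq_none (by omega)] at h
    exact absurd h (by simp)
  have h2 : P.nl = 2 + 2 * (3 * P.G.length + P.V) := rfl
  omega

private theorem src_tG {g : ℕ} {t : Bool} (h : P.G[g]? = some t) (da db : ℤ) (h1 : 0 ≤ da)
    (h2 : da < 1) (h3 : 0 ≤ db) (h4 : db < 6) :
    P.tile (P.ns + da) (2 + 6 * (g : ℤ) + db) = (if t then 13 else 7) + (6 * da + db).toNat := by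
  have e1 : da = 0 := by omega
  subst e1
  obtain ⟨i, rfl⟩ := Int.eq_ofNat_of_zero_le h3
  rw [add_zero, tile_G h (by omega)]
  congr 1
  omega

/-- The tile on the left of a source (column `ns - 1`) is a `T`, `X` or `A` tile, because `ended ns j = true`: the room
`(8, 5)` of it is active, and it has no cups in the column `8`. On the right there is nothing from row `2` on
(`tile_right`). -/
theorem at_G0 (hP : P.OK) {g : ℕ} (h : P.G[g]? = some false) : bG0.At P.tile P.ns (2 + 6 * g) := by
  have hg := src_G h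
  refine ⟨fun da db h1 h2 h3 h4 => ?_, ?_, ?_⟩
  · exact src_tG h da db h1 h2 h3 h4
  · simp only [bG0, List.forall_mem_cons, List.not_mem_nil, false_imp_iff, implies_true, and_true]
    exact ⟨src_m hP (j := 2 + 6 * g + 0) (by omega) (by push_cast; ring),
      src_m hP (j := 2 + 6 * g + 1) (by omega) (by push_cast; ring),
      src_m hP (j := 2 + 6 * g + 2) (by omega) (by push_cast; ring),
      src_m hP (j := 2 + 6 * g + 3) (by omega) (by push_cast; ring),
      src_m hP (j := 2 + 6 * g + 4) (by omega) (by push_cast; ring),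
      src_m hP (j := 2 + 6 * g + 5) (by omega) (by push_cast; ring),
      src_r (by omega),
      src_r (by omega),
      src_r (by omega),
      src_r (by omega),
      src_r (by omega),
      src_r (by omega),
      src_r (by omega),
      src_r (by omega),
      src_r (by omega),
      src_r (by omega),
      src_r (by omega),
      src_r (by omega),
      src_r (by omega)⟩
  · simp only [bG0, List.forall_mem_cons, List.not_mem_nil, false_imp_iff, implies_true, and_true]
    exact ⟨src_c hP (j := 2 + 6 * g + 0) (by omega) (by push_cast; ring),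
      src_c hP (j := 2 + 6 * g + 1) (by omega) (by push_cast; ring),
      src_c hP (j := 2 + 6 * g + 2) (by omega) (by push_cast; ring),
      src_c hP (j := 2 + 6 * g + 3) (by omega) (by push_cast; ring),
      src_c hP (j := 2 + 6 * g + 4) (by omega) (by push_cast; ring),
      src_c hP (j := 2 + 6 * g + 5) (by omega) (by push_cast; ring)⟩

theorem at_G1 (hP : P.OK) {g : ℕ} (h : P.G[g]? = some true) : bG1.At P.tile P.ns (2 + 6 * g) := by
  have hg := src_G h
  refine ⟨fun da db h1 h2 h3 h4 => ?_, ?_, ?_⟩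
  · exact src_tG h da db h1 h2 h3 h4
  · simp only [bG1, List.forall_mem_cons, List.not_mem_nil, false_imp_iff, implies_true, and_true]
    exact ⟨src_m hP (j := 2 + 6 * g + 0) (by omega) (by push_cast; ring),
      src_m hP (j := 2 + 6 * g + 1) (by omega) (by push_cast; ring),
      src_m hP (j := 2 + 6 * g + 2) (by omega) (by push_cast; ring),
      src_m hP (j := 2 + 6 * g + 3) (by omega) (by push_cast; ring),
      src_m hP (j := 2 + 6 * g + 4) (by omega) (by push_cast; ring),
      src_m hP (j := 2 + 6 * g + 5) (by omega) (by push_cast; ring),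
      src_r (by omega),
      src_r (by omega),
      src_r (by omega),
      src_r (by omega),
      src_r (by omega),
      src_r (by omega),
      src_r (by omega),
      src_r (by omega),
      src_r (by omega),
      src_r (by omega),
      src_r (by omega),
      src_r (by omega),
      src_r (by omega),
      src_r (by omega),
      src_r (by omega),
      src_r (by omega),
      src_r (by omega),
      src_r (by omega),
      src_r (by omega),
      src_r (by omega),
      src_r (by omega),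
      src_r (by omega),
      src_r (by omega),
      src_r (by omega),
      src_r (by omega),
      src_r (by omega)⟩
  · simp only [bG1, List.forall_mem_cons, List.not_mem_nil, false_imp_iff, implies_true, and_true]
    exact ⟨src_c hP (j := 2 + 6 * g + 0) (by omega) (by push_cast; ring),
      src_c hP (j := 2 + 6 * g + 1) (by omega) (by push_cast; ring),
      src_c hP (j := 2 + 6 * g + 2) (by omega) (by push_cast; ring),
      src_c hP (j := 2 + 6 * g + 3) (by omega) (by push_cast; ring),
      src_c hP (j := 2 + 6 * g + 4) (by omega) (by push_cast; ring),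
      src_c hP (j := 2 + 6 * g + 5) (by omega) (by push_cast; ring)⟩

theorem at_S (hP : P.OK) {v : ℕ} (h : v < P.V) : bS.At P.tile P.ns (2 + 6 * P.G.length + 2 * v) := by
  have hnl : P.nl = 2 + 2 * (3 * P.G.length + P.V) := rfl
  refine ⟨fun da db h1 h2 h3 h4 => ?_, ?_, ?_⟩
  · have e1 : da = 0 := by
      have : bS.w = 1 := rfl
      omega
    have e2 : db < 2 := h4
    subst e1
    obtain ⟨i, rfl⟩ := Int.eq_ofNat_of_zero_le h3
    rw [add_zero, tile_S h (by omega)]
    show 5 + i = 5 + (2 * 0 + (i : ℤ)).toNat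
    omega
  · simp only [bS, List.forall_mem_cons, List.not_mem_nil, false_imp_iff, implies_true, and_true]
    exact ⟨src_m hP (j := 2 + 6 * P.G.length + 2 * v) (by omega) (by push_cast; ring),
      src_m hP (j := 2 + 6 * P.G.length + 2 * v + 1) (by omega) (by push_cast; ring)⟩
  · simp only [bS, List.forall_mem_cons, List.not_mem_nil, false_imp_iff, implies_true, and_true]
    exact ⟨src_c hP (j := 2 + 6 * P.G.length + 2 * v) (by omega) (by push_cast; ring),
      src_c hP (j := 2 + 6 * P.G.length + 2 * v + 1) (by omega) (by push_cast; ring)⟩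

private theorem src_below (hP : P.OK) :
    P.tile ((P.ns : ℤ) + 2) (-1) = 22 ∨ P.tile ((P.ns : ℤ) + 2) (-1) = 26 := by
  have hK := hP.hK
  rcases Nat.lt_or_ge 1 P.K with h | h
  · left
    have h1 := tile_E2 (P := P) (k := 1) le_rfl h (i := 1) (by norm_num)
    have e : (-(2 * ((1 : ℕ) : ℤ)) + ((1 : ℕ) : ℤ)) = -1 := by norm_num
    rw [e] at h1
    exact h1
  · right
    have h1 := tile_F2 (P := P) hK (i := 1) (by norm_num)
    have hK1 : P.K = 1 := by omega
    rw [hK1] at h1
    have e : (-(2 * ((1 : ℕ) : ℤ)) + ((1 : ℕ) : ℤ)) = -1 := by norm_num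
    rw [e] at h1
    exact h1

/-- The room `(19, -1)` is in the tile `(ns + 2, -1)`, which is `22` or `26`. -/
theorem at_U (hP : P.OK) : bU.At P.tile P.ns 0 := by
  have hnl : P.nl = 2 + 2 * (3 * P.G.length + P.V) := rfl
  have hb := src_below hP
  refine ⟨fun da db h1 h2 h3 h4 => ?_, ?_, ?_⟩
  · have h2' : da < 3 := h2
    have h4' : db < 2 := h4
    obtain ⟨i, rfl⟩ := Int.eq_ofNat_of_zero_le h3
    have hi : i < 2 := by omega
    rw [zero_add]
    show P.tile _ _ = 27 + (2 * da + (i : ℤ)).toNat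
    obtain rfl | rfl | rfl : da = 0 ∨ da = 1 ∨ da = 2 := by omega
    · rw [add_zero, tile_U0 hi]
      omega
    · rw [tile_U1 hi]
      omega
    · rw [tile_U2 hi]
      omega
  · simp only [bU, List.forall_mem_cons, List.not_mem_nil, false_imp_iff, implies_true, and_true]
    refine ⟨src_m hP (j := 0) (by omega) (by norm_num),
      src_m hP (j := 1) (by omega) (by norm_num), ?_⟩
    refine aux_act ((P.ns : ℤ) + 2) (-1) 1 8 (by ring) (by ring) (by omega) (by omega) (by omega)
      (by omega) ?_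
    rcases hb with hb | hb <;> rw [hb] <;> decide +kernel
  · simp only [bU, List.forall_mem_cons, List.not_mem_nil, false_imp_iff, implies_true, and_true]
    refine ⟨src_c hP (j := 0) (by omega) (by norm_num),
      src_c hP (j := 1) (by omega) (by norm_num), ?_⟩
    refine aux_cup ((P.ns : ℤ) + 2) (-1) 0 8 (by ring) (by ring) (by omega) (by omega) (by omega)
      (by omega) ?_
    rcases hb with hb | hb <;> rw [hb] <;> decide +kernel

end Pool.Agent.Lib.MP_6ff0c5_lc.N
end

section

/-!
MP_6ff0c5_lc, part B: every active room is in one of the blocks.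
-/

set_option autoImplicit false

namespace Pool.Agent.Lib.MP_6ff0c5_lc.N

variable {P : Lay}

/-- Every active room is in one of the blocks. (If `P.tile (x / 9) (y / 9) = 0` then the room is not active, because the first
mask is `0`; the other tile positions are those of the blocks.) -/
theorem cover (hP : P.OK) {x y : ℤ} (h : (netOf P.tile).act x y = true) :
    ∃ b L J, P.Has b L J ∧ b.inside (x - 9 * L) (y - 9 * J) = true := by
  have hne : P.tile (x / 9) (y / 9) ≠ 0 := by
    intro h0
    have h1 : tbit masks (P.tile (x / 9) (y / 9)) (x % 9) (y % 9) = true := h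
    rw [h0] at h1
    simp [tbit, masks] at h1
  obtain ⟨L, hL⟩ : ∃ L, L = x / 9 := ⟨_, rfl⟩
  obtain ⟨J, hJ⟩ : ∃ J, J = y / 9 := ⟨_, rfl⟩
  rw [← hL, ← hJ] at hne
  have hx1 : 9 * L ≤ x := by omega
  have hx2 : x < 9 * L + 9 := by omega
  have hy1 : 9 * J ≤ y := by omega
  have hy2 : y < 9 * J + 9 := by omega
  clear hL hJ h
  have hL0 : 0 ≤ L := by
    by_contra h; exact hne (tile_left (by omega))
  have hL2 : L ≤ P.ns + 2 := by
    by_contra h; exact hne (tile_far (by omega))
  have hJ1 : J < P.nl := by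
    by_contra h; exact hne (tile_top (by omega))
  have hJ0 : -(2 * P.K : ℤ) ≤ J := by
    by_contra h; exact hne (tile_below (by omega))
  rcases lt_or_ge L (P.ns : ℤ) with h1 | h1
  · -- crossbar
    have hJp : 0 ≤ J := by
      by_contra h; exact hne (tile_cross_out h1 (Or.inl (by omega)))
    obtain ⟨l, rfl⟩ := Int.eq_ofNat_of_zero_le hL0
    obtain ⟨j, rfl⟩ := Int.eq_ofNat_of_zero_le hJp
    have hl : l < P.ns := by exact_mod_cast h1
    have hj : j < P.nl := by exact_mod_cast hJ1
    rcases tt_cases P l j with h2 | h2 | h2 | h2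
    · exact ⟨_, _, _, Lay.Has.V l j hl hj h2, Blk.inside_iff.2 (by simp only [bV]; omega)⟩
    · exact ⟨_, _, _, Lay.Has.T l j hl hj h2, Blk.inside_iff.2 (by simp only [bT]; omega)⟩
    · exact ⟨_, _, _, Lay.Has.X l j hl hj h2, Blk.inside_iff.2 (by simp only [bX]; omega)⟩
    · exact ⟨_, _, _, Lay.Has.A l j hl hj h2, Blk.inside_iff.2 (by simp only [bA]; omega)⟩
  · rcases h1.lt_or_eq with h2 | h2
    · -- the columns `ns + 1`, `ns + 2`
      have hJ2 : J < 2 := by
        by_contra h; exact hne (tile_right h2 (by omega))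
      rcases lt_or_ge J 0 with h3 | h3
      · obtain ⟨k, hk⟩ : ∃ k : ℕ, (k : ℤ) = (1 - J) / 2 :=
          ⟨((1 - J) / 2).toNat, Int.toNat_of_nonneg (by omega)⟩
        have hk1 : 1 ≤ k := by omega
        rcases lt_or_ge k P.K with h4 | h4
        · exact ⟨_, _, _, Lay.Has.E k hk1 h4, Blk.inside_iff.2 (by simp only [bE]; omega)⟩
        · have hkK : k = P.K := by omega
          exact ⟨_, _, _, Lay.Has.F, Blk.inside_iff.2 (by simp only [bF]; omega)⟩
      · exact ⟨_, _, _, Lay.Has.U, Blk.inside_iff.2 (by simp only [bU]; omega)⟩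
    · -- the column of the sources
      have hJp : 0 ≤ J := by
        by_contra h
        rw [← h2] at hne
        exact hne (tile_src_neg (by omega))
      rcases lt_or_ge J 2 with h3 | h3
      · exact ⟨_, _, _, Lay.Has.U, Blk.inside_iff.2 (by simp only [bU]; omega)⟩
      · have hnl : (P.nl : ℤ) = 2 + 6 * P.G.length + 2 * P.V := by
          simp only [Lay.nl, Lay.nvar]; push_cast; ring
        rcases lt_or_ge (J - 2) (6 * P.G.length) with h4 | h4
        · obtain ⟨g, hg⟩ : ∃ g : ℕ, (g : ℤ) = (J - 2) / 6 :=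
            ⟨((J - 2) / 6).toNat, Int.toNat_of_nonneg (by omega)⟩
          have hgl : g < P.G.length := by omega
          have hget : P.G[g]? = some P.G[g] := List.getElem?_eq_getElem hgl
          cases ht : P.G[g] with
          | false =>
            rw [ht] at hget
            exact ⟨_, _, _, Lay.Has.G0 g hget, Blk.inside_iff.2 (by simp only [bG0]; omega)⟩
          | true =>
            rw [ht] at hget
            exact ⟨_, _, _, Lay.Has.G1 g hget, Blk.inside_iff.2 (by simp only [bG1]; omega)⟩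
        · obtain ⟨v, hv⟩ : ∃ v : ℕ, (v : ℤ) = (J - 2 - 6 * P.G.length) / 2 :=
            ⟨((J - 2 - 6 * P.G.length) / 2).toNat, Int.toNat_of_nonneg (by omega)⟩
          have hvV : v < P.V := by omega
          exact ⟨_, _, _, Lay.Has.S v hvV, Blk.inside_iff.2 (by simp only [bS]; omega)⟩

end Pool.Agent.Lib.MP_6ff0c5_lc.N
end
end
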