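import Pool.Agent.Lib.MP_6ff0c5_lc.Net.Def

/-!
MP_6ff0c5_lc, part B: networks made of `9 × 9` tiles; blocks of tiles with partial knowledge of their surroundings.
-/

set_option autoImplicit false

namespace Pool.Agent.Lib.MP_6ff0c5_lc.N

/-- The active rooms of the tiles (bit `9 * k + i` is the room in column `i`, row `k`). Tiles: 0 empty, 1 = V, 2 = T, 3 = X,
4 = A, 5-6 = S, 7-12 = G0, 13-18 = G1, 19-22 = E, 23-26 = F, 27-32 = U. -/
def masks : List ℕ := [
  0, 37852863236465884139528, 37852880687914440200200, 38886900824403575652472, 38887045221617457774712,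
  37852863200730680393728, 528316412989448, 378158614326781579100160, 1211291628039730201002208,
  529274341813279269191936, 605645814002272914456736, 227042886892012575981696, 2218818768224288,
  378158614326781579100160, 1211291628039730201002208, 378158614361450622353664, 1211291628039730201002208,
  227042886909621975515392, 2218818768224288, 2415506626208544696044543, 0, 9463197724211509460995,
  9463215809116471034882, 6928799032575787008, 0, 9463197724211509460992, 9463215809116471034882,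
  37852863200730680393728, 9079785165191909384, 0, 9205357638345293824, 9463215809116471034882, 54113701980537858]

/-- The cup rooms of the tiles. -/
def cmasks : List ℕ := [
  0, 0, 0, 33554496, 33554496, 140737488355328, 0, 75927159176833680801792, 128, 302305602449397298233344, 0,
  74147545740004556800, 0, 75927159176833680801792, 128, 75927159176833680801792, 128, 74147545740004556800, 0,
  2262805675769856, 0, 18014398509481984, 0, 2262805675769856, 0, 18014398509481984, 0, 140737488355328, 0, 0, 0, 0, 0]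

def tbit (l : List ℕ) (id : ℕ) (i k : ℤ) : Bool := (l.getD id 0).testBit (9 * k + i).toNat

/-- The network given by a tile function. -/
def netOf (T : ℤ → ℤ → ℕ) : Net where
  act x y := tbit masks (T (x / 9) (y / 9)) (x % 9) (y % 9)
  cup x y := tbit cmasks (T (x / 9) (y / 9)) (x % 9) (y % 9)

/-- A block of `w × h` tiles with the numbers `base + h * da + db`, with some knowledge about its surroundings. -/
structure Blk where
  w : ℤ
  h : ℤ
  base : ℕ
  exA : List (ℤ × ℤ × Bool)
  exC : List (ℤ × ℤ × Bool)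
  ext : List Con

def Blk.inside (b : Blk) (x y : ℤ) : Bool := decide (0 ≤ x) && decide (x < 9 * b.w) && decide (0 ≤ y) && decide (y < 9 * b.h)

def Blk.tid (b : Blk) (x y : ℤ) : ℕ := b.base + (b.h * (x / 9) + y / 9).toNat

def look3 : List (ℤ × ℤ × Bool) → ℤ → ℤ → Option Bool
  | [], _, _ => none
  | e :: l, x, y => if e.1 = x ∧ e.2.1 = y then some e.2.2 else look3 l x y

/-- what is known about the active rooms -/
def Blk.ka (b : Blk) (x y : ℤ) : Option Bool :=
  if b.inside x y then some (tbit masks (b.tid x y) (x % 9) (y % 9)) else look3 b.exA x y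

/-- what is known about the cups -/
def Blk.kc (b : Blk) (x y : ℤ) : Option Bool :=
  if b.inside x y then some (tbit cmasks (b.tid x y) (x % 9) (y % 9)) else look3 b.exC x y

/-- The block `b` is at the tile position `(L, J)` of the network, and the knowledge about its surroundings is correct. -/
structure Blk.At (b : Blk) (T : ℤ → ℤ → ℕ) (L J : ℤ) : Prop where
  tiles : ∀ da db : ℤ, 0 ≤ da → da < b.w → 0 ≤ db → db < b.h → T (L + da) (J + db) = b.base + (b.h * da + db).toNat
  exA : ∀ e ∈ b.exA, (netOf T).act (9 * L + e.1) (9 * J + e.2.1) = e.2.2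
  exC : ∀ e ∈ b.exC, (netOf T).cup (9 * L + e.1) (9 * J + e.2.1) = e.2.2

theorem look3_spec {l : List (ℤ × ℤ × Bool)} {x y : ℤ} {v : Bool} (h : look3 l x y = some v) : (x, y, v) ∈ l := by
  induction l with
  | nil => exact absurd h (by simp [look3])
  | cons e l ih =>
    unfold look3 at h
    split_ifs at h with h1
    · obtain ⟨rfl, rfl⟩ := h1
      have : e.2.2 = v := Option.some.inj h
      subst this
      exact List.mem_cons_self
    · exact List.mem_cons_of_mem _ (ih h)

theorem Blk.inside_iff {b : Blk} {x y : ℤ} : b.inside x y = true ↔ (0 ≤ x ∧ x < 9 * b.w) ∧ 0 ≤ y ∧ y < 9 * b.h := by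
  unfold Blk.inside
  simp only [Bool.and_eq_true, decide_eq_true_eq]
  tauto

theorem Blk.At.tid {b : Blk} {T : ℤ → ℤ → ℕ} {L J : ℤ} (h : b.At T L J) {x y : ℤ} (hx : b.inside x y = true) :
    T ((9 * L + x) / 9) ((9 * J + y) / 9) = b.tid x y ∧ (9 * L + x) % 9 = x % 9 ∧ (9 * J + y) % 9 = y % 9 := by
  obtain ⟨⟨h1, h2⟩, h3, h4⟩ := Blk.inside_iff.1 hx
  have e1 : (9 * L + x) / 9 = L + x / 9 := by omega
  have e2 : (9 * J + y) / 9 = J + y / 9 := by omega
  refine ⟨?_, by omega, by omega⟩
  rw [e1, e2]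
  exact h.tiles _ _ (by omega) (by omega) (by omega) (by omega)

theorem Blk.At.ka {b : Blk} {T : ℤ → ℤ → ℕ} {L J : ℤ} (h : b.At T L J) {x y : ℤ} {v : Bool} (hv : b.ka x y = some v) :
    (netOf T).act (9 * L + x) (9 * J + y) = v := by
  unfold Blk.ka at hv
  split_ifs at hv with hx
  · obtain ⟨h1, h2, h3⟩ := h.tid hx
    show tbit masks _ _ _ = v
    rw [h1, h2, h3]
    exact Option.some.inj hv
  · exact h.exA _ (look3_spec hv)

theorem Blk.At.kc {b : Blk} {T : ℤ → ℤ → ℕ} {L J : ℤ} (h : b.At T L J) {x y : ℤ} {v : Bool} (hv : b.kc x y = some v) :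
    (netOf T).cup (9 * L + x) (9 * J + y) = v := by
  unfold Blk.kc at hv
  split_ifs at hv with hx
  · obtain ⟨h1, h2, h3⟩ := h.tid hx
    show tbit cmasks _ _ _ = v
    rw [h1, h2, h3]
    exact Option.some.inj hv
  · exact h.exC _ (look3_spec hv)

/-! ### Constraints with partial knowledge -/

def and3 : Option Bool → Option Bool → Option Bool
  | some false, _ => some false
  | _, some false => some false
  | some true, some true => some true
  | _, _ => none

def not3 : Option Bool → Option Bool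
  | some v => some (!v)
  | none => none

/-- the truth value `v` is compatible with the partial knowledge `o` -/
def Ok (o : Option Bool) (v : Bool) : Prop := ∀ w, o = some w → v = w

theorem Ok.and {o o' : Option Bool} {v v' : Bool} (h : Ok o v) (h' : Ok o' v') : Ok (and3 o o') (v && v') := by
  intro w hw
  have h1 := h true
  have h2 := h false
  have h3 := h' true
  have h4 := h' false
  clear h h'
  revert o o' v v' w
  decide

theorem Ok.not {o : Option Bool} {v : Bool} (h : Ok o v) : Ok (not3 o) (!v) := by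
  intro w hw
  rcases o with _ | o
  · simp [not3] at hw
  · have := h _ rfl
    subst this
    simp only [not3, Option.some.injEq] at hw
    exact hw

/-- presence of a constraint, with partial knowledge -/
def Con.chk (ka kc : ℤ → ℤ → Option Bool) : Con → Option Bool
  | .h1 x y => and3 (ka x y) (ka (x + 1) y)
  | .h3 x y => and3 (ka x y) (ka x (y - 1))
  | .cp x y => and3 (and3 (and3 (ka x y) (ka (x + 1) (y + 1))) (not3 (ka (x + 1) y))) (kc x y)
  | .p1 x y => and3 (and3 (ka x y) (not3 (ka (x + 1) y))) (not3 (and3 (kc x y) (ka (x + 1) (y + 1))))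
  | .p2 x y => and3 (and3 (ka x y) (not3 (ka (x - 1) y))) (not3 (ka x (y + 1)))
  | .p3 x y => and3 (and3 (ka x y) (not3 (ka x (y - 1)))) (not3 (and3 (kc (x - 1) (y - 1)) (ka (x - 1) (y - 1))))

/-- translation -/
def Con.shift (X Y : ℤ) : Con → Con
  | .h1 x y => .h1 (X + x) (Y + y)
  | .h3 x y => .h3 (X + x) (Y + y)
  | .cp x y => .cp (X + x) (Y + y)
  | .p1 x y => .p1 (X + x) (Y + y)
  | .p2 x y => .p2 (X + x) (Y + y)
  | .p3 x y => .p3 (X + x) (Y + y)

theorem Con.chk_spec {N : Net} {X Y : ℤ} {ka kc : ℤ → ℤ → Option Bool}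
    (ha : ∀ x y v, ka x y = some v → N.act (X + x) (Y + y) = v)
    (hc : ∀ x y v, kc x y = some v → N.cup (X + x) (Y + y) = v) (c : Con) {v : Bool} (h : c.chk ka kc = some v) :
    (c.shift X Y).In N = v := by
  have a1 : ∀ x y, Ok (ka x y) (N.act (X + x) (Y + y)) := ha
  have c1 : ∀ x y, Ok (kc x y) (N.cup (X + x) (Y + y)) := hc
  have e1 : ∀ x : ℤ, X + x + 1 = X + (x + 1) := fun x => by ring
  have e2 : ∀ x : ℤ, X + x - 1 = X + (x - 1) := fun x => by ring
  have e3 : ∀ x : ℤ, Y + x + 1 = Y + (x + 1) := fun x => by ring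
  have e4 : ∀ x : ℤ, Y + x - 1 = Y + (x - 1) := fun x => by ring
  rcases c with ⟨x, y⟩ | ⟨x, y⟩ | ⟨x, y⟩ | ⟨x, y⟩ | ⟨x, y⟩ | ⟨x, y⟩ <;>
    simp only [Con.shift, Con.In, e1, e2, e3, e4]
  · exact ((a1 _ _).and (a1 _ _)) v h
  · exact ((a1 _ _).and (a1 _ _)) v h
  · exact ((((a1 _ _).and (a1 _ _)).and (a1 _ _).not).and (c1 _ _)) v h
  · exact (((a1 _ _).and (a1 _ _).not).and ((c1 _ _).and (a1 _ _)).not) v h
  · exact (((a1 _ _).and (a1 _ _).not).and (a1 _ _).not) v h
  · exact (((a1 _ _).and (a1 _ _).not).and ((c1 _ _).and (a1 _ _)).not) v h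

theorem Blk.At.chk {b : Blk} {T : ℤ → ℤ → ℕ} {L J : ℤ} (h : b.At T L J) (c : Con) {v : Bool}
    (hv : c.chk b.ka b.kc = some v) : (c.shift (9 * L) (9 * J)).In (netOf T) = v :=
  c.chk_spec (fun _ _ _ h' => h.ka h') (fun _ _ _ h' => h.kc h') hv

/-- the local state -/
def loc {R : Type*} (a : ℤ → ℤ → R × R) (L J : ℤ) : ℤ → ℤ → R × R := fun x y => a (9 * L + x) (9 * J + y)

theorem slack_shift {R : Type*} [CommRing R] (a : ℤ → ℤ → R × R) (L J : ℤ) (c : Con) :
    (c.shift (9 * L) (9 * J)).slack a = c.slack (loc a L J) := by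
  have e1 : ∀ x : ℤ, 9 * L + x + 1 = 9 * L + (x + 1) := fun x => by ring
  have e3 : ∀ x : ℤ, 9 * J + x + 1 = 9 * J + (x + 1) := fun x => by ring
  have e4 : ∀ x : ℤ, 9 * J + x - 1 = 9 * J + (x - 1) := fun x => by ring
  rcases c with ⟨x, y⟩ | ⟨x, y⟩ | ⟨x, y⟩ | ⟨x, y⟩ | ⟨x, y⟩ | ⟨x, y⟩ <;>
    simp only [Con.shift, Con.slack, loc, e1, e3, e4]

theorem Q_shift {R : Type*} [CommRing R] (a : ℤ → ℤ → R × R) (L J : ℤ) (c : Con) :
    (c.shift (9 * L) (9 * J)).Q a = c.Q (loc a L J) := by
  have e1 : ∀ x : ℤ, 9 * L + x + 1 = 9 * L + (x + 1) := fun x => by ring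
  have e3 : ∀ x : ℤ, 9 * J + x + 1 = 9 * J + (x + 1) := fun x => by ring
  have e4 : ∀ x : ℤ, 9 * J + x - 1 = 9 * J + (x - 1) := fun x => by ring
  rcases c with ⟨x, y⟩ | ⟨x, y⟩ | ⟨x, y⟩ | ⟨x, y⟩ | ⟨x, y⟩ | ⟨x, y⟩ <;>
    simp only [Con.shift, Con.Q, loc, e1, e3, e4]

theorem holds_shift (a : ℤ → ℤ → ℝ × ℝ) (L J : ℤ) (c : Con) :
    (c.shift (9 * L) (9 * J)).Holds a ↔ c.Holds (loc a L J) := by
  unfold Con.Holds
  rw [slack_shift, Q_shift]

/-- the constraints anchored at a room -/
def anchored (x y : ℤ) : List Con := [.h1 x y, .h3 x y, .cp x y, .p1 x y, .p2 x y, .p3 x y]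

/-- the rooms of a block (row by row) -/
def Blk.rooms (b : Blk) : List (ℤ × ℤ) :=
  (List.range (9 * b.h).toNat).flatMap fun (y : ℕ) => ((List.range (9 * b.w).toNat).map fun (x : ℕ) => ((x : ℤ), (y : ℤ))).filter
    fun r => tbit masks (b.tid r.1 r.2) (r.1 % 9) (r.2 % 9)

/-- the internal constraints of a block -/
def Blk.cons (b : Blk) : List Con :=
  b.rooms.flatMap fun r => (anchored r.1 r.2).filter fun c => c.chk b.ka b.kc == some true && !decide (c ∈ b.ext)

/-- nothing is unknown, except the external constraints -/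
def Blk.known (b : Blk) : Bool :=
  b.rooms.all fun r => (anchored r.1 r.2).all fun c => c.chk b.ka b.kc != none || decide (c ∈ b.ext)

end Pool.Agent.Lib.MP_6ff0c5_lc.N
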