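import Pool.Agent.Lib.MP_6ff0c5_lc.Net.Steps

section

/-!
MP_6ff0c5_lc, part B: integer states of the blocks (generated data, checked here).

Names: `y?`, `s?`: the states of a tile with lane value, string value 1 and slacks 0; `d?`: inputs 0 and slacks 1;
`z?`: circulation 1 and slacks 0; `w?`: second order states; `f?`: frozen states of the chain.
-/

set_option autoImplicit false

namespace Pool.Agent.Lib.MP_6ff0c5_lc.N

def look4 : List (ℤ × ℤ × ℤ × ℤ) → ℤ → ℤ → ℤ × ℤ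
  | [], _, _ => (0, 0)
  | e :: l, x, y => if e.1 = x ∧ e.2.1 = y then e.2.2 else look4 l x y

/-- the polar form of the second order term -/
def Con.pol {R : Type*} [CommRing R] (a b : ℤ → ℤ → R × R) (c : Con) : R :=
  c.Q (fun x y => a x y + b x y) - c.Q a - c.Q b


def tsVt : List (ℤ × ℤ × ℤ × ℤ) :=
  [(3, 0, 0, (-1)), (3, 1, 0, (-1)), (3, 2, 0, (-1)), (3, 3, 0, (-1)), (3, 4, 0, (-1)), (3, 5, 0, (-1)),
   (3, 6, 0, (-1)), (3, 7, 0, (-1)), (3, 8, 0, (-1))]

def tsV : ℤ → ℤ → ℤ × ℤ := look4 tsVt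

def tdVt : List (ℤ × ℤ × ℤ × ℤ) :=
  [(3, 0, 1, (-1)), (3, 1, 1, (-3)), (3, 2, 1, (-5)), (3, 3, 1, (-7)), (3, 4, 1, (-9)), (3, 5, 1, (-11)),
   (3, 6, 1, (-13)), (3, 7, 1, (-15)), (3, 8, 1, (-17))]

def tdV : ℤ → ℤ → ℤ × ℤ := look4 tdVt

def tyTt : List (ℤ × ℤ × ℤ × ℤ) :=
  [(3, 5, 1, (-1)), (4, 5, 1, (-1)), (5, 5, 1, (-1)), (6, 5, 1, (-1)), (7, 5, 1, (-1)), (8, 5, 1, (-1)),
   (3, 6, 0, (-1)), (3, 7, 0, (-1)), (3, 8, 0, (-1))]

def tyT : ℤ → ℤ → ℤ × ℤ := look4 tyTt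

def tsTt : List (ℤ × ℤ × ℤ × ℤ) :=
  [(3, 0, 0, (-1)), (3, 1, 0, (-1)), (3, 2, 0, (-1)), (3, 3, 0, (-1)), (3, 4, 0, (-1)), (3, 5, 0, (-1)),
   (3, 6, 0, (-1)), (3, 7, 0, (-1)), (3, 8, 0, (-1))]

def tsT : ℤ → ℤ → ℤ × ℤ := look4 tsTt

def tdTt : List (ℤ × ℤ × ℤ × ℤ) :=
  [(3, 0, 1, (-1)), (3, 1, 1, (-3)), (3, 2, 1, (-5)), (3, 3, 1, (-7)), (3, 4, 1, (-9)), (3, 5, 10, (-20)),
   (4, 5, 8, (-9)), (5, 5, 6, (-7)), (6, 5, 4, (-5)), (7, 5, 2, (-3)), (8, 5, 0, (-1)), (3, 6, 1, (-22)),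
   (3, 7, 1, (-24)), (3, 8, 1, (-26))]

def tdT : ℤ → ℤ → ℤ × ℤ := look4 tdTt

def tyXt : List (ℤ × ℤ × ℤ × ℤ) :=
  [(1, 2, 1, (-1)), (2, 2, 1, (-1)), (3, 2, 1, (-1)), (4, 2, 1, (-1)), (5, 2, 1, (-1)), (6, 2, 1, (-1)),
   (7, 2, 1, (-1)), (1, 3, 0, (-1)), (6, 3, 0, (-1)), (8, 3, 0, 1), (1, 4, 0, (-1)), (6, 4, (-1), 0),
   (7, 4, (-1), 1), (8, 4, 0, 1), (0, 5, 1, (-1)), (1, 5, 0, (-1)), (8, 5, 1, 0)]

def tyX : ℤ → ℤ → ℤ × ℤ := look4 tyXt

def tsXt : List (ℤ × ℤ × ℤ × ℤ) :=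
  [(3, 0, (-1), 0), (4, 0, (-1), 1), (5, 0, (-1), 1), (6, 0, (-1), 1), (5, 1, 0, 1), (7, 1, 0, (-1)), (5, 2, 1, 0),
   (6, 2, 1, (-1)), (7, 2, 0, (-1)), (6, 3, 0, (-1)), (6, 4, 0, (-1)), (6, 5, 0, (-1)), (6, 6, 0, (-1)),
   (3, 7, 1, (-1)), (4, 7, 1, (-1)), (5, 7, 1, (-1)), (6, 7, 0, (-1)), (3, 8, 0, (-1))]

def tsX : ℤ → ℤ → ℤ × ℤ := look4 tsXt

def tdXt : List (ℤ × ℤ × ℤ × ℤ) :=
  [(3, 0, (-1), 1), (4, 0, (-3), 2), (5, 0, (-5), 4), (6, 0, (-7), 6), (5, 1, 1, 2), (7, 1, 1, (-9)),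
   (1, 2, 25, (-26)), (2, 2, 23, (-24)), (3, 2, 21, (-22)), (4, 2, 19, (-20)), (5, 2, 19, (-18)), (6, 2, 17, (-18)),
   (7, 2, 6, (-16)), (1, 3, 1, (-28)), (6, 3, 1, (-20)), (8, 3, 1, 4), (1, 4, 1, (-30)), (6, 4, 1, (-22)),
   (7, 4, (-1), 0), (8, 4, 1, 2), (0, 5, 33, (-34)), (1, 5, 1, (-32)), (6, 5, 1, (-24)), (8, 5, 0, 1),
   (6, 6, 1, (-26)), (3, 7, 33, (-34)), (4, 7, 31, (-32)), (5, 7, 29, (-30)), (6, 7, 1, (-28)), (3, 8, 1, (-36))]

def tdX : ℤ → ℤ → ℤ × ℤ := look4 tdXt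

def tyAt : List (ℤ × ℤ × ℤ × ℤ) :=
  [(1, 2, 1, (-1)), (2, 2, 1, (-1)), (3, 2, 1, (-1)), (4, 2, 1, (-1)), (5, 2, 1, (-1)), (6, 2, 1, (-1)),
   (7, 2, 1, (-1)), (1, 3, 0, (-1)), (3, 3, 0, (-1)), (6, 3, 0, (-1)), (8, 3, 0, 1), (1, 4, 0, (-1)),
   (3, 4, 0, (-1)), (6, 4, (-1), 0), (7, 4, (-1), 1), (8, 4, 0, 1), (0, 5, 1, (-1)), (1, 5, 0, (-1)),
   (3, 5, 0, (-1)), (8, 5, 1, 0), (3, 6, 0, (-1)), (3, 7, 0, (-1)), (3, 8, 0, (-1))]

def tyA : ℤ → ℤ → ℤ × ℤ := look4 tyAt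

def tsAt : List (ℤ × ℤ × ℤ × ℤ) :=
  [(3, 0, (-1), 0), (4, 0, (-1), 1), (5, 0, (-1), 1), (6, 0, (-1), 1), (5, 1, 0, 1), (7, 1, 0, (-1)), (5, 2, 1, 0),
   (6, 2, 1, (-1)), (7, 2, 0, (-1)), (6, 3, 0, (-1)), (6, 4, 0, (-1)), (6, 5, 0, (-1)), (6, 6, 0, (-1)),
   (3, 7, 1, (-1)), (4, 7, 1, (-1)), (5, 7, 1, (-1)), (6, 7, 0, (-1)), (3, 8, 0, (-1))]

def tsA : ℤ → ℤ → ℤ × ℤ := look4 tsAt

def tdAt : List (ℤ × ℤ × ℤ × ℤ) :=
  [(3, 0, (-1), 1), (4, 0, (-3), 2), (5, 0, (-5), 4), (6, 0, (-7), 6), (5, 1, 1, 2), (7, 1, 1, (-9)),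
   (1, 2, 25, (-26)), (2, 2, 23, (-24)), (3, 2, 21, (-22)), (4, 2, 19, (-20)), (5, 2, 19, (-18)), (6, 2, 17, (-18)),
   (7, 2, 6, (-16)), (1, 3, 1, (-28)), (3, 3, 1, (-24)), (6, 3, 1, (-20)), (8, 3, 1, 4), (1, 4, 1, (-30)),
   (3, 4, 1, (-26)), (6, 4, 1, (-22)), (7, 4, (-1), 0), (8, 4, 1, 2), (0, 5, 33, (-34)), (1, 5, 1, (-32)),
   (3, 5, 1, (-28)), (6, 5, 1, (-24)), (8, 5, 0, 1), (3, 6, 1, (-30)), (6, 6, 1, (-26)), (3, 7, 33, (-64)),
   (4, 7, 31, (-32)), (5, 7, 29, (-30)), (6, 7, 1, (-28)), (3, 8, 1, (-66))]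

def tdA : ℤ → ℤ → ℤ × ℤ := look4 tdAt

def tzSt : List (ℤ × ℤ × ℤ × ℤ) :=
  [(0, 5, 1, (-1)), (1, 5, 1, (-1)), (2, 5, 1, (-1)), (3, 6, 0, 1), (3, 7, 0, 1), (3, 8, 0, 1), (3, 9, 0, 1),
   (3, 10, 0, 1), (3, 11, 0, 1), (3, 12, 0, 1), (3, 13, 0, 1), (0, 14, (-1), 1), (1, 14, (-1), 1), (2, 14, (-1), 1),
   (3, 14, 0, 1)]

def tzS : ℤ → ℤ → ℤ × ℤ := look4 tzSt

def tdSt : List (ℤ × ℤ × ℤ × ℤ) :=
  [(0, 5, 4, (-5)), (1, 5, 2, (-3)), (2, 5, 0, (-1)), (3, 6, 1, (-2)), (3, 7, 1, (-4)), (3, 8, 1, (-6)),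
   (3, 9, 1, (-8)), (3, 10, 1, (-10)), (3, 11, 1, (-12)), (3, 12, 1, (-14)), (3, 13, 1, (-16)), (0, 14, 23, (-24)),
   (1, 14, 21, (-22)), (2, 14, 19, (-20)), (3, 14, 1, (-18))]

def tdS : ℤ → ℤ → ℤ × ℤ := look4 tdSt

def tzG00t : List (ℤ × ℤ × ℤ × ℤ) :=
  [(0, 5, 1, (-1)), (1, 5, 1, (-1)), (2, 5, 1, (-1)), (3, 5, 1, (-1)), (2, 6, (-1), 0), (4, 6, 1, 0),
   (3, 7, (-1), 0), (5, 7, 1, 0), (4, 8, (-1), 0), (6, 8, 0, 1), (5, 9, (-1), 0), (6, 9, 0, 1), (6, 10, 0, 1),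
   (6, 11, 0, 1), (6, 12, 0, 1), (6, 13, 0, 1), (0, 14, (-1), 1), (1, 14, (-1), 1), (2, 14, (-1), 1),
   (3, 14, (-1), 1), (4, 14, (-1), 1), (5, 14, (-1), 1), (6, 14, 0, 1)]

def tzG00 : ℤ → ℤ → ℤ × ℤ := look4 tzG00t

def twG00t : List (ℤ × ℤ × ℤ × ℤ) :=
  [(0, 5, 32750, (-32750)), (1, 5, 32750, (-32750)), (2, 5, 0, (-32750)), (3, 5, (-7238302), 7205552),
   (2, 6, (-4376832), 32750), (4, 6, (-5906462), 32750), (3, 7, (-315832), 32750), (5, 7, (-1845462), 32750),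
   (4, 8, 3745168, 32750), (6, 8, 32750, 3026348), (5, 9, 7806168, 32750), (6, 9, 3504250, (-3654100)),
   (7, 9, 3438750, (-3471500)), (6, 10, 0, (-3654100)), (8, 10, 32750, 3373250), (6, 11, 0, (-3654100)),
   (8, 11, 32750, 3307750), (6, 12, 0, (-3654100)), (8, 12, 32750, 3242250), (6, 13, 0, (-3654100)),
   (8, 13, 32750, 3176750), (0, 14, 3654100, (-3654100)), (1, 14, 3654100, (-3654100)), (2, 14, 3654100, (-3654100)),
   (3, 14, 3654100, (-3654100)), (4, 14, 3654100, (-3654100)), (5, 14, 3654100, (-3654100)), (6, 14, 0, (-3654100)),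
   (8, 14, 32750, 3111250), (8, 15, 32750, 3045750), (8, 16, 32750, 2980250), (8, 17, 32750, 2914750),
   (8, 18, 32750, 2849250), (8, 19, 32750, 2783750), (8, 20, 32750, 2718250), (8, 21, 32750, 2652750),
   (3, 22, (-2292500), 2259750), (4, 22, (-2358000), 2325250), (5, 22, (-2423500), 2390750),
   (6, 22, (-2489000), 2456250), (7, 22, (-2554500), 2521750), (8, 22, 32750, 2587250), (0, 23, 32750, (-32750)),
   (1, 23, 32750, (-32750)), (2, 23, 0, (-32750)), (3, 23, 2194250, 32750), (2, 24, (-98250), 32750),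
   (4, 24, 2128750, 32750), (3, 25, (-163750), 32750), (5, 25, 32750, 2063250), (4, 26, (-229250), 32750),
   (5, 26, 1768500, 262000), (6, 26, 1703000, (-1735750)), (5, 27, 0, 262000), (7, 27, 32750, 1637500),
   (5, 28, 0, 262000), (7, 28, 32750, 1572000), (5, 29, 0, 262000), (7, 29, 32750, 1506500), (5, 30, 0, 262000),
   (7, 30, 32750, 1441000), (5, 31, 0, 262000), (7, 31, 32750, 1375500), (0, 32, (-262000), 262000),
   (1, 32, (-262000), 262000), (2, 32, (-262000), 262000), (3, 32, (-262000), 262000), (4, 32, (-262000), 262000),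
   (5, 32, 0, 262000), (7, 32, 32750, 1310000), (7, 33, 32750, 1244500), (7, 34, 32750, 1179000),
   (7, 35, 32750, 1113500), (7, 36, 32750, 1048000), (7, 37, 32750, 982500), (7, 38, 32750, 917000),
   (7, 39, 32750, 851500), (3, 40, (-556750), 524000), (4, 40, (-622250), 589500), (5, 40, (-687750), 655000),
   (6, 40, (-753250), 720500), (7, 40, 32750, 786000), (0, 41, 32750, (-32750)), (1, 41, 32750, (-32750)),
   (2, 41, 0, (-32750)), (3, 41, 458500, 32750), (2, 42, (-98250), 32750), (4, 42, 393000, 32750),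
   (3, 43, (-163750), 32750), (5, 43, 32750, 327500), (4, 44, (-229250), 32750), (5, 44, 32750, 262000),
   (5, 45, 0, 262000), (5, 46, 0, 262000), (5, 47, 0, 262000), (5, 48, 0, 262000), (5, 49, 0, 262000),
   (0, 50, (-262000), 262000), (1, 50, (-262000), 262000), (2, 50, (-262000), 262000), (3, 50, (-262000), 262000),
   (4, 50, (-262000), 262000), (5, 50, 0, 262000)]

def twG00 : ℤ → ℤ → ℤ × ℤ := look4 twG00t

def tzG01t : List (ℤ × ℤ × ℤ × ℤ) :=
  [(0, 23, 1, (-1)), (1, 23, 1, (-1)), (2, 23, 1, (-1)), (3, 23, 1, (-1)), (2, 24, (-1), 0), (4, 24, 1, 0),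
   (3, 25, (-1), 0), (5, 25, 0, 1), (4, 26, (-1), 0), (5, 26, 0, 1), (5, 27, 0, 1), (5, 28, 0, 1), (5, 29, 0, 1),
   (5, 30, 0, 1), (5, 31, 0, 1), (0, 32, (-1), 1), (1, 32, (-1), 1), (2, 32, (-1), 1), (3, 32, (-1), 1),
   (4, 32, (-1), 1), (5, 32, 0, 1)]

def tzG01 : ℤ → ℤ → ℤ × ℤ := look4 tzG01t

def twG01t : List (ℤ × ℤ × ℤ × ℤ) :=
  [(0, 5, (-32750), 32750), (1, 5, (-32750), 32750), (2, 5, 0, 32750), (3, 5, 65500, (-32750)),
   (2, 6, 98250, (-32750)), (4, 6, 131000, (-32750)), (3, 7, 163750, (-32750)), (5, 7, 196500, (-32750)),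
   (4, 8, 229250, (-32750)), (6, 8, (-32750), 262000), (5, 9, 294750, (-32750)), (6, 9, 622250, (-327500)),
   (7, 9, 687750, (-655000)), (6, 10, 0, (-327500)), (8, 10, (-32750), 753250), (6, 11, 0, (-327500)),
   (8, 11, (-32750), 818750), (6, 12, 0, (-327500)), (8, 12, (-32750), 884250), (6, 13, 0, (-327500)),
   (8, 13, (-32750), 949750), (0, 14, 327500, (-327500)), (1, 14, 327500, (-327500)), (2, 14, 327500, (-327500)),
   (3, 14, 327500, (-327500)), (4, 14, 327500, (-327500)), (5, 14, 327500, (-327500)), (6, 14, 0, (-327500)),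
   (8, 14, (-32750), 1015250), (8, 15, (-32750), 1080750), (8, 16, (-32750), 1146250), (8, 17, (-32750), 1211750),
   (8, 18, (-32750), 1277250), (8, 19, (-32750), 1342750), (8, 20, (-32750), 1408250), (8, 21, (-32750), 1473750),
   (3, 22, (-1834000), 1866750), (4, 22, (-1768500), 1801250), (5, 22, (-1703000), 1735750),
   (6, 22, (-1637500), 1670250), (7, 22, (-1572000), 1604750), (8, 22, (-32750), 1539250), (0, 23, (-32750), 32750),
   (1, 23, (-32750), 32750), (2, 23, 0, 32750), (3, 23, (-5240552), 7140052), (2, 24, (-4180332), (-32750)),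
   (4, 24, (-3777712), (-32750)), (3, 25, 11668, (-32750)), (5, 25, (-32750), 1225098), (4, 26, 4203668, (-32750)),
   (5, 26, (-1768500), (-117100)), (6, 26, (-1703000), 1735750), (5, 27, 0, (-117100)),
   (7, 27, (-32750), (-1637500)), (5, 28, 0, (-117100)), (7, 28, (-32750), (-1572000)), (5, 29, 0, (-117100)),
   (7, 29, (-32750), (-1506500)), (5, 30, 0, (-117100)), (7, 30, (-32750), (-1441000)), (5, 31, 0, (-117100)),
   (7, 31, (-32750), (-1375500)), (0, 32, 117100, (-117100)), (1, 32, 117100, (-117100)), (2, 32, 117100, (-117100)),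
   (3, 32, 117100, (-117100)), (4, 32, 117100, (-117100)), (5, 32, 0, (-117100)), (7, 32, (-32750), (-1310000)),
   (7, 33, (-32750), (-1244500)), (7, 34, (-32750), (-1179000)), (7, 35, (-32750), (-1113500)),
   (7, 36, (-32750), (-1048000)), (7, 37, (-32750), (-982500)), (7, 38, (-32750), (-917000)),
   (7, 39, (-32750), (-851500)), (3, 40, 556750, (-524000)), (4, 40, 622250, (-589500)), (5, 40, 687750, (-655000)),
   (6, 40, 753250, (-720500)), (7, 40, (-32750), (-786000)), (0, 41, (-32750), 32750), (1, 41, (-32750), 32750),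
   (2, 41, 0, 32750), (3, 41, (-458500), (-32750)), (2, 42, 98250, (-32750)), (4, 42, (-393000), (-32750)),
   (3, 43, 163750, (-32750)), (5, 43, (-32750), (-327500)), (4, 44, 229250, (-32750)), (5, 44, (-32750), (-262000)),
   (5, 45, 0, (-262000)), (5, 46, 0, (-262000)), (5, 47, 0, (-262000)), (5, 48, 0, (-262000)), (5, 49, 0, (-262000)),
   (0, 50, 262000, (-262000)), (1, 50, 262000, (-262000)), (2, 50, 262000, (-262000)), (3, 50, 262000, (-262000)),
   (4, 50, 262000, (-262000)), (5, 50, 0, (-262000))]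

def twG01 : ℤ → ℤ → ℤ × ℤ := look4 twG01t

def tzG02t : List (ℤ × ℤ × ℤ × ℤ) :=
  [(0, 41, 1, (-1)), (1, 41, 1, (-1)), (2, 41, 1, (-1)), (3, 41, 1, (-1)), (2, 42, (-1), 0), (4, 42, 1, 0),
   (3, 43, (-1), 0), (5, 43, 0, 1), (4, 44, (-1), 0), (5, 44, 0, 1), (5, 45, 0, 1), (5, 46, 0, 1), (5, 47, 0, 1),
   (5, 48, 0, 1), (5, 49, 0, 1), (0, 50, (-1), 1), (1, 50, (-1), 1), (2, 50, (-1), 1), (3, 50, (-1), 1),
   (4, 50, (-1), 1), (5, 50, 0, 1)]

def tzG02 : ℤ → ℤ → ℤ × ℤ := look4 tzG02t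

def twG02t : List (ℤ × ℤ × ℤ × ℤ) :=
  [(0, 5, (-32750), 32750), (1, 5, (-32750), 32750), (2, 5, 0, 32750), (3, 5, 65500, (-32750)),
   (2, 6, 98250, (-32750)), (4, 6, 131000, (-32750)), (3, 7, 163750, (-32750)), (5, 7, 196500, (-32750)),
   (4, 8, 229250, (-32750)), (6, 8, (-32750), 262000), (5, 9, 294750, (-32750)), (6, 9, 622250, (-327500)),
   (7, 9, 687750, (-655000)), (6, 10, 0, (-327500)), (8, 10, (-32750), 753250), (6, 11, 0, (-327500)),
   (8, 11, (-32750), 818750), (6, 12, 0, (-327500)), (8, 12, (-32750), 884250), (6, 13, 0, (-327500)),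
   (8, 13, (-32750), 949750), (0, 14, 327500, (-327500)), (1, 14, 327500, (-327500)), (2, 14, 327500, (-327500)),
   (3, 14, 327500, (-327500)), (4, 14, 327500, (-327500)), (5, 14, 327500, (-327500)), (6, 14, 0, (-327500)),
   (8, 14, (-32750), 1015250), (8, 15, (-32750), 1080750), (8, 16, (-32750), 1146250), (8, 17, (-32750), 1211750),
   (8, 18, (-32750), 1277250), (8, 19, (-32750), 1342750), (8, 20, (-32750), 1408250), (8, 21, (-32750), 1473750),
   (3, 22, (-1834000), 1866750), (4, 22, (-1768500), 1801250), (5, 22, (-1703000), 1735750),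
   (6, 22, (-1637500), 1670250), (7, 22, (-1572000), 1604750), (8, 22, (-32750), 1539250), (0, 23, (-32750), 32750),
   (1, 23, (-32750), 32750), (2, 23, 0, 32750), (3, 23, 1932250, (-32750)), (2, 24, 98250, (-32750)),
   (4, 24, 1997750, (-32750)), (3, 25, 163750, (-32750)), (5, 25, (-32750), 2063250), (4, 26, 229250, (-32750)),
   (5, 26, 2358000, (-262000)), (6, 26, 2423500, (-2390750)), (5, 27, 0, (-262000)), (7, 27, (-32750), 2489000),
   (5, 28, 0, (-262000)), (7, 28, (-32750), 2554500), (5, 29, 0, (-262000)), (7, 29, (-32750), 2620000),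
   (5, 30, 0, (-262000)), (7, 30, (-32750), 2685500), (5, 31, 0, (-262000)), (7, 31, (-32750), 2751000),
   (0, 32, 262000, (-262000)), (1, 32, 262000, (-262000)), (2, 32, 262000, (-262000)), (3, 32, 262000, (-262000)),
   (4, 32, 262000, (-262000)), (5, 32, 0, (-262000)), (7, 32, (-32750), 2816500), (7, 33, (-32750), 2882000),
   (7, 34, (-32750), 2947500), (7, 35, (-32750), 3013000), (7, 36, (-32750), 3078500), (7, 37, (-32750), 3144000),
   (7, 38, (-32750), 3209500), (7, 39, (-32750), 3275000), (3, 40, (-3569750), 3602500),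
   (4, 40, (-3504250), 3537000), (5, 40, (-3438750), 3471500), (6, 40, (-3373250), 3406000),
   (7, 40, (-32750), 3340500), (0, 41, (-32750), 32750), (1, 41, (-32750), 32750), (2, 41, 0, 32750),
   (3, 41, (-3504802), 7140052), (2, 42, (-4180332), (-32750)), (4, 42, (-2041962), (-32750)),
   (3, 43, 11668, (-32750)), (5, 43, (-32750), 2960848), (4, 44, 4203668, (-32750)), (5, 44, (-32750), (-117100)),
   (5, 45, 0, (-117100)), (5, 46, 0, (-117100)), (5, 47, 0, (-117100)), (5, 48, 0, (-117100)), (5, 49, 0, (-117100)),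
   (0, 50, 117100, (-117100)), (1, 50, 117100, (-117100)), (2, 50, 117100, (-117100)), (3, 50, 117100, (-117100)),
   (4, 50, 117100, (-117100)), (5, 50, 0, (-117100))]

def twG02 : ℤ → ℤ → ℤ × ℤ := look4 twG02t

def tdG0t : List (ℤ × ℤ × ℤ × ℤ) :=
  [(0, 5, 3, (-4)), (1, 5, 1, (-2)), (6, 10, 1, (-2)), (6, 11, 1, (-4)), (6, 12, 1, (-6)), (6, 13, 1, (-8)),
   (0, 14, 21, (-22)), (1, 14, 19, (-20)), (2, 14, 17, (-18)), (3, 14, 15, (-16)), (4, 14, 13, (-14)),
   (5, 14, 11, (-12)), (6, 14, 1, (-10)), (0, 23, 3, (-4)), (1, 23, 1, (-2)), (5, 27, 1, (-2)), (5, 28, 1, (-4)),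
   (5, 29, 1, (-6)), (5, 30, 1, (-8)), (5, 31, 1, (-10)), (0, 32, 21, (-22)), (1, 32, 19, (-20)), (2, 32, 17, (-18)),
   (3, 32, 15, (-16)), (4, 32, 13, (-14)), (5, 32, 1, (-12)), (0, 41, 3, (-4)), (1, 41, 1, (-2)), (5, 45, 1, (-2)),
   (5, 46, 1, (-4)), (5, 47, 1, (-6)), (5, 48, 1, (-8)), (5, 49, 1, (-10)), (0, 50, 21, (-22)), (1, 50, 19, (-20)),
   (2, 50, 17, (-18)), (3, 50, 15, (-16)), (4, 50, 13, (-14)), (5, 50, 1, (-12))]

def tdG0 : ℤ → ℤ → ℤ × ℤ := look4 tdG0t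

def tzG10t : List (ℤ × ℤ × ℤ × ℤ) :=
  [(0, 5, 1, (-1)), (1, 5, 1, (-1)), (2, 5, 1, (-1)), (3, 5, 1, (-1)), (2, 6, (-1), 0), (4, 6, 1, 0),
   (3, 7, (-1), 0), (5, 7, 1, 0), (4, 8, (-1), 0), (6, 8, 0, 1), (5, 9, (-1), 0), (6, 9, 0, 1), (6, 10, 0, 1),
   (6, 11, 0, 1), (6, 12, 0, 1), (6, 13, 0, 1), (0, 14, (-1), 1), (1, 14, (-1), 1), (2, 14, (-1), 1),
   (3, 14, (-1), 1), (4, 14, (-1), 1), (5, 14, (-1), 1), (6, 14, 0, 1)]

def tzG10 : ℤ → ℤ → ℤ × ℤ := look4 tzG10t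

def twG10t : List (ℤ × ℤ × ℤ × ℤ) :=
  [(0, 5, 32750, (-32750)), (1, 5, 32750, (-32750)), (2, 5, 0, (-32750)), (3, 5, (-7466010), 7433260),
   (2, 6, (-4512660), 32750), (4, 6, (-6089810), 32750), (3, 7, (-320660), 32750), (5, 7, (-1897810), 32750),
   (4, 8, 3871340, 32750), (6, 8, 32750, 3130740), (5, 9, 8063340, 32750), (6, 9, 3635250, (-3780500)),
   (7, 9, 3569750, (-3602500)), (6, 10, 0, (-3780500)), (8, 10, 32750, 3504250), (6, 11, 0, (-3780500)),
   (8, 11, 32750, 3438750), (6, 12, 0, (-3780500)), (8, 12, 32750, 3373250), (6, 13, 0, (-3780500)),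
   (8, 13, 32750, 3307750), (0, 14, 3780500, (-3780500)), (1, 14, 3780500, (-3780500)), (2, 14, 3780500, (-3780500)),
   (3, 14, 3780500, (-3780500)), (4, 14, 3780500, (-3780500)), (5, 14, 3780500, (-3780500)), (6, 14, 0, (-3780500)),
   (8, 14, 32750, 3242250), (8, 15, 32750, 3176750), (8, 16, 32750, 3111250), (8, 17, 32750, 3045750),
   (8, 18, 32750, 2980250), (8, 19, 32750, 2914750), (8, 20, 32750, 2849250), (8, 21, 32750, 2783750),
   (3, 22, (-2423500), 2390750), (4, 22, (-2489000), 2456250), (5, 22, (-2554500), 2521750),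
   (6, 22, (-2620000), 2587250), (7, 22, (-2685500), 2652750), (8, 22, 32750, 2718250), (0, 23, 32750, (-32750)),
   (1, 23, 32750, (-32750)), (2, 23, 0, (-32750)), (3, 23, 2325250, 32750), (2, 24, (-98250), 32750),
   (4, 24, 2259750, 32750), (3, 25, (-163750), 32750), (5, 25, 2194250, 32750), (4, 26, (-229250), 32750),
   (6, 26, 32750, 2128750), (5, 27, (-294750), 32750), (6, 27, 1768500, 327500), (7, 27, 1703000, (-1735750)),
   (6, 28, 0, 327500), (8, 28, 32750, 1637500), (6, 29, 0, 327500), (8, 29, 32750, 1572000), (6, 30, 0, 327500),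
   (8, 30, 32750, 1506500), (6, 31, 0, 327500), (8, 31, 32750, 1441000), (0, 32, (-327500), 327500),
   (1, 32, (-327500), 327500), (2, 32, (-327500), 327500), (3, 32, (-327500), 327500), (4, 32, (-327500), 327500),
   (5, 32, (-327500), 327500), (6, 32, 0, 327500), (8, 32, 32750, 1375500), (8, 33, 32750, 1310000),
   (8, 34, 32750, 1244500), (8, 35, 32750, 1179000), (8, 36, 32750, 1113500), (8, 37, 32750, 1048000),
   (8, 38, 32750, 982500), (8, 39, 32750, 917000), (3, 40, (-556750), 524000), (4, 40, (-622250), 589500),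
   (5, 40, (-687750), 655000), (6, 40, (-753250), 720500), (7, 40, (-818750), 786000), (8, 40, 32750, 851500),
   (0, 41, 32750, (-32750)), (1, 41, 32750, (-32750)), (2, 41, 0, (-32750)), (3, 41, 458500, 32750),
   (2, 42, (-98250), 32750), (4, 42, 393000, 32750), (3, 43, (-163750), 32750), (5, 43, 32750, 327500),
   (4, 44, (-229250), 32750), (5, 44, 32750, 262000), (5, 45, 0, 262000), (5, 46, 0, 262000), (5, 47, 0, 262000),
   (5, 48, 0, 262000), (5, 49, 0, 262000), (0, 50, (-262000), 262000), (1, 50, (-262000), 262000),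
   (2, 50, (-262000), 262000), (3, 50, (-262000), 262000), (4, 50, (-262000), 262000), (5, 50, 0, 262000)]

def twG10 : ℤ → ℤ → ℤ × ℤ := look4 twG10t

def tzG11t : List (ℤ × ℤ × ℤ × ℤ) :=
  [(0, 23, 1, (-1)), (1, 23, 1, (-1)), (2, 23, 1, (-1)), (3, 23, 1, (-1)), (2, 24, (-1), 0), (4, 24, 1, 0),
   (3, 25, (-1), 0), (5, 25, 1, 0), (4, 26, (-1), 0), (6, 26, 0, 1), (5, 27, (-1), 0), (6, 27, 0, 1), (6, 28, 0, 1),
   (6, 29, 0, 1), (6, 30, 0, 1), (6, 31, 0, 1), (0, 32, (-1), 1), (1, 32, (-1), 1), (2, 32, (-1), 1),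
   (3, 32, (-1), 1), (4, 32, (-1), 1), (5, 32, (-1), 1), (6, 32, 0, 1)]

def tzG11 : ℤ → ℤ → ℤ × ℤ := look4 tzG11t

def twG11t : List (ℤ × ℤ × ℤ × ℤ) :=
  [(0, 5, 32750, (-32750)), (1, 5, 32750, (-32750)), (2, 5, 0, (-32750)), (3, 5, (-65500), 32750),
   (2, 6, (-98250), 32750), (4, 6, (-131000), 32750), (3, 7, (-163750), 32750), (5, 7, (-196500), 32750),
   (4, 8, (-229250), 32750), (6, 8, 32750, (-262000)), (5, 9, (-294750), 32750), (6, 9, (-622250), 327500),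
   (7, 9, (-687750), 655000), (6, 10, 0, 327500), (8, 10, 32750, (-753250)), (6, 11, 0, 327500),
   (8, 11, 32750, (-818750)), (6, 12, 0, 327500), (8, 12, 32750, (-884250)), (6, 13, 0, 327500),
   (8, 13, 32750, (-949750)), (0, 14, (-327500), 327500), (1, 14, (-327500), 327500), (2, 14, (-327500), 327500),
   (3, 14, (-327500), 327500), (4, 14, (-327500), 327500), (5, 14, (-327500), 327500), (6, 14, 0, 327500),
   (8, 14, 32750, (-1015250)), (8, 15, 32750, (-1080750)), (8, 16, 32750, (-1146250)), (8, 17, 32750, (-1211750)),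
   (8, 18, 32750, (-1277250)), (8, 19, 32750, (-1342750)), (8, 20, 32750, (-1408250)), (8, 21, 32750, (-1473750)),
   (3, 22, 1834000, (-1866750)), (4, 22, 1768500, (-1801250)), (5, 22, 1703000, (-1735750)),
   (6, 22, 1637500, (-1670250)), (7, 22, 1572000, (-1604750)), (8, 22, 32750, (-1539250)), (0, 23, 32750, (-32750)),
   (1, 23, 32750, (-32750)), (2, 23, 0, (-32750)), (3, 23, (-9332760), 7433260), (2, 24, (-4512660), 32750),
   (4, 24, (-7956560), 32750), (3, 25, (-320660), 32750), (5, 25, (-3764560), 32750), (4, 26, 3871340, 32750),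
   (6, 26, 32750, 1263990), (5, 27, 8063340, 32750), (6, 27, 1768500, (-3780500)), (7, 27, 1703000, (-1735750)),
   (6, 28, 0, (-3780500)), (8, 28, 32750, 1637500), (6, 29, 0, (-3780500)), (8, 29, 32750, 1572000),
   (6, 30, 0, (-3780500)), (8, 30, 32750, 1506500), (6, 31, 0, (-3780500)), (8, 31, 32750, 1441000),
   (0, 32, 3780500, (-3780500)), (1, 32, 3780500, (-3780500)), (2, 32, 3780500, (-3780500)),
   (3, 32, 3780500, (-3780500)), (4, 32, 3780500, (-3780500)), (5, 32, 3780500, (-3780500)), (6, 32, 0, (-3780500)),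
   (8, 32, 32750, 1375500), (8, 33, 32750, 1310000), (8, 34, 32750, 1244500), (8, 35, 32750, 1179000),
   (8, 36, 32750, 1113500), (8, 37, 32750, 1048000), (8, 38, 32750, 982500), (8, 39, 32750, 917000),
   (3, 40, (-556750), 524000), (4, 40, (-622250), 589500), (5, 40, (-687750), 655000), (6, 40, (-753250), 720500),
   (7, 40, (-818750), 786000), (8, 40, 32750, 851500), (0, 41, 32750, (-32750)), (1, 41, 32750, (-32750)),
   (2, 41, 0, (-32750)), (3, 41, 458500, 32750), (2, 42, (-98250), 32750), (4, 42, 393000, 32750),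
   (3, 43, (-163750), 32750), (5, 43, 32750, 327500), (4, 44, (-229250), 32750), (5, 44, 32750, 262000),
   (5, 45, 0, 262000), (5, 46, 0, 262000), (5, 47, 0, 262000), (5, 48, 0, 262000), (5, 49, 0, 262000),
   (0, 50, (-262000), 262000), (1, 50, (-262000), 262000), (2, 50, (-262000), 262000), (3, 50, (-262000), 262000),
   (4, 50, (-262000), 262000), (5, 50, 0, 262000)]

def twG11 : ℤ → ℤ → ℤ × ℤ := look4 twG11t

def tzG12t : List (ℤ × ℤ × ℤ × ℤ) :=
  [(0, 41, 1, (-1)), (1, 41, 1, (-1)), (2, 41, 1, (-1)), (3, 41, 1, (-1)), (2, 42, (-1), 0), (4, 42, 1, 0),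
   (3, 43, (-1), 0), (5, 43, 0, 1), (4, 44, (-1), 0), (5, 44, 0, 1), (5, 45, 0, 1), (5, 46, 0, 1), (5, 47, 0, 1),
   (5, 48, 0, 1), (5, 49, 0, 1), (0, 50, (-1), 1), (1, 50, (-1), 1), (2, 50, (-1), 1), (3, 50, (-1), 1),
   (4, 50, (-1), 1), (5, 50, 0, 1)]

def tzG12 : ℤ → ℤ → ℤ × ℤ := look4 tzG12t

def twG12t : List (ℤ × ℤ × ℤ × ℤ) :=
  [(0, 5, (-32750), 32750), (1, 5, (-32750), 32750), (2, 5, 0, 32750), (3, 5, 65500, (-32750)),
   (2, 6, 98250, (-32750)), (4, 6, 131000, (-32750)), (3, 7, 163750, (-32750)), (5, 7, 196500, (-32750)),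
   (4, 8, 229250, (-32750)), (6, 8, (-32750), 262000), (5, 9, 294750, (-32750)), (6, 9, 622250, (-327500)),
   (7, 9, 687750, (-655000)), (6, 10, 0, (-327500)), (8, 10, (-32750), 753250), (6, 11, 0, (-327500)),
   (8, 11, (-32750), 818750), (6, 12, 0, (-327500)), (8, 12, (-32750), 884250), (6, 13, 0, (-327500)),
   (8, 13, (-32750), 949750), (0, 14, 327500, (-327500)), (1, 14, 327500, (-327500)), (2, 14, 327500, (-327500)),
   (3, 14, 327500, (-327500)), (4, 14, 327500, (-327500)), (5, 14, 327500, (-327500)), (6, 14, 0, (-327500)),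
   (8, 14, (-32750), 1015250), (8, 15, (-32750), 1080750), (8, 16, (-32750), 1146250), (8, 17, (-32750), 1211750),
   (8, 18, (-32750), 1277250), (8, 19, (-32750), 1342750), (8, 20, (-32750), 1408250), (8, 21, (-32750), 1473750),
   (3, 22, (-1834000), 1866750), (4, 22, (-1768500), 1801250), (5, 22, (-1703000), 1735750),
   (6, 22, (-1637500), 1670250), (7, 22, (-1572000), 1604750), (8, 22, (-32750), 1539250), (0, 23, (-32750), 32750),
   (1, 23, (-32750), 32750), (2, 23, 0, 32750), (3, 23, 1932250, (-32750)), (2, 24, 98250, (-32750)),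
   (4, 24, 1997750, (-32750)), (3, 25, 163750, (-32750)), (5, 25, 2063250, (-32750)), (4, 26, 229250, (-32750)),
   (6, 26, (-32750), 2128750), (5, 27, 294750, (-32750)), (6, 27, 2489000, (-327500)), (7, 27, 2554500, (-2521750)),
   (6, 28, 0, (-327500)), (8, 28, (-32750), 2620000), (6, 29, 0, (-327500)), (8, 29, (-32750), 2685500),
   (6, 30, 0, (-327500)), (8, 30, (-32750), 2751000), (6, 31, 0, (-327500)), (8, 31, (-32750), 2816500),
   (0, 32, 327500, (-327500)), (1, 32, 327500, (-327500)), (2, 32, 327500, (-327500)), (3, 32, 327500, (-327500)),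
   (4, 32, 327500, (-327500)), (5, 32, 327500, (-327500)), (6, 32, 0, (-327500)), (8, 32, (-32750), 2882000),
   (8, 33, (-32750), 2947500), (8, 34, (-32750), 3013000), (8, 35, (-32750), 3078500), (8, 36, (-32750), 3144000),
   (8, 37, (-32750), 3209500), (8, 38, (-32750), 3275000), (8, 39, (-32750), 3340500), (3, 40, (-3700750), 3733500),
   (4, 40, (-3635250), 3668000), (5, 40, (-3569750), 3602500), (6, 40, (-3504250), 3537000),
   (7, 40, (-3438750), 3471500), (8, 40, (-32750), 3406000), (0, 41, (-32750), 32750), (1, 41, (-32750), 32750),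
   (2, 41, 0, 32750), (3, 41, (-3601510), 7367760), (2, 42, (-4316160), (-32750)), (4, 42, (-2094310), (-32750)),
   (3, 43, 6840, (-32750)), (5, 43, (-32750), 3065240), (4, 44, 4329840, (-32750)), (5, 44, (-32750), (-112500)),
   (5, 45, 0, (-112500)), (5, 46, 0, (-112500)), (5, 47, 0, (-112500)), (5, 48, 0, (-112500)), (5, 49, 0, (-112500)),
   (0, 50, 112500, (-112500)), (1, 50, 112500, (-112500)), (2, 50, 112500, (-112500)), (3, 50, 112500, (-112500)),
   (4, 50, 112500, (-112500)), (5, 50, 0, (-112500))]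

def twG12 : ℤ → ℤ → ℤ × ℤ := look4 twG12t

def tdG1t : List (ℤ × ℤ × ℤ × ℤ) :=
  [(0, 5, 3, (-4)), (1, 5, 1, (-2)), (6, 10, 1, (-2)), (6, 11, 1, (-4)), (6, 12, 1, (-6)), (6, 13, 1, (-8)),
   (0, 14, 21, (-22)), (1, 14, 19, (-20)), (2, 14, 17, (-18)), (3, 14, 15, (-16)), (4, 14, 13, (-14)),
   (5, 14, 11, (-12)), (6, 14, 1, (-10)), (0, 23, 3, (-4)), (1, 23, 1, (-2)), (6, 28, 1, (-2)), (6, 29, 1, (-4)),
   (6, 30, 1, (-6)), (6, 31, 1, (-8)), (0, 32, 21, (-22)), (1, 32, 19, (-20)), (2, 32, 17, (-18)),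
   (3, 32, 15, (-16)), (4, 32, 13, (-14)), (5, 32, 11, (-12)), (6, 32, 1, (-10)), (0, 41, 3, (-4)), (1, 41, 1, (-2)),
   (5, 45, 1, (-2)), (5, 46, 1, (-4)), (5, 47, 1, (-6)), (5, 48, 1, (-8)), (5, 49, 1, (-10)), (0, 50, 21, (-22)),
   (1, 50, 19, (-20)), (2, 50, 17, (-18)), (3, 50, 15, (-16)), (4, 50, 13, (-14)), (5, 50, 1, (-12))]

def tdG1 : ℤ → ℤ → ℤ × ℤ := look4 tdG1t

def tzFt : List (ℤ × ℤ × ℤ × ℤ) :=
  [(4, 2, 1, (-1)), (5, 2, 1, (-1)), (4, 3, (-1), 0), (6, 3, 1, 0), (5, 4, (-1), 0), (7, 4, 1, 0), (6, 5, (-1), 0),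
   (8, 5, 0, 1), (7, 6, (-1), 0), (8, 6, 0, 1)]

def tzF : ℤ → ℤ → ℤ × ℤ := look4 tzFt

def twFt : List (ℤ × ℤ × ℤ × ℤ) :=
  [(4, 2, 0, (-32750)), (5, 2, (-4961222), 4928472), (4, 3, (-3018552), 32750), (6, 3, (-4072982), 32750),
   (5, 4, (-267552), 32750), (7, 4, (-1321982), 32750), (6, 5, 2483448, 32750), (8, 5, 32750, 1982428),
   (7, 6, 5234448, 32750), (8, 6, 2194250, (-2390100)), (9, 6, 2128750, (-2161500)), (10, 7, 32750, 2063250),
   (10, 8, 32750, 1997750), (10, 9, 32750, 1932250), (10, 10, 32750, 1866750), (10, 11, 32750, 1801250),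
   (10, 12, 32750, 1735750), (10, 13, 32750, 1670250), (10, 14, 32750, 1604750), (10, 15, 32750, 1539250),
   (10, 16, 32750, 1473750), (10, 17, 32750, 1408250)]

def twF : ℤ → ℤ → ℤ × ℤ := look4 twFt

def tfEt : List (ℤ × ℤ × ℤ × ℤ) :=
  [(0, 0, (-180), 179), (1, 0, (-182), 181), (2, 0, (-184), 183), (3, 0, (-186), 185), (4, 0, (-188), 187),
   (5, 0, (-190), 189), (6, 0, (-192), 191), (7, 0, (-194), 193), (8, 0, (-196), 195), (9, 0, (-198), 197),
   (10, 0, 1, 199), (0, 1, 1, 177), (2, 1, 1, 181), (0, 2, 1, 175), (2, 2, 3, 177), (3, 2, 1, (-2)), (0, 3, 1, 173),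
   (0, 4, 1, 171), (0, 5, 1, 169), (0, 6, 1, 167), (0, 7, 1, 165), (8, 7, 1, (-2)), (0, 8, 19, 145),
   (1, 8, 17, (-18)), (2, 8, 15, (-16)), (3, 8, 13, (-14)), (4, 8, 11, (-12)), (5, 8, 9, (-10)), (6, 8, 7, (-8)),
   (7, 8, 5, (-6)), (8, 8, 1, (-4))]

def tfE : ℤ → ℤ → ℤ × ℤ := look4 tfEt

def tzUt : List (ℤ × ℤ × ℤ × ℤ) :=
  [(0, 5, (-1), 1), (1, 5, (-1), 1), (2, 5, (-1), 1), (3, 6, 0, (-1)), (3, 7, 0, (-1)), (3, 8, 0, (-1)),
   (3, 9, 0, (-1)), (3, 10, 0, (-1)), (3, 11, 0, (-1)), (3, 12, 0, (-1)), (3, 13, 0, (-1)), (0, 14, 1, (-1)),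
   (1, 14, 1, (-1)), (2, 14, 1, (-1)), (3, 14, 0, (-1))]

def tzU : ℤ → ℤ → ℤ × ℤ := look4 tzUt

def tdUt : List (ℤ × ℤ × ℤ × ℤ) :=
  [(0, 5, 4, (-5)), (1, 5, 2, (-3)), (2, 5, 0, (-1)), (3, 6, 1, (-2)), (3, 7, 1, (-4)), (3, 8, 1, (-6)),
   (3, 9, 1, (-8)), (3, 10, 1, (-10)), (3, 11, 1, (-12)), (3, 12, 1, (-14)), (3, 13, 1, (-16)), (0, 14, 23, (-24)),
   (1, 14, 21, (-22)), (2, 14, 19, (-20)), (3, 14, 1, (-18))]

def tdU : ℤ → ℤ → ℤ × ℤ := look4 tdUt

def tfUt : List (ℤ × ℤ × ℤ × ℤ) :=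
  [(19, 0, 1, 199), (19, 1, 1, 197), (19, 2, 1, 195), (19, 3, 1, 193), (19, 4, 1, 191), (19, 5, 1, 189),
   (19, 6, 1, 187), (19, 7, 1, 185), (19, 8, 1, 183), (19, 9, 1, 181), (19, 10, 1, 179), (19, 11, 1, 177),
   (19, 12, 1, 175), (19, 13, 1, 173), (19, 14, 1, 171), (3, 15, (-138), 137), (4, 15, (-140), 139),
   (5, 15, (-142), 141), (6, 15, (-144), 143), (7, 15, (-146), 145), (8, 15, (-148), 147), (9, 15, (-150), 149),
   (10, 15, (-152), 151), (11, 15, (-154), 153), (12, 15, (-156), 155), (13, 15, (-158), 157), (14, 15, (-160), 159),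
   (15, 15, (-162), 161), (16, 15, (-164), 163), (17, 15, (-166), 165), (18, 15, (-168), 167), (19, 15, 1, 169)]

def tfU : ℤ → ℤ → ℤ × ℤ := look4 tfUt

/-- the constraints between the rooms of the source of the unit -/
def cUu : List Con :=
  [.h1 0 5, .p3 0 5, .h1 1 5, .p3 1 5, .cp 2 5, .p3 2 5, .p1 3 6, .h3 3 7, .p1 3 7, .h3 3 8, .p1 3 8, .h3 3 9,
   .p1 3 9, .h3 3 10, .p1 3 10, .h3 3 11, .p1 3 11, .h3 3 12, .p1 3 12, .h3 3 13, .p1 3 13, .h1 0 14, .p3 0 14,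
   .h1 1 14, .p3 1 14, .h1 2 14, .p3 2 14, .h3 3 14, .p1 3 14]

/-- the other constraints of the block `U` -/
def cUr : List Con :=
  [.p1 19 0, .h3 19 1, .p1 19 1, .h3 19 2, .p1 19 2, .h3 19 3, .p1 19 3, .h3 19 4, .p1 19 4, .h3 19 5, .p1 19 5,
   .h3 19 6, .p1 19 6, .h3 19 7, .p1 19 7, .h3 19 8, .p1 19 8, .h3 19 9, .p1 19 9, .h3 19 10, .p1 19 10, .h3 19 11,
   .p1 19 11, .h3 19 12, .p1 19 12, .h3 19 13, .p1 19 13, .h3 19 14, .p1 19 14, .h1 3 15, .h3 3 15, .p2 3 15,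
   .h1 4 15, .p3 4 15, .h1 5 15, .p3 5 15, .h1 6 15, .p3 6 15, .h1 7 15, .p3 7 15, .h1 8 15, .p3 8 15, .h1 9 15,
   .p3 9 15, .h1 10 15, .p3 10 15, .h1 11 15, .p3 11 15, .h1 12 15, .p3 12 15, .h1 13 15, .p3 13 15, .h1 14 15,
   .p3 14 15, .h1 15 15, .p3 15 15, .h1 16 15, .p3 16 15, .h1 17 15, .p3 17 15, .h1 18 15, .p3 18 15, .h3 19 15,
   .p1 19 15]

theorem tsV_slack : (cV.all fun c => decide (c.slack tsV = 0)) = true := by decide +kernel

theorem tsV_val :
    a3 (tsV 3 0) = 1 ∧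
      (tsV 3 8).2 = (-1) := by
  decide +kernel

theorem tdV_slack : (cV.all fun c => decide (c.slack tdV = 1)) = true := by decide +kernel

theorem tdV_val :
    a3 (tdV 3 0) = 0 ∧
      (tdV 3 8).2 = (-17) := by
  decide +kernel

theorem tyT_slack : (cT.all fun c => decide (c.slack tyT = 0)) = true := by decide +kernel

theorem tyT_val :
    (tyT 8 5).1 = 1 ∧
      a3 (tyT 3 0) = 0 ∧
      (tyT 3 8).2 = (-1) := by
  decide +kernel

theorem tsT_slack : (cT.all fun c => decide (c.slack tsT = 0)) = true := by decide +kernel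

theorem tsT_val :
    (tsT 8 5).1 = 0 ∧
      a3 (tsT 3 0) = 1 ∧
      (tsT 3 8).2 = (-1) := by
  decide +kernel

theorem tdT_slack : (cT.all fun c => decide (c.slack tdT = 1)) = true := by decide +kernel

theorem tdT_val :
    (tdT 8 5).1 = 0 ∧
      a3 (tdT 3 0) = 0 ∧
      (tdT 3 8).2 = (-26) := by
  decide +kernel

theorem tyX_slack : (cX.all fun c => decide (c.slack tyX = 0)) = true := by decide +kernel

theorem tyX_val :
    (tyX 8 5).1 = 1 ∧
      a3 (tyX 3 0) = 0 ∧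
      (tyX 0 5).2 = (-1) ∧
      (tyX 3 8).2 = 0 := by
  decide +kernel

theorem tsX_slack : (cX.all fun c => decide (c.slack tsX = 0)) = true := by decide +kernel

theorem tsX_val :
    (tsX 8 5).1 = 0 ∧
      a3 (tsX 3 0) = 1 ∧
      (tsX 0 5).2 = 0 ∧
      (tsX 3 8).2 = (-1) := by
  decide +kernel

theorem tdX_slack : (cX.all fun c => decide (c.slack tdX = 1)) = true := by decide +kernel

theorem tdX_val :
    (tdX 8 5).1 = 0 ∧
      a3 (tdX 3 0) = 0 ∧
      (tdX 0 5).2 = (-34) ∧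
      (tdX 3 8).2 = (-36) := by
  decide +kernel

theorem tyA_slack : (cA.all fun c => decide (c.slack tyA = 0)) = true := by decide +kernel

theorem tyA_val :
    (tyA 8 5).1 = 1 ∧
      a3 (tyA 3 0) = 0 ∧
      (tyA 0 5).2 = (-1) ∧
      (tyA 3 8).2 = (-1) := by
  decide +kernel

theorem tsA_slack : (cA.all fun c => decide (c.slack tsA = 0)) = true := by decide +kernel

theorem tsA_val :
    (tsA 8 5).1 = 0 ∧
      a3 (tsA 3 0) = 1 ∧
      (tsA 0 5).2 = 0 ∧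
      (tsA 3 8).2 = (-1) := by
  decide +kernel

theorem tdA_slack : (cA.all fun c => decide (c.slack tdA = 1)) = true := by decide +kernel

theorem tdA_val :
    (tdA 8 5).1 = 0 ∧
      a3 (tdA 3 0) = 0 ∧
      (tdA 0 5).2 = (-34) ∧
      (tdA 3 8).2 = (-66) := by
  decide +kernel

theorem tzS_slack : (cS.all fun c => decide (c.slack tzS = 0)) = true := by decide +kernel

theorem tzS_val :
    (tzS 2 5).1 = 1 ∧
      (tzS 0 5).2 = (-1) ∧
      (tzS 0 14).2 = 1 := by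
  decide +kernel

theorem tdS_slack : (cS.all fun c => decide (c.slack tdS = 1)) = true := by decide +kernel

theorem tdS_val :
    (tdS 2 5).1 = 0 ∧
      (tdS 0 5).2 = (-5) ∧
      (tdS 0 14).2 = (-24) := by
  decide +kernel

theorem tzG00_slack : (cG0.all fun c => decide (c.slack tzG00 = 0)) = true := by decide +kernel

theorem tzG00_val :
    (tzG00 2 5).1 = 1 ∧
      (tzG00 2 23).1 = 0 ∧
      (tzG00 2 41).1 = 0 ∧
      (tzG00 0 5).2 = (-1) ∧
      (tzG00 0 14).2 = 1 ∧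
      (tzG00 0 23).2 = 0 ∧
      (tzG00 0 32).2 = 0 ∧
      (tzG00 0 41).2 = 0 ∧
      (tzG00 0 50).2 = 0 := by
  decide +kernel

theorem tzG00_Q : (rG00.map fun c => c.Q tzG00).sum = (-32750) := by decide +kernel

theorem twG00_slack : (rG00.all fun c => decide (c.slack twG00 = 126 * c.Q tzG00 - (-32750))) = true := by decide +kernel

theorem twG00_val :
    (twG00 2 5).1 = 0 ∧
      (twG00 2 23).1 = 0 ∧
      (twG00 2 41).1 = 0 ∧
      (twG00 0 5).2 = (-32750) ∧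
      (twG00 0 14).2 = (-3654100) ∧
      (twG00 0 23).2 = (-32750) ∧
      (twG00 0 32).2 = 262000 ∧
      (twG00 0 41).2 = (-32750) ∧
      (twG00 0 50).2 = 262000 := by
  decide +kernel

theorem tzG01_slack : (cG0.all fun c => decide (c.slack tzG01 = 0)) = true := by decide +kernel

theorem tzG01_val :
    (tzG01 2 5).1 = 0 ∧
      (tzG01 2 23).1 = 1 ∧
      (tzG01 2 41).1 = 0 ∧
      (tzG01 0 5).2 = 0 ∧
      (tzG01 0 14).2 = 0 ∧
      (tzG01 0 23).2 = (-1) ∧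
      (tzG01 0 32).2 = 1 ∧
      (tzG01 0 41).2 = 0 ∧
      (tzG01 0 50).2 = 0 := by
  decide +kernel

theorem tzG01_Q : (rG00.map fun c => c.Q tzG01).sum = 32750 := by decide +kernel

theorem twG01_slack : (rG00.all fun c => decide (c.slack twG01 = 126 * c.Q tzG01 - 32750)) = true := by decide +kernel

theorem twG01_val :
    (twG01 2 5).1 = 0 ∧
      (twG01 2 23).1 = 0 ∧
      (twG01 2 41).1 = 0 ∧
      (twG01 0 5).2 = 32750 ∧
      (twG01 0 14).2 = (-327500) ∧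
      (twG01 0 23).2 = 32750 ∧
      (twG01 0 32).2 = (-117100) ∧
      (twG01 0 41).2 = 32750 ∧
      (twG01 0 50).2 = (-262000) := by
  decide +kernel

theorem tzG02_slack : (cG0.all fun c => decide (c.slack tzG02 = 0)) = true := by decide +kernel

theorem tzG02_val :
    (tzG02 2 5).1 = 0 ∧
      (tzG02 2 23).1 = 0 ∧
      (tzG02 2 41).1 = 1 ∧
      (tzG02 0 5).2 = 0 ∧
      (tzG02 0 14).2 = 0 ∧
      (tzG02 0 23).2 = 0 ∧
      (tzG02 0 32).2 = 0 ∧
      (tzG02 0 41).2 = (-1) ∧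
      (tzG02 0 50).2 = 1 := by
  decide +kernel

theorem tzG02_Q : (rG00.map fun c => c.Q tzG02).sum = 32750 := by decide +kernel

theorem twG02_slack : (rG00.all fun c => decide (c.slack twG02 = 126 * c.Q tzG02 - 32750)) = true := by decide +kernel

theorem twG02_val :
    (twG02 2 5).1 = 0 ∧
      (twG02 2 23).1 = 0 ∧
      (twG02 2 41).1 = 0 ∧
      (twG02 0 5).2 = 32750 ∧
      (twG02 0 14).2 = (-327500) ∧
      (twG02 0 23).2 = 32750 ∧
      (twG02 0 32).2 = (-262000) ∧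
      (twG02 0 41).2 = 32750 ∧
      (twG02 0 50).2 = (-117100) := by
  decide +kernel

theorem tG0_pol01 : (rG00.all fun c => decide (c.pol tzG00 tzG01 = 0)) = true := by decide +kernel

theorem tG0_pol02 : (rG00.all fun c => decide (c.pol tzG00 tzG02 = 0)) = true := by decide +kernel

theorem tG0_pol12 : (rG00.all fun c => decide (c.pol tzG01 tzG02 = 0)) = true := by decide +kernel

theorem tdG0_slack : (cG0.all fun c => decide (c.slack tdG0 = if c ∈ rG00 then 0 else 1)) = true := by decide +kernel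

theorem tdG0_val :
    (tdG0 2 5).1 = 0 ∧
      (tdG0 2 23).1 = 0 ∧
      (tdG0 2 41).1 = 0 ∧
      (tdG0 0 5).2 = (-4) ∧
      (tdG0 0 14).2 = (-22) ∧
      (tdG0 0 23).2 = (-4) ∧
      (tdG0 0 32).2 = (-22) ∧
      (tdG0 0 41).2 = (-4) ∧
      (tdG0 0 50).2 = (-22) := by
  decide +kernel

theorem tzG10_slack : (cG1.all fun c => decide (c.slack tzG10 = 0)) = true := by decide +kernel

theorem tzG10_val :
    (tzG10 2 5).1 = 1 ∧
      (tzG10 2 23).1 = 0 ∧
      (tzG10 2 41).1 = 0 ∧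
      (tzG10 0 5).2 = (-1) ∧
      (tzG10 0 14).2 = 1 ∧
      (tzG10 0 23).2 = 0 ∧
      (tzG10 0 32).2 = 0 ∧
      (tzG10 0 41).2 = 0 ∧
      (tzG10 0 50).2 = 0 := by
  decide +kernel

theorem tzG10_Q : (rG10.map fun c => c.Q tzG10).sum = (-32750) := by decide +kernel

theorem twG10_slack : (rG10.all fun c => decide (c.slack twG10 = 130 * c.Q tzG10 - (-32750))) = true := by decide +kernel

theorem twG10_val :
    (twG10 2 5).1 = 0 ∧
      (twG10 2 23).1 = 0 ∧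
      (twG10 2 41).1 = 0 ∧
      (twG10 0 5).2 = (-32750) ∧
      (twG10 0 14).2 = (-3780500) ∧
      (twG10 0 23).2 = (-32750) ∧
      (twG10 0 32).2 = 327500 ∧
      (twG10 0 41).2 = (-32750) ∧
      (twG10 0 50).2 = 262000 := by
  decide +kernel

theorem tzG11_slack : (cG1.all fun c => decide (c.slack tzG11 = 0)) = true := by decide +kernel

theorem tzG11_val :
    (tzG11 2 5).1 = 0 ∧
      (tzG11 2 23).1 = 1 ∧
      (tzG11 2 41).1 = 0 ∧
      (tzG11 0 5).2 = 0 ∧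
      (tzG11 0 14).2 = 0 ∧
      (tzG11 0 23).2 = (-1) ∧
      (tzG11 0 32).2 = 1 ∧
      (tzG11 0 41).2 = 0 ∧
      (tzG11 0 50).2 = 0 := by
  decide +kernel

theorem tzG11_Q : (rG10.map fun c => c.Q tzG11).sum = (-32750) := by decide +kernel

theorem twG11_slack : (rG10.all fun c => decide (c.slack twG11 = 130 * c.Q tzG11 - (-32750))) = true := by decide +kernel

theorem twG11_val :
    (twG11 2 5).1 = 0 ∧
      (twG11 2 23).1 = 0 ∧
      (twG11 2 41).1 = 0 ∧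
      (twG11 0 5).2 = (-32750) ∧
      (twG11 0 14).2 = 327500 ∧
      (twG11 0 23).2 = (-32750) ∧
      (twG11 0 32).2 = (-3780500) ∧
      (twG11 0 41).2 = (-32750) ∧
      (twG11 0 50).2 = 262000 := by
  decide +kernel

theorem tzG12_slack : (cG1.all fun c => decide (c.slack tzG12 = 0)) = true := by decide +kernel

theorem tzG12_val :
    (tzG12 2 5).1 = 0 ∧
      (tzG12 2 23).1 = 0 ∧
      (tzG12 2 41).1 = 1 ∧
      (tzG12 0 5).2 = 0 ∧
      (tzG12 0 14).2 = 0 ∧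
      (tzG12 0 23).2 = 0 ∧
      (tzG12 0 32).2 = 0 ∧
      (tzG12 0 41).2 = (-1) ∧
      (tzG12 0 50).2 = 1 := by
  decide +kernel

theorem tzG12_Q : (rG10.map fun c => c.Q tzG12).sum = 32750 := by decide +kernel

theorem twG12_slack : (rG10.all fun c => decide (c.slack twG12 = 130 * c.Q tzG12 - 32750)) = true := by decide +kernel

theorem twG12_val :
    (twG12 2 5).1 = 0 ∧
      (twG12 2 23).1 = 0 ∧
      (twG12 2 41).1 = 0 ∧
      (twG12 0 5).2 = 32750 ∧
      (twG12 0 14).2 = (-327500) ∧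
      (twG12 0 23).2 = 32750 ∧
      (twG12 0 32).2 = (-327500) ∧
      (twG12 0 41).2 = 32750 ∧
      (twG12 0 50).2 = (-112500) := by
  decide +kernel

theorem tG1_pol01 : (rG10.all fun c => decide (c.pol tzG10 tzG11 = 0)) = true := by decide +kernel

theorem tG1_pol02 : (rG10.all fun c => decide (c.pol tzG10 tzG12 = 0)) = true := by decide +kernel

theorem tG1_pol12 : (rG10.all fun c => decide (c.pol tzG11 tzG12 = 0)) = true := by decide +kernel

theorem tdG1_slack : (cG1.all fun c => decide (c.slack tdG1 = if c ∈ rG10 then 0 else 1)) = true := by decide +kernel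

theorem tdG1_val :
    (tdG1 2 5).1 = 0 ∧
      (tdG1 2 23).1 = 0 ∧
      (tdG1 2 41).1 = 0 ∧
      (tdG1 0 5).2 = (-4) ∧
      (tdG1 0 14).2 = (-22) ∧
      (tdG1 0 23).2 = (-4) ∧
      (tdG1 0 32).2 = (-22) ∧
      (tdG1 0 41).2 = (-4) ∧
      (tdG1 0 50).2 = (-22) := by
  decide +kernel

theorem tzF_slack : (cF.all fun c => decide (c.slack tzF = 0)) = true := by decide +kernel

theorem tzF_val :
    (tzF 4 2).1 = 1 ∧
      (tzF 10 17).1 = 0 ∧
      (tzF 10 17).2 = 0 := by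
  decide +kernel

theorem twF_slack : (cF.all fun c => decide (c.slack twF = 86 * c.Q tzF + 32750)) = true := by decide +kernel

theorem twF_val :
    (twF 10 17).1 = 32750 ∧
      (twF 10 17).2 = 1408250 := by
  decide +kernel

theorem cF_sub : (cF.all fun c => decide (c ∈ rE0)) = true := by decide +kernel

theorem rE0_sub : (rE0.all fun c => decide (c ∈ cF)) = true := by decide +kernel

theorem tfE_slack : (cE.all fun c => decide (c ∈ rE0 ∨ 1 ≤ c.slack tfE)) = true := by decide +kernel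

theorem tfE_val :
    a3 (tfE 10 0) = (-200) ∧
      (tfE 10 17).1 = 0 ∧
      (tfE 10 17).2 = 0 := by
  decide +kernel

theorem tfE_zero : (rE0.all fun c => decide (∀ r ∈ c.rooms, tfE r.1 r.2 = (0, 0))) = true := by decide +kernel

theorem tzU_slack : (cUu.all fun c => decide (c.slack tzU = 0)) = true := by decide +kernel

theorem tzU_val :
    (tzU 2 5).1 = (-1) ∧
      (tzU 0 5).2 = 1 ∧
      (tzU 0 14).2 = (-1) := by
  decide +kernel

theorem tdU_slack : (cUu.all fun c => decide (c.slack tdU = 1)) = true := by decide +kernel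

theorem tdU_val :
    (tdU 2 5).1 = 0 ∧
      (tdU 0 5).2 = (-5) ∧
      (tdU 0 14).2 = (-24) := by
  decide +kernel

theorem tfU_slack : (cUr.all fun c => decide (1 ≤ c.slack tfU)) = true := by decide +kernel

theorem tfU_val :
    a3 (tfU 19 0) = (-200) := by
  decide +kernel

theorem tfU_zero : (cUu.all fun c => decide (∀ r ∈ c.rooms, tfU r.1 r.2 = (0, 0))) = true := by decide +kernel

theorem cU_split : (cU.all fun c => decide (c ∈ cUu ∨ c ∈ cUr)) = true := by decide +kernel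

theorem cUu_sub : (cUu.all fun c => decide (c ∈ cU)) = true := by decide +kernel

theorem cUr_sub : (cUr.all fun c => decide (c ∈ cU)) = true := by decide +kernel

theorem tsV_bd : (tsVt.all fun e => decide (|e.2.2.1| ≤ 1 ∧ |e.2.2.2| ≤ 1)) = true := by decide +kernel

theorem tdV_bd : (tdVt.all fun e => decide (|e.2.2.1| ≤ 17 ∧ |e.2.2.2| ≤ 17)) = true := by decide +kernel

theorem tyT_bd : (tyTt.all fun e => decide (|e.2.2.1| ≤ 1 ∧ |e.2.2.2| ≤ 1)) = true := by decide +kernel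

theorem tsT_bd : (tsTt.all fun e => decide (|e.2.2.1| ≤ 1 ∧ |e.2.2.2| ≤ 1)) = true := by decide +kernel

theorem tdT_bd : (tdTt.all fun e => decide (|e.2.2.1| ≤ 26 ∧ |e.2.2.2| ≤ 26)) = true := by decide +kernel

theorem tyX_bd : (tyXt.all fun e => decide (|e.2.2.1| ≤ 1 ∧ |e.2.2.2| ≤ 1)) = true := by decide +kernel

theorem tsX_bd : (tsXt.all fun e => decide (|e.2.2.1| ≤ 1 ∧ |e.2.2.2| ≤ 1)) = true := by decide +kernel

theorem tdX_bd : (tdXt.all fun e => decide (|e.2.2.1| ≤ 36 ∧ |e.2.2.2| ≤ 36)) = true := by decide +kernel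

theorem tyA_bd : (tyAt.all fun e => decide (|e.2.2.1| ≤ 1 ∧ |e.2.2.2| ≤ 1)) = true := by decide +kernel

theorem tsA_bd : (tsAt.all fun e => decide (|e.2.2.1| ≤ 1 ∧ |e.2.2.2| ≤ 1)) = true := by decide +kernel

theorem tdA_bd : (tdAt.all fun e => decide (|e.2.2.1| ≤ 66 ∧ |e.2.2.2| ≤ 66)) = true := by decide +kernel

theorem tzS_bd : (tzSt.all fun e => decide (|e.2.2.1| ≤ 1 ∧ |e.2.2.2| ≤ 1)) = true := by decide +kernel

theorem tdS_bd : (tdSt.all fun e => decide (|e.2.2.1| ≤ 24 ∧ |e.2.2.2| ≤ 24)) = true := by decide +kernel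

theorem tzG00_bd : (tzG00t.all fun e => decide (|e.2.2.1| ≤ 1 ∧ |e.2.2.2| ≤ 1)) = true := by decide +kernel

theorem twG00_bd : (twG00t.all fun e => decide (|e.2.2.1| ≤ 7806168 ∧ |e.2.2.2| ≤ 7806168)) = true := by decide +kernel

theorem tzG01_bd : (tzG01t.all fun e => decide (|e.2.2.1| ≤ 1 ∧ |e.2.2.2| ≤ 1)) = true := by decide +kernel

theorem twG01_bd : (twG01t.all fun e => decide (|e.2.2.1| ≤ 7140052 ∧ |e.2.2.2| ≤ 7140052)) = true := by decide +kernel

theorem tzG02_bd : (tzG02t.all fun e => decide (|e.2.2.1| ≤ 1 ∧ |e.2.2.2| ≤ 1)) = true := by decide +kernel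

theorem twG02_bd : (twG02t.all fun e => decide (|e.2.2.1| ≤ 7140052 ∧ |e.2.2.2| ≤ 7140052)) = true := by decide +kernel

theorem tdG0_bd : (tdG0t.all fun e => decide (|e.2.2.1| ≤ 22 ∧ |e.2.2.2| ≤ 22)) = true := by decide +kernel

theorem tzG10_bd : (tzG10t.all fun e => decide (|e.2.2.1| ≤ 1 ∧ |e.2.2.2| ≤ 1)) = true := by decide +kernel

theorem twG10_bd : (twG10t.all fun e => decide (|e.2.2.1| ≤ 8063340 ∧ |e.2.2.2| ≤ 8063340)) = true := by decide +kernel

theorem tzG11_bd : (tzG11t.all fun e => decide (|e.2.2.1| ≤ 1 ∧ |e.2.2.2| ≤ 1)) = true := by decide +kernel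

theorem twG11_bd : (twG11t.all fun e => decide (|e.2.2.1| ≤ 9332760 ∧ |e.2.2.2| ≤ 9332760)) = true := by decide +kernel

theorem tzG12_bd : (tzG12t.all fun e => decide (|e.2.2.1| ≤ 1 ∧ |e.2.2.2| ≤ 1)) = true := by decide +kernel

theorem twG12_bd : (twG12t.all fun e => decide (|e.2.2.1| ≤ 7367760 ∧ |e.2.2.2| ≤ 7367760)) = true := by decide +kernel

theorem tdG1_bd : (tdG1t.all fun e => decide (|e.2.2.1| ≤ 22 ∧ |e.2.2.2| ≤ 22)) = true := by decide +kernel

theorem tzF_bd : (tzFt.all fun e => decide (|e.2.2.1| ≤ 1 ∧ |e.2.2.2| ≤ 1)) = true := by decide +kernel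

theorem twF_bd : (twFt.all fun e => decide (|e.2.2.1| ≤ 5234448 ∧ |e.2.2.2| ≤ 5234448)) = true := by decide +kernel

theorem tfE_bd : (tfEt.all fun e => decide (|e.2.2.1| ≤ 199 ∧ |e.2.2.2| ≤ 199)) = true := by decide +kernel

theorem tzU_bd : (tzUt.all fun e => decide (|e.2.2.1| ≤ 1 ∧ |e.2.2.2| ≤ 1)) = true := by decide +kernel

theorem tdU_bd : (tdUt.all fun e => decide (|e.2.2.1| ≤ 24 ∧ |e.2.2.2| ≤ 24)) = true := by decide +kernel

theorem tfU_bd : (tfUt.all fun e => decide (|e.2.2.1| ≤ 199 ∧ |e.2.2.2| ≤ 199)) = true := by decide +kernel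

end Pool.Agent.Lib.MP_6ff0c5_lc.N
end

section

/-!
MP_6ff0c5_lc, part B: the rooms of the constraints (checked in the kernel).
-/

set_option autoImplicit false

namespace Pool.Agent.Lib.MP_6ff0c5_lc.N

theorem rooms_V : (cV.all fun c => decide (∀ r ∈ c.rooms, r ∈ bV.rooms)) = true := by decide +kernel

theorem rooms_T : (cT.all fun c => decide (∀ r ∈ c.rooms, r ∈ bT.rooms)) = true := by decide +kernel

theorem rooms_X : (cX.all fun c => decide (∀ r ∈ c.rooms, r ∈ bX.rooms)) = true := by decide +kernel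

theorem rooms_A : (cA.all fun c => decide (∀ r ∈ c.rooms, r ∈ bA.rooms)) = true := by decide +kernel

theorem rooms_S : (cS.all fun c => decide (∀ r ∈ c.rooms, r ∈ bS.rooms)) = true := by decide +kernel

theorem rooms_G0 : (cG0.all fun c => decide (∀ r ∈ c.rooms, r ∈ bG0.rooms)) = true := by decide +kernel

theorem rooms_G1 : (cG1.all fun c => decide (∀ r ∈ c.rooms, r ∈ bG1.rooms)) = true := by decide +kernel

theorem rooms_E : (cE.all fun c => decide (∀ r ∈ c.rooms, r ∈ bE.rooms)) = true := by decide +kernel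

theorem rooms_F : (cF.all fun c => decide (∀ r ∈ c.rooms, r ∈ bF.rooms)) = true := by decide +kernel

theorem rooms_U : (cU.all fun c => decide (∀ r ∈ c.rooms, r ∈ bU.rooms)) = true := by decide +kernel

theorem rooms_G0r : (rG00.all fun c => decide (∀ r ∈ c.rooms, r ∈ rG0r)) = true := by decide +kernel

theorem rooms_G0r_sub : (rG0r.all fun r => decide (r ∈ bG0.rooms)) = true := by decide +kernel

theorem rooms_G1r : (rG10.all fun c => decide (∀ r ∈ c.rooms, r ∈ rG1r)) = true := by decide +kernel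

theorem rooms_G1r_sub : (rG1r.all fun r => decide (r ∈ bG1.rooms)) = true := by decide +kernel

theorem rooms_Uu : (cUu.all fun c => decide (∀ r ∈ c.rooms, r ∈ bU.rooms ∧ r.1 < 4 ∧ r.2 < 15)) = true := by decide +kernel

theorem rooms_rU1 : (rU1.all fun c => decide (c ∈ cUu)) = true := by decide +kernel

theorem rooms_rU2 : (rU2.all fun c => decide (c ∈ cUu)) = true := by decide +kernel

theorem inside_V : (bV.rooms.all fun r => bV.inside r.1 r.2) = true := by decide +kernel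

theorem inside_T : (bT.rooms.all fun r => bT.inside r.1 r.2) = true := by decide +kernel

theorem inside_X : (bX.rooms.all fun r => bX.inside r.1 r.2) = true := by decide +kernel

theorem inside_A : (bA.rooms.all fun r => bA.inside r.1 r.2) = true := by decide +kernel

theorem inside_S : (bS.rooms.all fun r => bS.inside r.1 r.2) = true := by decide +kernel

theorem inside_G0 : (bG0.rooms.all fun r => bG0.inside r.1 r.2) = true := by decide +kernel

theorem inside_G1 : (bG1.rooms.all fun r => bG1.inside r.1 r.2) = true := by decide +kernel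

theorem inside_E : (bE.rooms.all fun r => bE.inside r.1 r.2) = true := by decide +kernel

theorem inside_F : (bF.rooms.all fun r => bF.inside r.1 r.2) = true := by decide +kernel

theorem inside_U : (bU.rooms.all fun r => bU.inside r.1 r.2) = true := by decide +kernel

theorem tsV_sub : (tsVt.all fun e => decide ((e.1, e.2.1) ∈ bV.rooms)) = true := by decide +kernel

theorem tdV_sub : (tdVt.all fun e => decide ((e.1, e.2.1) ∈ bV.rooms)) = true := by decide +kernel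

theorem tyT_sub : (tyTt.all fun e => decide ((e.1, e.2.1) ∈ bT.rooms)) = true := by decide +kernel

theorem tsT_sub : (tsTt.all fun e => decide ((e.1, e.2.1) ∈ bT.rooms)) = true := by decide +kernel

theorem tdT_sub : (tdTt.all fun e => decide ((e.1, e.2.1) ∈ bT.rooms)) = true := by decide +kernel

theorem tyX_sub : (tyXt.all fun e => decide ((e.1, e.2.1) ∈ bX.rooms)) = true := by decide +kernel

theorem tsX_sub : (tsXt.all fun e => decide ((e.1, e.2.1) ∈ bX.rooms)) = true := by decide +kernel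

theorem tdX_sub : (tdXt.all fun e => decide ((e.1, e.2.1) ∈ bX.rooms)) = true := by decide +kernel

theorem tyA_sub : (tyAt.all fun e => decide ((e.1, e.2.1) ∈ bA.rooms)) = true := by decide +kernel

theorem tsA_sub : (tsAt.all fun e => decide ((e.1, e.2.1) ∈ bA.rooms)) = true := by decide +kernel

theorem tdA_sub : (tdAt.all fun e => decide ((e.1, e.2.1) ∈ bA.rooms)) = true := by decide +kernel

theorem tzS_sub : (tzSt.all fun e => decide ((e.1, e.2.1) ∈ bS.rooms)) = true := by decide +kernel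

theorem tdS_sub : (tdSt.all fun e => decide ((e.1, e.2.1) ∈ bS.rooms)) = true := by decide +kernel

theorem tzG00_sub : (tzG00t.all fun e => decide ((e.1, e.2.1) ∈ bG0.rooms)) = true := by decide +kernel

theorem twG00_sub : (twG00t.all fun e => decide ((e.1, e.2.1) ∈ bG0.rooms)) = true := by decide +kernel

theorem tzG01_sub : (tzG01t.all fun e => decide ((e.1, e.2.1) ∈ bG0.rooms)) = true := by decide +kernel

theorem twG01_sub : (twG01t.all fun e => decide ((e.1, e.2.1) ∈ bG0.rooms)) = true := by decide +kernel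

theorem tzG02_sub : (tzG02t.all fun e => decide ((e.1, e.2.1) ∈ bG0.rooms)) = true := by decide +kernel

theorem twG02_sub : (twG02t.all fun e => decide ((e.1, e.2.1) ∈ bG0.rooms)) = true := by decide +kernel

theorem tdG0_sub : (tdG0t.all fun e => decide ((e.1, e.2.1) ∈ bG0.rooms)) = true := by decide +kernel

theorem tzG10_sub : (tzG10t.all fun e => decide ((e.1, e.2.1) ∈ bG1.rooms)) = true := by decide +kernel

theorem twG10_sub : (twG10t.all fun e => decide ((e.1, e.2.1) ∈ bG1.rooms)) = true := by decide +kernel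

theorem tzG11_sub : (tzG11t.all fun e => decide ((e.1, e.2.1) ∈ bG1.rooms)) = true := by decide +kernel

theorem twG11_sub : (twG11t.all fun e => decide ((e.1, e.2.1) ∈ bG1.rooms)) = true := by decide +kernel

theorem tzG12_sub : (tzG12t.all fun e => decide ((e.1, e.2.1) ∈ bG1.rooms)) = true := by decide +kernel

theorem twG12_sub : (twG12t.all fun e => decide ((e.1, e.2.1) ∈ bG1.rooms)) = true := by decide +kernel

theorem tdG1_sub : (tdG1t.all fun e => decide ((e.1, e.2.1) ∈ bG1.rooms)) = true := by decide +kernel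

theorem tzF_sub : (tzFt.all fun e => decide ((e.1, e.2.1) ∈ bF.rooms)) = true := by decide +kernel

theorem twF_sub : (twFt.all fun e => decide ((e.1, e.2.1) ∈ bF.rooms)) = true := by decide +kernel

theorem tfE_sub : (tfEt.all fun e => decide ((e.1, e.2.1) ∈ bE.rooms)) = true := by decide +kernel

theorem tzU_sub : (tzUt.all fun e => decide ((e.1, e.2.1) ∈ bU.rooms)) = true := by decide +kernel

theorem tdU_sub : (tdUt.all fun e => decide ((e.1, e.2.1) ∈ bU.rooms)) = true := by decide +kernel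

theorem tfU_sub : (tfUt.all fun e => decide ((e.1, e.2.1) ∈ bU.rooms)) = true := by decide +kernel

theorem tzU_u : (tzUt.all fun e => decide (e.1 < 4 ∧ e.2.1 < 15)) = true := by decide +kernel

theorem tdU_u : (tdUt.all fun e => decide (e.1 < 4 ∧ e.2.1 < 15)) = true := by decide +kernel

theorem tfU_u : (tfUt.all fun e => decide (4 ≤ e.1 ∨ 15 ≤ e.2.1)) = true := by decide +kernel

end Pool.Agent.Lib.MP_6ff0c5_lc.N
end
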