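import Pool.Agent.Lib.MP_6ff0c5_lc.Net.Blk
import Pool.Agent.Lib.MP_6ff0c5_lc.Net.Bound

section

section

/-!
MP_6ff0c5_lc, part B: the blocks of the network and their internal constraints (generated data, checked here).
-/

set_option autoImplicit false

namespace Pool.Agent.Lib.MP_6ff0c5_lc.N

/-- vertical string -/
def bV : Blk where
  w := 1
  h := 1
  base := 1
  exA :=
    []
  exC :=
    [(2, -1, false)]
  ext := [.p3 3 0, .h3 3 0, .p2 3 8]

def cV : List Con :=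
  [.p1 3 0, .h3 3 1, .p1 3 1, .h3 3 2, .p1 3 2, .h3 3 3, .p1 3 3, .h3 3 4, .p1 3 4, .h3 3 5, .p1 3 5, .h3 3 6,
   .p1 3 6, .h3 3 7, .p1 3 7, .h3 3 8, .p1 3 8]

/-- a lane ends in a string -/
def bT : Blk where
  w := 1
  h := 1
  base := 2
  exA :=
    [(9, 5, true)]
  exC :=
    [(2, -1, false)]
  ext := [.p3 3 0, .h3 3 0, .p2 3 8, .h1 8 5]

def cT : List Con :=
  [.p1 3 0, .h3 3 1, .p1 3 1, .h3 3 2, .p1 3 2, .h3 3 3, .p1 3 3, .h3 3 4, .p1 3 4, .h1 3 5, .h3 3 5, .h1 4 5,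
   .p3 4 5, .h1 5 5, .p3 5 5, .h1 6 5, .p3 6 5, .h1 7 5, .p3 7 5, .p3 8 5, .h3 3 6, .p1 3 6, .h3 3 7, .p1 3 7,
   .h3 3 8, .p1 3 8]

/-- crossing -/
def bX : Blk where
  w := 1
  h := 1
  base := 3
  exA :=
    [(-1, 5, true), (4, -1, false), (5, -1, false), (6, -1, false), (9, 3, false), (9, 4, false), (9, 5, true)]
  exC :=
    [(-1, 4, false), (2, -1, false), (3, -1, false), (4, -1, false), (5, -1, false)]
  ext := [.p3 3 0, .h3 3 0, .p2 3 8, .h1 8 5]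

def cX : List Con :=
  [.h1 3 0, .p2 3 0, .h1 4 0, .p3 4 0, .h1 5 0, .p3 5 0, .cp 6 0, .p3 6 0, .h3 5 1, .p1 5 1, .p1 7 1, .h1 1 2,
   .p3 1 2, .h1 2 2, .p3 2 2, .h1 3 2, .p3 3 2, .h1 4 2, .p3 4 2, .h1 5 2, .h3 5 2, .h1 6 2, .p3 6 2, .h3 7 2,
   .cp 7 2, .h3 1 3, .p1 1 3, .h3 6 3, .p1 6 3, .p1 8 3, .h3 1 4, .p1 1 4, .h1 6 4, .h3 6 4, .h1 7 4, .p3 7 4,
   .h3 8 4, .p1 8 4, .h1 0 5, .p3 0 5, .h3 1 5, .p1 1 5, .h3 6 5, .p1 6 5, .h3 8 5, .p2 8 5, .h3 6 6, .p1 6 6,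
   .h1 3 7, .p3 3 7, .h1 4 7, .p3 4 7, .h1 5 7, .p3 5 7, .h3 6 7, .p1 6 7, .h3 3 8, .p1 3 8]

/-- crossing with addition -/
def bA : Blk where
  w := 1
  h := 1
  base := 4
  exA :=
    [(-1, 5, true), (4, -1, false), (5, -1, false), (6, -1, false), (9, 3, false), (9, 4, false), (9, 5, true)]
  exC :=
    [(-1, 4, false), (2, -1, false), (3, -1, false), (4, -1, false), (5, -1, false)]
  ext := [.p3 3 0, .h3 3 0, .p2 3 8, .h1 8 5]

def cA : List Con :=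
  [.h1 3 0, .p2 3 0, .h1 4 0, .p3 4 0, .h1 5 0, .p3 5 0, .cp 6 0, .p3 6 0, .h3 5 1, .p1 5 1, .p1 7 1, .h1 1 2,
   .p3 1 2, .h1 2 2, .p3 2 2, .h1 3 2, .p3 3 2, .h1 4 2, .p3 4 2, .h1 5 2, .h3 5 2, .h1 6 2, .p3 6 2, .h3 7 2,
   .cp 7 2, .h3 1 3, .p1 1 3, .h3 3 3, .p1 3 3, .h3 6 3, .p1 6 3, .p1 8 3, .h3 1 4, .p1 1 4, .h3 3 4, .p1 3 4,
   .h1 6 4, .h3 6 4, .h1 7 4, .p3 7 4, .h3 8 4, .p1 8 4, .h1 0 5, .p3 0 5, .h3 1 5, .p1 1 5, .h3 3 5, .p1 3 5,
   .h3 6 5, .p1 6 5, .h3 8 5, .p2 8 5, .h3 3 6, .p1 3 6, .h3 6 6, .p1 6 6, .h1 3 7, .h3 3 7, .h1 4 7, .p3 4 7,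
   .h1 5 7, .p3 5 7, .h3 6 7, .p1 6 7, .h3 3 8, .p1 3 8]

/-- source of a pair of lanes -/
def bS : Blk where
  w := 1
  h := 2
  base := 5
  exA :=
    [(-1, 5, true), (-1, 14, true)]
  exC :=
    [(-1, 4, false), (-1, 13, false)]
  ext := []

def cS : List Con :=
  [.h1 0 5, .p3 0 5, .h1 1 5, .p3 1 5, .cp 2 5, .p3 2 5, .p1 3 6, .h3 3 7, .p1 3 7, .h3 3 8, .p1 3 8, .h3 3 9,
   .p1 3 9, .h3 3 10, .p1 3 10, .h3 3 11, .p1 3 11, .h3 3 12, .p1 3 12, .h3 3 13, .p1 3 13, .h1 0 14, .p3 0 14,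
   .h1 1 14, .p3 1 14, .h1 2 14, .p3 2 14, .h3 3 14, .p1 3 14]

/-- gate of type I -/
def bG0 : Blk where
  w := 1
  h := 6
  base := 7
  exA :=
    [(-1, 5, true), (-1, 14, true), (-1, 23, true), (-1, 32, true), (-1, 41, true), (-1, 50, true), (9, 10, false),
     (9, 11, false), (9, 12, false), (9, 13, false), (9, 14, false), (9, 15, false), (9, 16, false), (9, 17, false),
     (9, 18, false), (9, 19, false), (9, 20, false), (9, 21, false), (9, 22, false)]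
  exC :=
    [(-1, 4, false), (-1, 13, false), (-1, 22, false), (-1, 31, false), (-1, 40, false), (-1, 49, false)]
  ext := []

def cG0 : List Con :=
  [.h1 0 5, .p3 0 5, .h1 1 5, .p3 1 5, .h1 2 5, .p3 2 5, .cp 3 5, .p3 3 5, .h3 2 6, .cp 2 6, .p2 2 6, .cp 4 6,
   .p2 4 6, .cp 3 7, .p2 3 7, .cp 5 7, .p2 5 7, .cp 4 8, .p2 4 8, .p1 6 8, .h1 5 9, .p2 5 9, .h1 6 9, .h3 6 9,
   .cp 7 9, .p3 7 9, .h3 6 10, .p1 6 10, .p1 8 10, .h3 6 11, .p1 6 11, .h3 8 11, .p1 8 11, .h3 6 12, .p1 6 12,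
   .h3 8 12, .p1 8 12, .h3 6 13, .p1 6 13, .h3 8 13, .p1 8 13, .h1 0 14, .p3 0 14, .h1 1 14, .p3 1 14, .h1 2 14,
   .p3 2 14, .h1 3 14, .p3 3 14, .h1 4 14, .p3 4 14, .h1 5 14, .p3 5 14, .h3 6 14, .p1 6 14, .h3 8 14, .p1 8 14,
   .h3 8 15, .p1 8 15, .h3 8 16, .p1 8 16, .h3 8 17, .p1 8 17, .h3 8 18, .p1 8 18, .h3 8 19, .p1 8 19, .h3 8 20,
   .p1 8 20, .h3 8 21, .p1 8 21, .h1 3 22, .p3 3 22, .h1 4 22, .p3 4 22, .h1 5 22, .p3 5 22, .h1 6 22, .p3 6 22,
   .h1 7 22, .p3 7 22, .h3 8 22, .p1 8 22, .h1 0 23, .p3 0 23, .h1 1 23, .p3 1 23, .h1 2 23, .p3 2 23, .h3 3 23,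
   .cp 3 23, .h3 2 24, .cp 2 24, .p2 2 24, .cp 4 24, .p2 4 24, .cp 3 25, .p2 3 25, .p1 5 25, .h1 4 26, .p2 4 26,
   .h1 5 26, .h3 5 26, .cp 6 26, .p3 6 26, .h3 5 27, .p1 5 27, .p1 7 27, .h3 5 28, .p1 5 28, .h3 7 28, .p1 7 28,
   .h3 5 29, .p1 5 29, .h3 7 29, .p1 7 29, .h3 5 30, .p1 5 30, .h3 7 30, .p1 7 30, .h3 5 31, .p1 5 31, .h3 7 31,
   .p1 7 31, .h1 0 32, .p3 0 32, .h1 1 32, .p3 1 32, .h1 2 32, .p3 2 32, .h1 3 32, .p3 3 32, .h1 4 32, .p3 4 32,
   .h3 5 32, .p1 5 32, .h3 7 32, .p1 7 32, .h3 7 33, .p1 7 33, .h3 7 34, .p1 7 34, .h3 7 35, .p1 7 35, .h3 7 36,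
   .p1 7 36, .h3 7 37, .p1 7 37, .h3 7 38, .p1 7 38, .h3 7 39, .p1 7 39, .h1 3 40, .p3 3 40, .h1 4 40, .p3 4 40,
   .h1 5 40, .p3 5 40, .h1 6 40, .p3 6 40, .h3 7 40, .p1 7 40, .h1 0 41, .p3 0 41, .h1 1 41, .p3 1 41, .h1 2 41,
   .p3 2 41, .h3 3 41, .cp 3 41, .h3 2 42, .cp 2 42, .p2 2 42, .cp 4 42, .p2 4 42, .cp 3 43, .p2 3 43, .p1 5 43,
   .h1 4 44, .p2 4 44, .h3 5 44, .p1 5 44, .h3 5 45, .p1 5 45, .h3 5 46, .p1 5 46, .h3 5 47, .p1 5 47, .h3 5 48,
   .p1 5 48, .h3 5 49, .p1 5 49, .h1 0 50, .p3 0 50, .h1 1 50, .p3 1 50, .h1 2 50, .p3 2 50, .h1 3 50, .p3 3 50,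
   .h1 4 50, .p3 4 50, .h3 5 50, .p1 5 50]

/-- gate of type II -/
def bG1 : Blk where
  w := 1
  h := 6
  base := 13
  exA :=
    [(-1, 5, true), (-1, 14, true), (-1, 23, true), (-1, 32, true), (-1, 41, true), (-1, 50, true), (9, 10, false),
     (9, 11, false), (9, 12, false), (9, 13, false), (9, 14, false), (9, 15, false), (9, 16, false), (9, 17, false),
     (9, 18, false), (9, 19, false), (9, 20, false), (9, 21, false), (9, 22, false), (9, 28, false), (9, 29, false),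
     (9, 30, false), (9, 31, false), (9, 32, false), (9, 33, false), (9, 34, false), (9, 35, false), (9, 36, false),
     (9, 37, false), (9, 38, false), (9, 39, false), (9, 40, false)]
  exC :=
    [(-1, 4, false), (-1, 13, false), (-1, 22, false), (-1, 31, false), (-1, 40, false), (-1, 49, false)]
  ext := []

def cG1 : List Con :=
  [.h1 0 5, .p3 0 5, .h1 1 5, .p3 1 5, .h1 2 5, .p3 2 5, .cp 3 5, .p3 3 5, .h3 2 6, .cp 2 6, .p2 2 6, .cp 4 6,
   .p2 4 6, .cp 3 7, .p2 3 7, .cp 5 7, .p2 5 7, .cp 4 8, .p2 4 8, .p1 6 8, .h1 5 9, .p2 5 9, .h1 6 9, .h3 6 9,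
   .cp 7 9, .p3 7 9, .h3 6 10, .p1 6 10, .p1 8 10, .h3 6 11, .p1 6 11, .h3 8 11, .p1 8 11, .h3 6 12, .p1 6 12,
   .h3 8 12, .p1 8 12, .h3 6 13, .p1 6 13, .h3 8 13, .p1 8 13, .h1 0 14, .p3 0 14, .h1 1 14, .p3 1 14, .h1 2 14,
   .p3 2 14, .h1 3 14, .p3 3 14, .h1 4 14, .p3 4 14, .h1 5 14, .p3 5 14, .h3 6 14, .p1 6 14, .h3 8 14, .p1 8 14,
   .h3 8 15, .p1 8 15, .h3 8 16, .p1 8 16, .h3 8 17, .p1 8 17, .h3 8 18, .p1 8 18, .h3 8 19, .p1 8 19, .h3 8 20,
   .p1 8 20, .h3 8 21, .p1 8 21, .h1 3 22, .p3 3 22, .h1 4 22, .p3 4 22, .h1 5 22, .p3 5 22, .h1 6 22, .p3 6 22,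
   .h1 7 22, .p3 7 22, .h3 8 22, .p1 8 22, .h1 0 23, .p3 0 23, .h1 1 23, .p3 1 23, .h1 2 23, .p3 2 23, .h3 3 23,
   .cp 3 23, .h3 2 24, .cp 2 24, .p2 2 24, .cp 4 24, .p2 4 24, .cp 3 25, .p2 3 25, .cp 5 25, .p2 5 25, .cp 4 26,
   .p2 4 26, .p1 6 26, .h1 5 27, .p2 5 27, .h1 6 27, .h3 6 27, .cp 7 27, .p3 7 27, .h3 6 28, .p1 6 28, .p1 8 28,
   .h3 6 29, .p1 6 29, .h3 8 29, .p1 8 29, .h3 6 30, .p1 6 30, .h3 8 30, .p1 8 30, .h3 6 31, .p1 6 31, .h3 8 31,
   .p1 8 31, .h1 0 32, .p3 0 32, .h1 1 32, .p3 1 32, .h1 2 32, .p3 2 32, .h1 3 32, .p3 3 32, .h1 4 32, .p3 4 32,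
   .h1 5 32, .p3 5 32, .h3 6 32, .p1 6 32, .h3 8 32, .p1 8 32, .h3 8 33, .p1 8 33, .h3 8 34, .p1 8 34, .h3 8 35,
   .p1 8 35, .h3 8 36, .p1 8 36, .h3 8 37, .p1 8 37, .h3 8 38, .p1 8 38, .h3 8 39, .p1 8 39, .h1 3 40, .p3 3 40,
   .h1 4 40, .p3 4 40, .h1 5 40, .p3 5 40, .h1 6 40, .p3 6 40, .h1 7 40, .p3 7 40, .h3 8 40, .p1 8 40, .h1 0 41,
   .p3 0 41, .h1 1 41, .p3 1 41, .h1 2 41, .p3 2 41, .h3 3 41, .cp 3 41, .h3 2 42, .cp 2 42, .p2 2 42, .cp 4 42,
   .p2 4 42, .cp 3 43, .p2 3 43, .p1 5 43, .h1 4 44, .p2 4 44, .h3 5 44, .p1 5 44, .h3 5 45, .p1 5 45, .h3 5 46,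
   .p1 5 46, .h3 5 47, .p1 5 47, .h3 5 48, .p1 5 48, .h3 5 49, .p1 5 49, .h1 0 50, .p3 0 50, .h1 1 50, .p3 1 50,
   .h1 2 50, .p3 2 50, .h1 3 50, .p3 3 50, .h1 4 50, .p3 4 50, .h3 5 50, .p1 5 50]

/-- block of the chain -/
def bE : Blk where
  w := 2
  h := 2
  base := 19
  exA :=
    [(-1, 0, false), (-1, 1, false), (-1, 2, false), (-1, 3, false), (-1, 4, false), (-1, 5, false), (-1, 6, false),
     (-1, 7, false), (-1, 8, false), (0, -1, false), (1, -1, false), (2, -1, false), (3, -1, false), (4, -1, false),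
     (5, -1, false), (6, -1, false), (7, -1, false), (8, -1, false), (9, -1, false), (10, -1, true), (10, 18, true)]
  exC :=
    [(-1, -1, false), (-1, 0, false), (-1, 1, false), (-1, 2, false), (-1, 3, false), (-1, 4, false), (-1, 5, false),
     (-1, 6, false), (-1, 7, false), (-1, 8, false), (0, -1, false), (1, -1, false), (2, -1, false), (3, -1, false),
     (4, -1, false), (5, -1, false), (6, -1, false), (7, -1, false), (8, -1, false), (9, -1, false)]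
  ext := [.h3 10 0]

def cE : List Con :=
  [.h1 0 0, .p3 0 0, .h1 1 0, .p3 1 0, .h1 2 0, .p3 2 0, .h1 3 0, .p3 3 0, .h1 4 0, .p3 4 0, .h1 5 0, .p3 5 0,
   .h1 6 0, .p3 6 0, .h1 7 0, .p3 7 0, .h1 8 0, .p3 8 0, .h1 9 0, .p3 9 0, .p1 10 0, .h3 0 1, .p1 0 1, .h3 2 1,
   .p1 2 1, .h3 0 2, .p1 0 2, .h1 2 2, .h3 2 2, .p2 2 2, .h1 3 2, .p3 3 2, .h1 4 2, .p3 4 2, .cp 5 2, .p3 5 2,
   .h3 0 3, .p1 0 3, .h3 4 3, .cp 4 3, .p2 4 3, .cp 6 3, .p2 6 3, .h3 0 4, .p1 0 4, .cp 5 4, .p2 5 4, .cp 7 4,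
   .p2 7 4, .h3 0 5, .p1 0 5, .cp 6 5, .p2 6 5, .p1 8 5, .h3 0 6, .p1 0 6, .h1 7 6, .p2 7 6, .h1 8 6, .h3 8 6,
   .cp 9 6, .p3 9 6, .h3 0 7, .p1 0 7, .h3 8 7, .p1 8 7, .p1 10 7, .h1 0 8, .h3 0 8, .p2 0 8, .h1 1 8, .p3 1 8,
   .h1 2 8, .p3 2 8, .h1 3 8, .p3 3 8, .h1 4 8, .p3 4 8, .h1 5 8, .p3 5 8, .h1 6 8, .p3 6 8, .h1 7 8, .p3 7 8,
   .h3 8 8, .p1 8 8, .h3 10 8, .p1 10 8, .h3 10 9, .p1 10 9, .h3 10 10, .p1 10 10, .h3 10 11, .p1 10 11, .h3 10 12,
   .p1 10 12, .h3 10 13, .p1 10 13, .h3 10 14, .p1 10 14, .h3 10 15, .p1 10 15, .h3 10 16, .p1 10 16, .h3 10 17,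
   .p1 10 17]

/-- first block of the chain -/
def bF : Blk where
  w := 2
  h := 2
  base := 23
  exA :=
    [(10, 18, true)]
  exC :=
    []
  ext := []

def cF : List Con :=
  [.h1 4 2, .p3 4 2, .cp 5 2, .p3 5 2, .h3 4 3, .cp 4 3, .p2 4 3, .cp 6 3, .p2 6 3, .cp 5 4, .p2 5 4, .cp 7 4,
   .p2 7 4, .cp 6 5, .p2 6 5, .p1 8 5, .h1 7 6, .p2 7 6, .h1 8 6, .h3 8 6, .cp 9 6, .p3 9 6, .p1 10 7, .h3 10 8,
   .p1 10 8, .h3 10 9, .p1 10 9, .h3 10 10, .p1 10 10, .h3 10 11, .p1 10 11, .h3 10 12, .p1 10 12, .h3 10 13,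
   .p1 10 13, .h3 10 14, .p1 10 14, .h3 10 15, .p1 10 15, .h3 10 16, .p1 10 16, .h3 10 17, .p1 10 17]

/-- source of the unit, comparator -/
def bU : Blk where
  w := 3
  h := 2
  base := 27
  exA :=
    [(-1, 5, true), (-1, 14, true), (19, -1, true)]
  exC :=
    [(-1, 4, false), (-1, 13, false), (18, -1, false)]
  ext := [.h3 19 0]

def cU : List Con :=
  [.p1 19 0, .h3 19 1, .p1 19 1, .h3 19 2, .p1 19 2, .h3 19 3, .p1 19 3, .h3 19 4, .p1 19 4, .h1 0 5, .p3 0 5,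
   .h1 1 5, .p3 1 5, .cp 2 5, .p3 2 5, .h3 19 5, .p1 19 5, .p1 3 6, .h3 19 6, .p1 19 6, .h3 3 7, .p1 3 7, .h3 19 7,
   .p1 19 7, .h3 3 8, .p1 3 8, .h3 19 8, .p1 19 8, .h3 3 9, .p1 3 9, .h3 19 9, .p1 19 9, .h3 3 10, .p1 3 10,
   .h3 19 10, .p1 19 10, .h3 3 11, .p1 3 11, .h3 19 11, .p1 19 11, .h3 3 12, .p1 3 12, .h3 19 12, .p1 19 12,
   .h3 3 13, .p1 3 13, .h3 19 13, .p1 19 13, .h1 0 14, .p3 0 14, .h1 1 14, .p3 1 14, .h1 2 14, .p3 2 14, .h3 3 14,
   .p1 3 14, .h3 19 14, .p1 19 14, .h1 3 15, .h3 3 15, .p2 3 15, .h1 4 15, .p3 4 15, .h1 5 15, .p3 5 15, .h1 6 15,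
   .p3 6 15, .h1 7 15, .p3 7 15, .h1 8 15, .p3 8 15, .h1 9 15, .p3 9 15, .h1 10 15, .p3 10 15, .h1 11 15, .p3 11 15,
   .h1 12 15, .p3 12 15, .h1 13 15, .p3 13 15, .h1 14 15, .p3 14 15, .h1 15 15, .p3 15 15, .h1 16 15, .p3 16 15,
   .h1 17 15, .p3 17 15, .h1 18 15, .p3 18 15, .h3 19 15, .p1 19 15]

theorem cons_V : bV.cons = cV := by decide +kernel

theorem known_V : bV.known = true := by decide +kernel

theorem cons_T : bT.cons = cT := by decide +kernel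

theorem known_T : bT.known = true := by decide +kernel

theorem cons_X : bX.cons = cX := by decide +kernel

theorem known_X : bX.known = true := by decide +kernel

theorem cons_A : bA.cons = cA := by decide +kernel

theorem known_A : bA.known = true := by decide +kernel

theorem cons_S : bS.cons = cS := by decide +kernel

theorem known_S : bS.known = true := by decide +kernel

theorem cons_G0 : bG0.cons = cG0 := by decide +kernel

theorem known_G0 : bG0.known = true := by decide +kernel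

theorem cons_G1 : bG1.cons = cG1 := by decide +kernel

theorem known_G1 : bG1.known = true := by decide +kernel

theorem cons_E : bE.cons = cE := by decide +kernel

theorem known_E : bE.known = true := by decide +kernel

theorem cons_F : bF.cons = cF := by decide +kernel

theorem known_F : bF.known = true := by decide +kernel

theorem cons_U : bU.cons = cU := by decide +kernel

theorem known_U : bU.known = true := by decide +kernel

end Pool.Agent.Lib.MP_6ff0c5_lc.N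
end

section

/-!
MP_6ff0c5_lc, part B: the linear relations of the blocks (generated data, checked here).
-/

set_option autoImplicit false
set_option linter.unusedSimpArgs false

namespace Pool.Agent.Lib.MP_6ff0c5_lc.N


def rX1 : List Con :=
  [.h1 5 0, .p3 5 0, .cp 6 0, .p3 6 0, .h3 5 1, .p1 5 1, .p1 7 1, .h1 1 2, .p3 1 2, .h1 2 2, .p3 2 2, .h1 3 2,
   .p3 3 2, .h1 4 2, .p3 4 2, .h1 5 2, .h3 5 2, .h1 6 2, .p3 6 2, .h3 7 2, .cp 7 2, .h3 1 3, .p1 1 3, .p1 8 3,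
   .h3 1 4, .p1 1 4, .h3 8 4, .p1 8 4, .h1 0 5, .p3 0 5, .h3 1 5, .p1 1 5, .h3 8 5, .p2 8 5]

theorem rX1_eq (a : ℤ → ℤ → ℝ × ℝ) : (rX1.map fun c => c.slack a).sum = -(a 0 5).2 - (a 8 5).1 := by
  simp only [rX1, List.map_cons, List.map_nil, List.sum_cons, List.sum_nil, Con.slack, a3]
  norm_num
  ring

def rA1 : List Con :=
  [.h1 5 0, .p3 5 0, .cp 6 0, .p3 6 0, .h3 5 1, .p1 5 1, .p1 7 1, .h1 1 2, .p3 1 2, .h1 2 2, .p3 2 2, .h1 3 2,
   .p3 3 2, .h1 4 2, .p3 4 2, .h1 5 2, .h3 5 2, .h1 6 2, .p3 6 2, .h3 7 2, .cp 7 2, .h3 1 3, .p1 1 3, .p1 8 3,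
   .h3 1 4, .p1 1 4, .h3 8 4, .p1 8 4, .h1 0 5, .p3 0 5, .h3 1 5, .p1 1 5, .h3 8 5, .p2 8 5]

theorem rA1_eq (a : ℤ → ℤ → ℝ × ℝ) : (rA1.map fun c => c.slack a).sum = -(a 0 5).2 - (a 8 5).1 := by
  simp only [rA1, List.map_cons, List.map_nil, List.sum_cons, List.sum_nil, Con.slack, a3]
  norm_num
  ring

def rX2 : List Con :=
  [.h1 3 0, .p2 3 0, .h1 4 0, .p3 4 0, .h1 5 0, .p3 5 0, .cp 6 0, .p3 6 0, .p1 7 1, .h1 6 2, .p3 6 2, .h3 7 2,
   .cp 7 2, .h3 6 3, .p1 6 3, .p1 8 3, .h1 6 4, .h3 6 4, .h1 7 4, .p3 7 4, .h3 8 4, .p1 8 4, .h3 6 5, .p1 6 5,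
   .h3 6 6, .p1 6 6, .h1 3 7, .p3 3 7, .h1 4 7, .p3 4 7, .h1 5 7, .p3 5 7, .h3 6 7, .p1 6 7, .h3 3 8, .p1 3 8]

theorem rX2_eq (a : ℤ → ℤ → ℝ × ℝ) : (rX2.map fun c => c.slack a).sum = -(a 3 8).2 - a3 (a 3 0) := by
  simp only [rX2, List.map_cons, List.map_nil, List.sum_cons, List.sum_nil, Con.slack, a3]
  norm_num
  ring

def rA2 : List Con :=
  [.h1 3 0, .p2 3 0, .h1 4 0, .p3 4 0, .h1 5 0, .h1 5 0, .p3 5 0, .p3 5 0, .cp 6 0, .cp 6 0, .p3 6 0, .p3 6 0,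
   .h3 5 1, .p1 5 1, .p1 7 1, .p1 7 1, .h1 3 2, .p3 3 2, .h1 4 2, .p3 4 2, .h1 5 2, .h3 5 2, .h1 6 2, .h1 6 2,
   .p3 6 2, .p3 6 2, .h3 7 2, .h3 7 2, .cp 7 2, .cp 7 2, .h3 3 3, .p1 3 3, .h3 6 3, .p1 6 3, .p1 8 3, .p1 8 3,
   .h3 3 4, .p1 3 4, .h1 6 4, .h3 6 4, .h1 7 4, .p3 7 4, .h3 8 4, .h3 8 4, .p1 8 4, .p1 8 4, .h3 3 5, .p1 3 5,
   .h3 6 5, .p1 6 5, .h3 8 5, .p2 8 5, .h3 3 6, .p1 3 6, .h3 6 6, .p1 6 6, .h1 3 7, .h3 3 7, .h1 4 7, .p3 4 7,
   .h1 5 7, .p3 5 7, .h3 6 7, .p1 6 7, .h3 3 8, .p1 3 8]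

theorem rA2_eq (a : ℤ → ℤ → ℝ × ℝ) : (rA2.map fun c => c.slack a).sum = -(a 3 8).2 - a3 (a 3 0) - (a 8 5).1 := by
  simp only [rA2, List.map_cons, List.map_nil, List.sum_cons, List.sum_nil, Con.slack, a3]
  norm_num
  ring

def rT2 : List Con :=
  [.p1 3 0, .h3 3 1, .p1 3 1, .h3 3 2, .p1 3 2, .h3 3 3, .p1 3 3, .h3 3 4, .p1 3 4, .h1 3 5, .h3 3 5, .h1 4 5,
   .p3 4 5, .h1 5 5, .p3 5 5, .h1 6 5, .p3 6 5, .h1 7 5, .p3 7 5, .p3 8 5, .h3 3 6, .p1 3 6, .h3 3 7, .p1 3 7,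
   .h3 3 8, .p1 3 8]

theorem rT2_eq (a : ℤ → ℤ → ℝ × ℝ) : (rT2.map fun c => c.slack a).sum = -(a 3 8).2 - a3 (a 3 0) - (a 8 5).1 := by
  simp only [rT2, List.map_cons, List.map_nil, List.sum_cons, List.sum_nil, Con.slack, a3]
  norm_num
  ring

def rV2 : List Con :=
  [.p1 3 0, .h3 3 1, .p1 3 1, .h3 3 2, .p1 3 2, .h3 3 3, .p1 3 3, .h3 3 4, .p1 3 4, .h3 3 5, .p1 3 5, .h3 3 6,
   .p1 3 6, .h3 3 7, .p1 3 7, .h3 3 8, .p1 3 8]

theorem rV2_eq (a : ℤ → ℤ → ℝ × ℝ) : (rV2.map fun c => c.slack a).sum = -(a 3 8).2 - a3 (a 3 0) := by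
  simp only [rV2, List.map_cons, List.map_nil, List.sum_cons, List.sum_nil, Con.slack, a3]
  norm_num
  ring

def rS1 : List Con :=
  [.h1 0 5, .p3 0 5, .h1 1 5, .p3 1 5, .p3 2 5]

theorem rS1_eq (a : ℤ → ℤ → ℝ × ℝ) : (rS1.map fun c => c.slack a).sum = -(a 0 5).2 - (a 2 5).1 := by
  simp only [rS1, List.map_cons, List.map_nil, List.sum_cons, List.sum_nil, Con.slack, a3]
  norm_num
  ring

def rS2 : List Con :=
  [.cp 2 5, .p1 3 6, .h3 3 7, .p1 3 7, .h3 3 8, .p1 3 8, .h3 3 9, .p1 3 9, .h3 3 10, .p1 3 10, .h3 3 11, .p1 3 11,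
   .h3 3 12, .p1 3 12, .h3 3 13, .p1 3 13, .h1 0 14, .p3 0 14, .h1 1 14, .p3 1 14, .h1 2 14, .p3 2 14, .h3 3 14,
   .p1 3 14]

theorem rS2_eq (a : ℤ → ℤ → ℝ × ℝ) : (rS2.map fun c => c.slack a).sum = -(a 0 14).2 + (a 2 5).1 := by
  simp only [rS2, List.map_cons, List.map_nil, List.sum_cons, List.sum_nil, Con.slack, a3]
  norm_num
  ring

def rG00 : List Con :=
  [.h1 2 5, .p3 2 5, .cp 3 5, .p3 3 5, .h3 2 6, .cp 2 6, .p2 2 6, .cp 4 6, .p2 4 6, .cp 3 7, .p2 3 7, .cp 5 7,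
   .p2 5 7, .cp 4 8, .p2 4 8, .p1 6 8, .h1 5 9, .p2 5 9, .h1 6 9, .h3 6 9, .cp 7 9, .p3 7 9, .p1 8 10, .h3 8 11,
   .p1 8 11, .h3 8 12, .p1 8 12, .h3 8 13, .p1 8 13, .h3 8 14, .p1 8 14, .h3 8 15, .p1 8 15, .h3 8 16, .p1 8 16,
   .h3 8 17, .p1 8 17, .h3 8 18, .p1 8 18, .h3 8 19, .p1 8 19, .h3 8 20, .p1 8 20, .h3 8 21, .p1 8 21, .h1 3 22,
   .p3 3 22, .h1 4 22, .p3 4 22, .h1 5 22, .p3 5 22, .h1 6 22, .p3 6 22, .h1 7 22, .p3 7 22, .h3 8 22, .p1 8 22,
   .h1 2 23, .p3 2 23, .h3 3 23, .cp 3 23, .h3 2 24, .cp 2 24, .p2 2 24, .cp 4 24, .p2 4 24, .cp 3 25, .p2 3 25,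
   .p1 5 25, .h1 4 26, .p2 4 26, .h1 5 26, .h3 5 26, .cp 6 26, .p3 6 26, .p1 7 27, .h3 7 28, .p1 7 28, .h3 7 29,
   .p1 7 29, .h3 7 30, .p1 7 30, .h3 7 31, .p1 7 31, .h3 7 32, .p1 7 32, .h3 7 33, .p1 7 33, .h3 7 34, .p1 7 34,
   .h3 7 35, .p1 7 35, .h3 7 36, .p1 7 36, .h3 7 37, .p1 7 37, .h3 7 38, .p1 7 38, .h3 7 39, .p1 7 39, .h1 3 40,
   .p3 3 40, .h1 4 40, .p3 4 40, .h1 5 40, .p3 5 40, .h1 6 40, .p3 6 40, .h3 7 40, .p1 7 40, .h1 2 41, .p3 2 41,
   .h3 3 41, .cp 3 41, .h3 2 42, .cp 2 42, .p2 2 42, .cp 4 42, .p2 4 42, .cp 3 43, .p2 3 43, .p1 5 43, .h1 4 44,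
   .p2 4 44, .h3 5 44, .p1 5 44]

theorem rG00_eq (a : ℤ → ℤ → ℝ × ℝ) : (rG00.map fun c => c.slack a).sum = 0 := by
  simp only [rG00, List.map_cons, List.map_nil, List.sum_cons, List.sum_nil, Con.slack, a3]
  norm_num
  ring

def rG0p0 : List Con :=
  [.h1 0 5, .p3 0 5, .h1 1 5, .p3 1 5, .p3 2 5]

theorem rG0p0_eq (a : ℤ → ℤ → ℝ × ℝ) : (rG0p0.map fun c => c.slack a).sum = -(a 0 5).2 - (a 2 5).1 := by
  simp only [rG0p0, List.map_cons, List.map_nil, List.sum_cons, List.sum_nil, Con.slack, a3]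
  norm_num
  ring

def rG0m0 : List Con :=
  [.h1 2 5, .cp 3 5, .p3 3 5, .cp 4 6, .p2 4 6, .cp 5 7, .p2 5 7, .p1 6 8, .h1 6 9, .h3 6 9, .cp 7 9, .p3 7 9,
   .h3 6 10, .p1 6 10, .p1 8 10, .h3 6 11, .p1 6 11, .h3 8 11, .p1 8 11, .h3 6 12, .p1 6 12, .h3 8 12, .p1 8 12,
   .h3 6 13, .p1 6 13, .h3 8 13, .p1 8 13, .h1 0 14, .p3 0 14, .h1 1 14, .p3 1 14, .h1 2 14, .p3 2 14, .h1 3 14,
   .p3 3 14, .h1 4 14, .p3 4 14, .h1 5 14, .p3 5 14, .h3 6 14, .p1 6 14, .h3 8 14, .p1 8 14, .h3 8 15, .p1 8 15,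
   .h3 8 16, .p1 8 16, .h3 8 17, .p1 8 17, .h3 8 18, .p1 8 18, .h3 8 19, .p1 8 19, .h3 8 20, .p1 8 20, .h3 8 21,
   .p1 8 21, .h1 3 22, .p3 3 22, .h1 4 22, .p3 4 22, .h1 5 22, .p3 5 22, .h1 6 22, .p3 6 22, .h1 7 22, .p3 7 22,
   .h3 8 22, .p1 8 22, .h1 2 23, .p3 2 23, .h3 3 23, .cp 3 23, .h3 2 24, .cp 2 24, .p2 2 24, .cp 4 24, .p2 4 24,
   .cp 3 25, .p2 3 25, .p1 5 25, .h1 4 26, .p2 4 26, .h1 5 26, .h3 5 26, .cp 6 26, .p3 6 26, .p1 7 27, .h3 7 28,
   .p1 7 28, .h3 7 29, .p1 7 29, .h3 7 30, .p1 7 30, .h3 7 31, .p1 7 31, .h3 7 32, .p1 7 32, .h3 7 33, .p1 7 33,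
   .h3 7 34, .p1 7 34, .h3 7 35, .p1 7 35, .h3 7 36, .p1 7 36, .h3 7 37, .p1 7 37, .h3 7 38, .p1 7 38, .h3 7 39,
   .p1 7 39, .h1 3 40, .p3 3 40, .h1 4 40, .p3 4 40, .h1 5 40, .p3 5 40, .h1 6 40, .p3 6 40, .h3 7 40, .p1 7 40,
   .h1 2 41, .p3 2 41, .h3 3 41, .cp 3 41, .h3 2 42, .cp 2 42, .p2 2 42, .cp 4 42, .p2 4 42, .cp 3 43, .p2 3 43,
   .p1 5 43, .h1 4 44, .p2 4 44, .h3 5 44, .p1 5 44]

theorem rG0m0_eq (a : ℤ → ℤ → ℝ × ℝ) : (rG0m0.map fun c => c.slack a).sum = -(a 0 14).2 + (a 2 5).1 := by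
  simp only [rG0m0, List.map_cons, List.map_nil, List.sum_cons, List.sum_nil, Con.slack, a3]
  norm_num
  ring

def rG0p1 : List Con :=
  [.h1 0 23, .p3 0 23, .h1 1 23, .p3 1 23, .p3 2 23]

theorem rG0p1_eq (a : ℤ → ℤ → ℝ × ℝ) : (rG0p1.map fun c => c.slack a).sum = -(a 0 23).2 - (a 2 23).1 := by
  simp only [rG0p1, List.map_cons, List.map_nil, List.sum_cons, List.sum_nil, Con.slack, a3]
  norm_num
  ring

def rG0m1 : List Con :=
  [.h1 2 5, .p3 2 5, .cp 3 5, .p3 3 5, .h3 2 6, .cp 2 6, .p2 2 6, .cp 4 6, .p2 4 6, .cp 3 7, .p2 3 7, .cp 5 7,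
   .p2 5 7, .cp 4 8, .p2 4 8, .p1 6 8, .h1 5 9, .p2 5 9, .h1 6 9, .h3 6 9, .cp 7 9, .p3 7 9, .p1 8 10, .h3 8 11,
   .p1 8 11, .h3 8 12, .p1 8 12, .h3 8 13, .p1 8 13, .h3 8 14, .p1 8 14, .h3 8 15, .p1 8 15, .h3 8 16, .p1 8 16,
   .h3 8 17, .p1 8 17, .h3 8 18, .p1 8 18, .h3 8 19, .p1 8 19, .h3 8 20, .p1 8 20, .h3 8 21, .p1 8 21, .h1 3 22,
   .p3 3 22, .h1 4 22, .p3 4 22, .h1 5 22, .p3 5 22, .h1 6 22, .p3 6 22, .h1 7 22, .p3 7 22, .h3 8 22, .p1 8 22,
   .h1 2 23, .h3 3 23, .cp 3 23, .cp 4 24, .p2 4 24, .p1 5 25, .h1 5 26, .h3 5 26, .cp 6 26, .p3 6 26, .h3 5 27,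
   .p1 5 27, .p1 7 27, .h3 5 28, .p1 5 28, .h3 7 28, .p1 7 28, .h3 5 29, .p1 5 29, .h3 7 29, .p1 7 29, .h3 5 30,
   .p1 5 30, .h3 7 30, .p1 7 30, .h3 5 31, .p1 5 31, .h3 7 31, .p1 7 31, .h1 0 32, .p3 0 32, .h1 1 32, .p3 1 32,
   .h1 2 32, .p3 2 32, .h1 3 32, .p3 3 32, .h1 4 32, .p3 4 32, .h3 5 32, .p1 5 32, .h3 7 32, .p1 7 32, .h3 7 33,
   .p1 7 33, .h3 7 34, .p1 7 34, .h3 7 35, .p1 7 35, .h3 7 36, .p1 7 36, .h3 7 37, .p1 7 37, .h3 7 38, .p1 7 38,
   .h3 7 39, .p1 7 39, .h1 3 40, .p3 3 40, .h1 4 40, .p3 4 40, .h1 5 40, .p3 5 40, .h1 6 40, .p3 6 40, .h3 7 40,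
   .p1 7 40, .h1 2 41, .p3 2 41, .h3 3 41, .cp 3 41, .h3 2 42, .cp 2 42, .p2 2 42, .cp 4 42, .p2 4 42, .cp 3 43,
   .p2 3 43, .p1 5 43, .h1 4 44, .p2 4 44, .h3 5 44, .p1 5 44]

theorem rG0m1_eq (a : ℤ → ℤ → ℝ × ℝ) : (rG0m1.map fun c => c.slack a).sum = -(a 0 32).2 + (a 2 23).1 := by
  simp only [rG0m1, List.map_cons, List.map_nil, List.sum_cons, List.sum_nil, Con.slack, a3]
  norm_num
  ring

def rG0p2 : List Con :=
  [.h1 0 41, .p3 0 41, .h1 1 41, .p3 1 41, .p3 2 41]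

theorem rG0p2_eq (a : ℤ → ℤ → ℝ × ℝ) : (rG0p2.map fun c => c.slack a).sum = -(a 0 41).2 - (a 2 41).1 := by
  simp only [rG0p2, List.map_cons, List.map_nil, List.sum_cons, List.sum_nil, Con.slack, a3]
  norm_num
  ring

def rG0m2 : List Con :=
  [.h1 2 5, .p3 2 5, .cp 3 5, .p3 3 5, .h3 2 6, .cp 2 6, .p2 2 6, .cp 4 6, .p2 4 6, .cp 3 7, .p2 3 7, .cp 5 7,
   .p2 5 7, .cp 4 8, .p2 4 8, .p1 6 8, .h1 5 9, .p2 5 9, .h1 6 9, .h3 6 9, .cp 7 9, .p3 7 9, .p1 8 10, .h3 8 11,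
   .p1 8 11, .h3 8 12, .p1 8 12, .h3 8 13, .p1 8 13, .h3 8 14, .p1 8 14, .h3 8 15, .p1 8 15, .h3 8 16, .p1 8 16,
   .h3 8 17, .p1 8 17, .h3 8 18, .p1 8 18, .h3 8 19, .p1 8 19, .h3 8 20, .p1 8 20, .h3 8 21, .p1 8 21, .h1 3 22,
   .p3 3 22, .h1 4 22, .p3 4 22, .h1 5 22, .p3 5 22, .h1 6 22, .p3 6 22, .h1 7 22, .p3 7 22, .h3 8 22, .p1 8 22,
   .h1 2 23, .p3 2 23, .h3 3 23, .cp 3 23, .h3 2 24, .cp 2 24, .p2 2 24, .cp 4 24, .p2 4 24, .cp 3 25, .p2 3 25,
   .p1 5 25, .h1 4 26, .p2 4 26, .h1 5 26, .h3 5 26, .cp 6 26, .p3 6 26, .p1 7 27, .h3 7 28, .p1 7 28, .h3 7 29,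
   .p1 7 29, .h3 7 30, .p1 7 30, .h3 7 31, .p1 7 31, .h3 7 32, .p1 7 32, .h3 7 33, .p1 7 33, .h3 7 34, .p1 7 34,
   .h3 7 35, .p1 7 35, .h3 7 36, .p1 7 36, .h3 7 37, .p1 7 37, .h3 7 38, .p1 7 38, .h3 7 39, .p1 7 39, .h1 3 40,
   .p3 3 40, .h1 4 40, .p3 4 40, .h1 5 40, .p3 5 40, .h1 6 40, .p3 6 40, .h3 7 40, .p1 7 40, .h1 2 41, .h3 3 41,
   .cp 3 41, .cp 4 42, .p2 4 42, .p1 5 43, .h3 5 44, .p1 5 44, .h3 5 45, .p1 5 45, .h3 5 46, .p1 5 46, .h3 5 47,
   .p1 5 47, .h3 5 48, .p1 5 48, .h3 5 49, .p1 5 49, .h1 0 50, .p3 0 50, .h1 1 50, .p3 1 50, .h1 2 50, .p3 2 50,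
   .h1 3 50, .p3 3 50, .h1 4 50, .p3 4 50, .h3 5 50, .p1 5 50]

theorem rG0m2_eq (a : ℤ → ℤ → ℝ × ℝ) : (rG0m2.map fun c => c.slack a).sum = -(a 0 50).2 + (a 2 41).1 := by
  simp only [rG0m2, List.map_cons, List.map_nil, List.sum_cons, List.sum_nil, Con.slack, a3]
  norm_num
  ring

def rG10 : List Con :=
  [.h1 2 5, .p3 2 5, .cp 3 5, .p3 3 5, .h3 2 6, .cp 2 6, .p2 2 6, .cp 4 6, .p2 4 6, .cp 3 7, .p2 3 7, .cp 5 7,
   .p2 5 7, .cp 4 8, .p2 4 8, .p1 6 8, .h1 5 9, .p2 5 9, .h1 6 9, .h3 6 9, .cp 7 9, .p3 7 9, .p1 8 10, .h3 8 11,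
   .p1 8 11, .h3 8 12, .p1 8 12, .h3 8 13, .p1 8 13, .h3 8 14, .p1 8 14, .h3 8 15, .p1 8 15, .h3 8 16, .p1 8 16,
   .h3 8 17, .p1 8 17, .h3 8 18, .p1 8 18, .h3 8 19, .p1 8 19, .h3 8 20, .p1 8 20, .h3 8 21, .p1 8 21, .h1 3 22,
   .p3 3 22, .h1 4 22, .p3 4 22, .h1 5 22, .p3 5 22, .h1 6 22, .p3 6 22, .h1 7 22, .p3 7 22, .h3 8 22, .p1 8 22,
   .h1 2 23, .p3 2 23, .h3 3 23, .cp 3 23, .h3 2 24, .cp 2 24, .p2 2 24, .cp 4 24, .p2 4 24, .cp 3 25, .p2 3 25,
   .cp 5 25, .p2 5 25, .cp 4 26, .p2 4 26, .p1 6 26, .h1 5 27, .p2 5 27, .h1 6 27, .h3 6 27, .cp 7 27, .p3 7 27,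
   .p1 8 28, .h3 8 29, .p1 8 29, .h3 8 30, .p1 8 30, .h3 8 31, .p1 8 31, .h3 8 32, .p1 8 32, .h3 8 33, .p1 8 33,
   .h3 8 34, .p1 8 34, .h3 8 35, .p1 8 35, .h3 8 36, .p1 8 36, .h3 8 37, .p1 8 37, .h3 8 38, .p1 8 38, .h3 8 39,
   .p1 8 39, .h1 3 40, .p3 3 40, .h1 4 40, .p3 4 40, .h1 5 40, .p3 5 40, .h1 6 40, .p3 6 40, .h1 7 40, .p3 7 40,
   .h3 8 40, .p1 8 40, .h1 2 41, .p3 2 41, .h3 3 41, .cp 3 41, .h3 2 42, .cp 2 42, .p2 2 42, .cp 4 42, .p2 4 42,
   .cp 3 43, .p2 3 43, .p1 5 43, .h1 4 44, .p2 4 44, .h3 5 44, .p1 5 44]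

theorem rG10_eq (a : ℤ → ℤ → ℝ × ℝ) : (rG10.map fun c => c.slack a).sum = 0 := by
  simp only [rG10, List.map_cons, List.map_nil, List.sum_cons, List.sum_nil, Con.slack, a3]
  norm_num
  ring

def rG1p0 : List Con :=
  [.h1 0 5, .p3 0 5, .h1 1 5, .p3 1 5, .p3 2 5]

theorem rG1p0_eq (a : ℤ → ℤ → ℝ × ℝ) : (rG1p0.map fun c => c.slack a).sum = -(a 0 5).2 - (a 2 5).1 := by
  simp only [rG1p0, List.map_cons, List.map_nil, List.sum_cons, List.sum_nil, Con.slack, a3]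
  norm_num
  ring

def rG1m0 : List Con :=
  [.h1 2 5, .cp 3 5, .p3 3 5, .cp 4 6, .p2 4 6, .cp 5 7, .p2 5 7, .p1 6 8, .h1 6 9, .h3 6 9, .cp 7 9, .p3 7 9,
   .h3 6 10, .p1 6 10, .p1 8 10, .h3 6 11, .p1 6 11, .h3 8 11, .p1 8 11, .h3 6 12, .p1 6 12, .h3 8 12, .p1 8 12,
   .h3 6 13, .p1 6 13, .h3 8 13, .p1 8 13, .h1 0 14, .p3 0 14, .h1 1 14, .p3 1 14, .h1 2 14, .p3 2 14, .h1 3 14,
   .p3 3 14, .h1 4 14, .p3 4 14, .h1 5 14, .p3 5 14, .h3 6 14, .p1 6 14, .h3 8 14, .p1 8 14, .h3 8 15, .p1 8 15,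
   .h3 8 16, .p1 8 16, .h3 8 17, .p1 8 17, .h3 8 18, .p1 8 18, .h3 8 19, .p1 8 19, .h3 8 20, .p1 8 20, .h3 8 21,
   .p1 8 21, .h1 3 22, .p3 3 22, .h1 4 22, .p3 4 22, .h1 5 22, .p3 5 22, .h1 6 22, .p3 6 22, .h1 7 22, .p3 7 22,
   .h3 8 22, .p1 8 22, .h1 2 23, .p3 2 23, .h3 3 23, .cp 3 23, .h3 2 24, .cp 2 24, .p2 2 24, .cp 4 24, .p2 4 24,
   .cp 3 25, .p2 3 25, .cp 5 25, .p2 5 25, .cp 4 26, .p2 4 26, .p1 6 26, .h1 5 27, .p2 5 27, .h1 6 27, .h3 6 27,
   .cp 7 27, .p3 7 27, .p1 8 28, .h3 8 29, .p1 8 29, .h3 8 30, .p1 8 30, .h3 8 31, .p1 8 31, .h3 8 32, .p1 8 32,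
   .h3 8 33, .p1 8 33, .h3 8 34, .p1 8 34, .h3 8 35, .p1 8 35, .h3 8 36, .p1 8 36, .h3 8 37, .p1 8 37, .h3 8 38,
   .p1 8 38, .h3 8 39, .p1 8 39, .h1 3 40, .p3 3 40, .h1 4 40, .p3 4 40, .h1 5 40, .p3 5 40, .h1 6 40, .p3 6 40,
   .h1 7 40, .p3 7 40, .h3 8 40, .p1 8 40, .h1 2 41, .p3 2 41, .h3 3 41, .cp 3 41, .h3 2 42, .cp 2 42, .p2 2 42,
   .cp 4 42, .p2 4 42, .cp 3 43, .p2 3 43, .p1 5 43, .h1 4 44, .p2 4 44, .h3 5 44, .p1 5 44]

theorem rG1m0_eq (a : ℤ → ℤ → ℝ × ℝ) : (rG1m0.map fun c => c.slack a).sum = -(a 0 14).2 + (a 2 5).1 := by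
  simp only [rG1m0, List.map_cons, List.map_nil, List.sum_cons, List.sum_nil, Con.slack, a3]
  norm_num
  ring

def rG1p1 : List Con :=
  [.h1 0 23, .p3 0 23, .h1 1 23, .p3 1 23, .p3 2 23]

theorem rG1p1_eq (a : ℤ → ℤ → ℝ × ℝ) : (rG1p1.map fun c => c.slack a).sum = -(a 0 23).2 - (a 2 23).1 := by
  simp only [rG1p1, List.map_cons, List.map_nil, List.sum_cons, List.sum_nil, Con.slack, a3]
  norm_num
  ring

def rG1m1 : List Con :=
  [.h1 2 5, .p3 2 5, .cp 3 5, .p3 3 5, .h3 2 6, .cp 2 6, .p2 2 6, .cp 4 6, .p2 4 6, .cp 3 7, .p2 3 7, .cp 5 7,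
   .p2 5 7, .cp 4 8, .p2 4 8, .p1 6 8, .h1 5 9, .p2 5 9, .h1 6 9, .h3 6 9, .cp 7 9, .p3 7 9, .p1 8 10, .h3 8 11,
   .p1 8 11, .h3 8 12, .p1 8 12, .h3 8 13, .p1 8 13, .h3 8 14, .p1 8 14, .h3 8 15, .p1 8 15, .h3 8 16, .p1 8 16,
   .h3 8 17, .p1 8 17, .h3 8 18, .p1 8 18, .h3 8 19, .p1 8 19, .h3 8 20, .p1 8 20, .h3 8 21, .p1 8 21, .h1 3 22,
   .p3 3 22, .h1 4 22, .p3 4 22, .h1 5 22, .p3 5 22, .h1 6 22, .p3 6 22, .h1 7 22, .p3 7 22, .h3 8 22, .p1 8 22,
   .h1 2 23, .h3 3 23, .cp 3 23, .cp 4 24, .p2 4 24, .cp 5 25, .p2 5 25, .p1 6 26, .h1 6 27, .h3 6 27, .cp 7 27,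
   .p3 7 27, .h3 6 28, .p1 6 28, .p1 8 28, .h3 6 29, .p1 6 29, .h3 8 29, .p1 8 29, .h3 6 30, .p1 6 30, .h3 8 30,
   .p1 8 30, .h3 6 31, .p1 6 31, .h3 8 31, .p1 8 31, .h1 0 32, .p3 0 32, .h1 1 32, .p3 1 32, .h1 2 32, .p3 2 32,
   .h1 3 32, .p3 3 32, .h1 4 32, .p3 4 32, .h1 5 32, .p3 5 32, .h3 6 32, .p1 6 32, .h3 8 32, .p1 8 32, .h3 8 33,
   .p1 8 33, .h3 8 34, .p1 8 34, .h3 8 35, .p1 8 35, .h3 8 36, .p1 8 36, .h3 8 37, .p1 8 37, .h3 8 38, .p1 8 38,
   .h3 8 39, .p1 8 39, .h1 3 40, .p3 3 40, .h1 4 40, .p3 4 40, .h1 5 40, .p3 5 40, .h1 6 40, .p3 6 40, .h1 7 40,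
   .p3 7 40, .h3 8 40, .p1 8 40, .h1 2 41, .p3 2 41, .h3 3 41, .cp 3 41, .h3 2 42, .cp 2 42, .p2 2 42, .cp 4 42,
   .p2 4 42, .cp 3 43, .p2 3 43, .p1 5 43, .h1 4 44, .p2 4 44, .h3 5 44, .p1 5 44]

theorem rG1m1_eq (a : ℤ → ℤ → ℝ × ℝ) : (rG1m1.map fun c => c.slack a).sum = -(a 0 32).2 + (a 2 23).1 := by
  simp only [rG1m1, List.map_cons, List.map_nil, List.sum_cons, List.sum_nil, Con.slack, a3]
  norm_num
  ring

def rG1p2 : List Con :=
  [.h1 0 41, .p3 0 41, .h1 1 41, .p3 1 41, .p3 2 41]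

theorem rG1p2_eq (a : ℤ → ℤ → ℝ × ℝ) : (rG1p2.map fun c => c.slack a).sum = -(a 0 41).2 - (a 2 41).1 := by
  simp only [rG1p2, List.map_cons, List.map_nil, List.sum_cons, List.sum_nil, Con.slack, a3]
  norm_num
  ring

def rG1m2 : List Con :=
  [.h1 2 5, .p3 2 5, .cp 3 5, .p3 3 5, .h3 2 6, .cp 2 6, .p2 2 6, .cp 4 6, .p2 4 6, .cp 3 7, .p2 3 7, .cp 5 7,
   .p2 5 7, .cp 4 8, .p2 4 8, .p1 6 8, .h1 5 9, .p2 5 9, .h1 6 9, .h3 6 9, .cp 7 9, .p3 7 9, .p1 8 10, .h3 8 11,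
   .p1 8 11, .h3 8 12, .p1 8 12, .h3 8 13, .p1 8 13, .h3 8 14, .p1 8 14, .h3 8 15, .p1 8 15, .h3 8 16, .p1 8 16,
   .h3 8 17, .p1 8 17, .h3 8 18, .p1 8 18, .h3 8 19, .p1 8 19, .h3 8 20, .p1 8 20, .h3 8 21, .p1 8 21, .h1 3 22,
   .p3 3 22, .h1 4 22, .p3 4 22, .h1 5 22, .p3 5 22, .h1 6 22, .p3 6 22, .h1 7 22, .p3 7 22, .h3 8 22, .p1 8 22,
   .h1 2 23, .p3 2 23, .h3 3 23, .cp 3 23, .h3 2 24, .cp 2 24, .p2 2 24, .cp 4 24, .p2 4 24, .cp 3 25, .p2 3 25,
   .cp 5 25, .p2 5 25, .cp 4 26, .p2 4 26, .p1 6 26, .h1 5 27, .p2 5 27, .h1 6 27, .h3 6 27, .cp 7 27, .p3 7 27,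
   .p1 8 28, .h3 8 29, .p1 8 29, .h3 8 30, .p1 8 30, .h3 8 31, .p1 8 31, .h3 8 32, .p1 8 32, .h3 8 33, .p1 8 33,
   .h3 8 34, .p1 8 34, .h3 8 35, .p1 8 35, .h3 8 36, .p1 8 36, .h3 8 37, .p1 8 37, .h3 8 38, .p1 8 38, .h3 8 39,
   .p1 8 39, .h1 3 40, .p3 3 40, .h1 4 40, .p3 4 40, .h1 5 40, .p3 5 40, .h1 6 40, .p3 6 40, .h1 7 40, .p3 7 40,
   .h3 8 40, .p1 8 40, .h1 2 41, .h3 3 41, .cp 3 41, .cp 4 42, .p2 4 42, .p1 5 43, .h3 5 44, .p1 5 44, .h3 5 45,
   .p1 5 45, .h3 5 46, .p1 5 46, .h3 5 47, .p1 5 47, .h3 5 48, .p1 5 48, .h3 5 49, .p1 5 49, .h1 0 50, .p3 0 50,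
   .h1 1 50, .p3 1 50, .h1 2 50, .p3 2 50, .h1 3 50, .p3 3 50, .h1 4 50, .p3 4 50, .h3 5 50, .p1 5 50]

theorem rG1m2_eq (a : ℤ → ℤ → ℝ × ℝ) : (rG1m2.map fun c => c.slack a).sum = -(a 0 50).2 + (a 2 41).1 := by
  simp only [rG1m2, List.map_cons, List.map_nil, List.sum_cons, List.sum_nil, Con.slack, a3]
  norm_num
  ring

def rE1 : List Con :=
  [.h1 2 0, .p3 2 0, .h1 3 0, .p3 3 0, .h1 4 0, .p3 4 0, .h1 5 0, .p3 5 0, .h1 6 0, .p3 6 0, .h1 7 0, .p3 7 0,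
   .h1 8 0, .p3 8 0, .h1 9 0, .p3 9 0, .p1 10 0, .h3 2 1, .p1 2 1, .h1 2 2, .h3 2 2, .p2 2 2, .h1 3 2, .p3 3 2,
   .p3 4 2]

theorem rE1_eq (a : ℤ → ℤ → ℝ × ℝ) : (rE1.map fun c => c.slack a).sum = -a3 (a 10 0) - (a 4 2).1 := by
  simp only [rE1, List.map_cons, List.map_nil, List.sum_cons, List.sum_nil, Con.slack, a3]
  norm_num
  ring

def rE2 : List Con :=
  [.h1 0 0, .p3 0 0, .h1 1 0, .p3 1 0, .h1 2 0, .p3 2 0, .h1 3 0, .p3 3 0, .h1 4 0, .p3 4 0, .h1 5 0, .p3 5 0,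
   .h1 6 0, .p3 6 0, .h1 7 0, .p3 7 0, .h1 8 0, .p3 8 0, .h1 9 0, .p3 9 0, .p1 10 0, .h3 0 1, .p1 0 1, .h3 0 2,
   .p1 0 2, .h3 0 3, .p1 0 3, .h3 0 4, .p1 0 4, .h3 0 5, .p1 0 5, .h3 0 6, .p1 0 6, .h3 0 7, .p1 0 7, .h3 8 7,
   .p1 8 7, .h1 0 8, .h3 0 8, .p2 0 8, .h1 1 8, .p3 1 8, .h1 2 8, .p3 2 8, .h1 3 8, .p3 3 8, .h1 4 8, .p3 4 8,
   .h1 5 8, .p3 5 8, .h1 6 8, .p3 6 8, .h1 7 8, .p3 7 8, .h3 8 8, .p1 8 8]

def rE2n : List Con :=
  [.p3 4 2, .h3 4 3, .cp 4 3, .p2 4 3, .cp 5 4, .p2 5 4, .cp 6 5, .p2 6 5, .h1 7 6, .p2 7 6]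

theorem rE2_eq (a : ℤ → ℤ → ℝ × ℝ) :
    (rE2.map fun c => c.slack a).sum - (rE2n.map fun c => c.slack a).sum = -a3 (a 10 0) + (a 4 2).1 := by
  simp only [rE2, rE2n, List.map_cons, List.map_nil, List.sum_cons, List.sum_nil, Con.slack, a3]
  norm_num
  ring

def rE0 : List Con :=
  [.h1 4 2, .p3 4 2, .cp 5 2, .p3 5 2, .h3 4 3, .cp 4 3, .p2 4 3, .cp 6 3, .p2 6 3, .cp 5 4, .p2 5 4, .cp 7 4,
   .p2 7 4, .cp 6 5, .p2 6 5, .p1 8 5, .h1 7 6, .p2 7 6, .h1 8 6, .h3 8 6, .cp 9 6, .p3 9 6, .p1 10 7, .h3 10 8,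
   .p1 10 8, .h3 10 9, .p1 10 9, .h3 10 10, .p1 10 10, .h3 10 11, .p1 10 11, .h3 10 12, .p1 10 12, .h3 10 13,
   .p1 10 13, .h3 10 14, .p1 10 14, .h3 10 15, .p1 10 15, .h3 10 16, .p1 10 16, .h3 10 17, .p1 10 17]

theorem rE0_eq (a : ℤ → ℤ → ℝ × ℝ) : (rE0.map fun c => c.slack a).sum = -(a 10 17).2 := by
  simp only [rE0, List.map_cons, List.map_nil, List.sum_cons, List.sum_nil, Con.slack, a3]
  norm_num
  ring

def rF0 : List Con :=
  [.h1 4 2, .p3 4 2, .cp 5 2, .p3 5 2, .h3 4 3, .cp 4 3, .p2 4 3, .cp 6 3, .p2 6 3, .cp 5 4, .p2 5 4, .cp 7 4,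
   .p2 7 4, .cp 6 5, .p2 6 5, .p1 8 5, .h1 7 6, .p2 7 6, .h1 8 6, .h3 8 6, .cp 9 6, .p3 9 6, .p1 10 7, .h3 10 8,
   .p1 10 8, .h3 10 9, .p1 10 9, .h3 10 10, .p1 10 10, .h3 10 11, .p1 10 11, .h3 10 12, .p1 10 12, .h3 10 13,
   .p1 10 13, .h3 10 14, .p1 10 14, .h3 10 15, .p1 10 15, .h3 10 16, .p1 10 16, .h3 10 17, .p1 10 17]

theorem rF0_eq (a : ℤ → ℤ → ℝ × ℝ) : (rF0.map fun c => c.slack a).sum = -(a 10 17).2 := by
  simp only [rF0, List.map_cons, List.map_nil, List.sum_cons, List.sum_nil, Con.slack, a3]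
  norm_num
  ring

def rU1 : List Con :=
  [.h1 0 5, .p3 0 5, .h1 1 5, .p3 1 5, .p3 2 5]

theorem rU1_eq (a : ℤ → ℤ → ℝ × ℝ) : (rU1.map fun c => c.slack a).sum = -(a 0 5).2 - (a 2 5).1 := by
  simp only [rU1, List.map_cons, List.map_nil, List.sum_cons, List.sum_nil, Con.slack, a3]
  norm_num
  ring

def rU2 : List Con :=
  [.cp 2 5, .p1 3 6, .h3 3 7, .p1 3 7, .h3 3 8, .p1 3 8, .h3 3 9, .p1 3 9, .h3 3 10, .p1 3 10, .h3 3 11, .p1 3 11,
   .h3 3 12, .p1 3 12, .h3 3 13, .p1 3 13, .h1 0 14, .p3 0 14, .h1 1 14, .p3 1 14, .h1 2 14, .p3 2 14, .h3 3 14,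
   .p1 3 14]

theorem rU2_eq (a : ℤ → ℤ → ℝ × ℝ) : (rU2.map fun c => c.slack a).sum = -(a 0 14).2 + (a 2 5).1 := by
  simp only [rU2, List.map_cons, List.map_nil, List.sum_cons, List.sum_nil, Con.slack, a3]
  norm_num
  ring

def rU0 : List Con :=
  [.p1 19 0, .h3 19 1, .p1 19 1, .h3 19 2, .p1 19 2, .h3 19 3, .p1 19 3, .h3 19 4, .p1 19 4, .cp 2 5, .h3 19 5,
   .p1 19 5, .p1 3 6, .h3 19 6, .p1 19 6, .h3 3 7, .p1 3 7, .h3 19 7, .p1 19 7, .h3 3 8, .p1 3 8, .h3 19 8, .p1 19 8,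
   .h3 3 9, .p1 3 9, .h3 19 9, .p1 19 9, .h3 3 10, .p1 3 10, .h3 19 10, .p1 19 10, .h3 3 11, .p1 3 11, .h3 19 11,
   .p1 19 11, .h3 3 12, .p1 3 12, .h3 19 12, .p1 19 12, .h3 3 13, .p1 3 13, .h3 19 13, .p1 19 13, .h3 3 14, .p1 3 14,
   .h3 19 14, .p1 19 14, .h1 3 15, .h3 3 15, .p2 3 15, .h1 4 15, .p3 4 15, .h1 5 15, .p3 5 15, .h1 6 15, .p3 6 15,
   .h1 7 15, .p3 7 15, .h1 8 15, .p3 8 15, .h1 9 15, .p3 9 15, .h1 10 15, .p3 10 15, .h1 11 15, .p3 11 15, .h1 12 15,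
   .p3 12 15, .h1 13 15, .p3 13 15, .h1 14 15, .p3 14 15, .h1 15 15, .p3 15 15, .h1 16 15, .p3 16 15, .h1 17 15,
   .p3 17 15, .h1 18 15, .p3 18 15, .h3 19 15, .p1 19 15]

theorem rU0_eq (a : ℤ → ℤ → ℝ × ℝ) : (rU0.map fun c => c.slack a).sum = -a3 (a 19 0) + (a 2 5).1 := by
  simp only [rU0, List.map_cons, List.map_nil, List.sum_cons, List.sum_nil, Con.slack, a3]
  norm_num
  ring


end Pool.Agent.Lib.MP_6ff0c5_lc.N
end
end

section

/-!
MP_6ff0c5_lc, part B: computation of bounds in the blocks (generated data, checked here).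
-/

set_option autoImplicit false

namespace Pool.Agent.Lib.MP_6ff0c5_lc.N


def sV : List Step :=
  [.con (.p1 3 0) true, .con (.p1 3 1) true, .con (.p1 3 2) true, .con (.p1 3 3) true, .con (.p1 3 4) true,
   .con (.p1 3 5) true, .con (.p1 3 6) true, .con (.p1 3 7) true, .con (.p1 3 8) true, .room 3 0 .two,
   .con (.h3 3 1) false, .room 3 1 .two, .con (.h3 3 2) false, .room 3 2 .two, .con (.h3 3 3) false, .room 3 3 .two,
   .con (.h3 3 4) false, .room 3 4 .two, .con (.h3 3 5) false, .room 3 5 .two, .con (.h3 3 6) false, .room 3 6 .two,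
   .con (.h3 3 7) false, .room 3 7 .two, .con (.h3 3 8) false, .room 3 8 .two]

def sT : List Step :=
  [.con (.p1 3 0) true, .con (.p1 3 1) true, .con (.p1 3 2) true, .con (.p1 3 3) true, .con (.p1 3 4) true,
   .con (.p1 3 6) true, .con (.p1 3 7) true, .con (.p1 3 8) true, .con (.p3 4 5) true, .con (.p3 5 5) true,
   .con (.p3 6 5) true, .con (.p3 7 5) true, .con (.p3 8 5) true, .room 3 0 .two, .room 8 5 .two,
   .con (.h3 3 1) false, .con (.h1 7 5) false, .room 3 1 .two, .room 7 5 .two, .con (.h3 3 2) false,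
   .con (.h1 6 5) false, .room 3 2 .two, .room 6 5 .two, .con (.h3 3 3) false, .con (.h1 5 5) false, .room 3 3 .two,
   .room 5 5 .two, .con (.h3 3 4) false, .con (.h1 4 5) false, .room 3 4 .two, .room 4 5 .two, .con (.h1 3 5) false,
   .con (.h3 3 5) false, .room 3 5 .two, .con (.h3 3 6) false, .room 3 6 .two, .con (.h3 3 7) false, .room 3 7 .two,
   .con (.h3 3 8) false, .room 3 8 .two]

def sX : List Step :=
  [.con (.p3 0 5) true, .con (.p3 1 2) true, .con (.p1 1 3) true, .con (.p1 1 4) true, .con (.p1 1 5) true,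
   .con (.p3 2 2) true, .con (.p2 3 0) true, .con (.p3 3 2) true, .con (.p3 3 7) true, .con (.p1 3 8) true,
   .con (.p3 4 0) true, .con (.p3 4 2) true, .con (.p3 4 7) true, .con (.p3 5 0) true, .con (.p1 5 1) true,
   .con (.p3 5 7) true, .con (.p3 6 0) true, .con (.p3 6 2) true, .con (.p1 6 3) true, .con (.p1 6 5) true,
   .con (.p1 6 6) true, .con (.p1 6 7) true, .con (.p1 7 1) true, .con (.p3 7 4) true, .con (.p1 8 3) true,
   .con (.p1 8 4) true, .con (.p2 8 5) true, .room 3 0 .one, .room 8 5 .three, .con (.h1 3 0) true,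
   .con (.h3 8 5) true, .con (.h1 7 4) false, .room 4 0 .one, .room 8 4 .three, .con (.h1 4 0) true,
   .con (.h3 8 4) true, .room 7 4 .two, .con (.h3 5 1) false, .con (.h1 6 4) false, .room 5 0 .one, .room 8 3 .three,
   .con (.h1 5 0) true, .con (.cp 7 2) true, .room 5 1 .two, .con (.h3 5 2) false, .room 6 0 .one,
   .con (.cp 6 0) false, .room 7 1 .two, .con (.h3 7 2) false, .room 7 2 .two, .con (.h1 6 2) false, .room 6 2 .two,
   .con (.h1 5 2) false, .con (.h3 6 3) false, .room 6 3 .two, .con (.h3 6 4) false, .room 5 2 .two, .room 6 4 .two,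
   .con (.h1 4 2) false, .con (.h3 6 5) false, .room 4 2 .two, .room 6 5 .two, .con (.h1 3 2) false,
   .con (.h3 6 6) false, .room 3 2 .two, .room 6 6 .two, .con (.h1 2 2) false, .con (.h3 6 7) false, .room 2 2 .two,
   .room 6 7 .two, .con (.h1 1 2) false, .con (.h1 5 7) false, .room 1 2 .two, .room 5 7 .two, .con (.h3 1 3) false,
   .con (.h1 4 7) false, .room 1 3 .two, .room 4 7 .two, .con (.h3 1 4) false, .con (.h1 3 7) false, .room 1 4 .two,
   .room 3 7 .two, .con (.h3 1 5) false, .con (.h3 3 8) false, .room 1 5 .two, .room 3 8 .two, .con (.h1 0 5) false,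
   .room 0 5 .two]

def sA : List Step :=
  [.con (.p3 0 5) true, .con (.p3 1 2) true, .con (.p1 1 3) true, .con (.p1 1 4) true, .con (.p1 1 5) true,
   .con (.p3 2 2) true, .con (.p2 3 0) true, .con (.p3 3 2) true, .con (.p1 3 3) true, .con (.p1 3 4) true,
   .con (.p1 3 5) true, .con (.p1 3 6) true, .con (.p1 3 8) true, .con (.p3 4 0) true, .con (.p3 4 2) true,
   .con (.p3 4 7) true, .con (.p3 5 0) true, .con (.p1 5 1) true, .con (.p3 5 7) true, .con (.p3 6 0) true,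
   .con (.p3 6 2) true, .con (.p1 6 3) true, .con (.p1 6 5) true, .con (.p1 6 6) true, .con (.p1 6 7) true,
   .con (.p1 7 1) true, .con (.p3 7 4) true, .con (.p1 8 3) true, .con (.p1 8 4) true, .con (.p2 8 5) true,
   .room 3 0 .one, .room 8 5 .three, .con (.h1 3 0) true, .con (.h3 8 5) true, .con (.h1 7 4) false, .room 4 0 .one,
   .room 8 4 .three, .con (.h1 4 0) true, .con (.h3 8 4) true, .room 7 4 .two, .con (.h3 5 1) false,
   .con (.h1 6 4) false, .room 5 0 .one, .room 8 3 .three, .con (.h1 5 0) true, .con (.cp 7 2) true, .room 5 1 .two,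
   .con (.h3 5 2) false, .room 6 0 .one, .con (.cp 6 0) false, .room 7 1 .two, .con (.h3 7 2) false, .room 7 2 .two,
   .con (.h1 6 2) false, .room 6 2 .two, .con (.h1 5 2) false, .con (.h3 6 3) false, .room 6 3 .two,
   .con (.h3 6 4) false, .room 5 2 .two, .room 6 4 .two, .con (.h1 4 2) false, .con (.h3 6 5) false, .room 4 2 .two,
   .room 6 5 .two, .con (.h1 3 2) false, .con (.h3 6 6) false, .room 3 2 .two, .room 6 6 .two, .con (.h1 2 2) false,
   .con (.h3 3 3) false, .con (.h3 6 7) false, .room 2 2 .two, .room 3 3 .two, .room 6 7 .two, .con (.h1 1 2) false,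
   .con (.h3 3 4) false, .con (.h1 5 7) false, .room 1 2 .two, .room 3 4 .two, .room 5 7 .two, .con (.h3 1 3) false,
   .con (.h3 3 5) false, .con (.h1 4 7) false, .room 1 3 .two, .room 3 5 .two, .room 4 7 .two, .con (.h3 1 4) false,
   .con (.h3 3 6) false, .con (.h1 3 7) false, .room 1 4 .two, .room 3 6 .two, .con (.h3 1 5) false,
   .con (.h3 3 7) false, .room 1 5 .two, .con (.h1 0 5) false, .room 0 5 .two, .room 3 7 .two, .con (.h3 3 8) false,
   .room 3 8 .two]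

def sS : List Step :=
  [.con (.p3 0 5) true, .con (.p3 0 14) true, .con (.p3 1 5) true, .con (.p3 1 14) true, .con (.p3 2 5) true,
   .con (.p3 2 14) true, .con (.p1 3 6) true, .con (.p1 3 7) true, .con (.p1 3 8) true, .con (.p1 3 9) true,
   .con (.p1 3 10) true, .con (.p1 3 11) true, .con (.p1 3 12) true, .con (.p1 3 13) true, .con (.p1 3 14) true,
   .con (.cp 2 5) false, .room 2 5 .two, .con (.h1 1 5) false, .room 3 6 .two, .con (.h3 3 7) false, .room 1 5 .two,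
   .con (.h1 0 5) false, .room 3 7 .two, .con (.h3 3 8) false, .room 0 5 .two, .room 3 8 .two, .con (.h3 3 9) false,
   .room 3 9 .two, .con (.h3 3 10) false, .room 3 10 .two, .con (.h3 3 11) false, .room 3 11 .two,
   .con (.h3 3 12) false, .room 3 12 .two, .con (.h3 3 13) false, .room 3 13 .two, .con (.h3 3 14) false,
   .room 3 14 .two, .con (.h1 2 14) false, .room 2 14 .two, .con (.h1 1 14) false, .room 1 14 .two,
   .con (.h1 0 14) false, .room 0 14 .two]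

def sG0 : List Step :=
  [.con (.p3 0 5) true, .con (.p3 0 14) true, .con (.p3 0 23) true, .con (.p3 0 32) true, .con (.p3 0 41) true,
   .con (.p3 0 50) true, .con (.p3 1 5) true, .con (.p3 1 14) true, .con (.p3 1 23) true, .con (.p3 1 32) true,
   .con (.p3 1 41) true, .con (.p3 1 50) true, .con (.p3 2 5) true, .con (.p2 2 6) true, .con (.p3 2 14) true,
   .con (.p3 2 23) true, .con (.p2 2 24) true, .con (.p3 2 32) true, .con (.p3 2 41) true, .con (.p2 2 42) true,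
   .con (.p3 2 50) true, .con (.p3 3 5) true, .con (.p2 3 7) true, .con (.p3 3 14) true, .con (.p3 3 22) true,
   .con (.p2 3 25) true, .con (.p3 3 32) true, .con (.p3 3 40) true, .con (.p2 3 43) true, .con (.p3 3 50) true,
   .con (.p2 4 6) true, .con (.p2 4 8) true, .con (.p3 4 14) true, .con (.p3 4 22) true, .con (.p2 4 24) true,
   .con (.p2 4 26) true, .con (.p3 4 32) true, .con (.p3 4 40) true, .con (.p2 4 42) true, .con (.p2 4 44) true,
   .con (.p3 4 50) true, .con (.p2 5 7) true, .con (.p2 5 9) true, .con (.p3 5 14) true, .con (.p3 5 22) true,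
   .con (.p1 5 25) true, .con (.p1 5 27) true, .con (.p1 5 28) true, .con (.p1 5 29) true, .con (.p1 5 30) true,
   .con (.p1 5 31) true, .con (.p1 5 32) true, .con (.p3 5 40) true, .con (.p1 5 43) true, .con (.p1 5 44) true,
   .con (.p1 5 45) true, .con (.p1 5 46) true, .con (.p1 5 47) true, .con (.p1 5 48) true, .con (.p1 5 49) true,
   .con (.p1 5 50) true, .con (.p1 6 8) true, .con (.p1 6 10) true, .con (.p1 6 11) true, .con (.p1 6 12) true,
   .con (.p1 6 13) true, .con (.p1 6 14) true, .con (.p3 6 22) true, .con (.p3 6 26) true, .con (.p3 6 40) true,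
   .con (.p3 7 9) true, .con (.p3 7 22) true, .con (.p1 7 27) true, .con (.p1 7 28) true, .con (.p1 7 29) true,
   .con (.p1 7 30) true, .con (.p1 7 31) true, .con (.p1 7 32) true, .con (.p1 7 33) true, .con (.p1 7 34) true,
   .con (.p1 7 35) true, .con (.p1 7 36) true, .con (.p1 7 37) true, .con (.p1 7 38) true, .con (.p1 7 39) true,
   .con (.p1 7 40) true, .con (.p1 8 10) true, .con (.p1 8 11) true, .con (.p1 8 12) true, .con (.p1 8 13) true,
   .con (.p1 8 14) true, .con (.p1 8 15) true, .con (.p1 8 16) true, .con (.p1 8 17) true, .con (.p1 8 18) true,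
   .con (.p1 8 19) true, .con (.p1 8 20) true, .con (.p1 8 21) true, .con (.p1 8 22) true, .con (.h1 2 5) true,
   .con (.h1 2 23) true, .con (.h1 2 41) true, .room 2 5 .two, .room 2 23 .two, .room 2 41 .two,
   .con (.h1 1 5) false, .con (.h1 1 23) false, .con (.h1 1 41) false, .con (.h3 2 6) false, .con (.h3 2 24) false,
   .con (.h3 2 42) false, .room 3 5 .one, .con (.cp 3 5) false, .room 1 5 .two, .room 1 23 .two, .room 1 41 .two,
   .room 2 6 .one, .room 2 24 .one, .room 2 42 .one, .con (.h1 0 5) false, .con (.h1 0 23) false,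
   .con (.h1 0 41) false, .con (.cp 2 6) false, .con (.cp 2 24) false, .con (.cp 2 42) false, .room 4 6 .one,
   .con (.cp 4 6) false, .room 0 5 .two, .room 0 23 .two, .room 0 41 .two, .room 3 7 .one, .room 3 25 .one,
   .room 3 43 .one, .con (.cp 3 7) false, .con (.cp 3 25) false, .con (.cp 3 43) false, .room 5 7 .one,
   .con (.cp 5 7) false, .room 4 8 .one, .room 4 26 .one, .room 4 44 .one, .con (.cp 4 8) false,
   .con (.h1 4 26) true, .con (.h1 4 44) true, .room 6 8 .two, .con (.h3 5 27) false, .con (.h3 5 45) false,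
   .con (.h3 6 9) false, .room 5 9 .one, .room 5 44 .three, .con (.h3 5 44) true, .con (.h1 5 9) true,
   .room 5 27 .two, .room 5 45 .two, .con (.h3 5 28) false, .con (.h3 5 46) false, .con (.h3 6 10) false,
   .room 5 43 .three, .con (.cp 4 42) true, .room 5 28 .two, .room 5 46 .two, .room 6 10 .two, .con (.h3 5 29) false,
   .con (.h3 5 47) false, .con (.h3 6 11) false, .room 4 42 .three, .con (.cp 3 41) true, .room 5 29 .two,
   .room 5 47 .two, .room 6 11 .two, .con (.h3 5 30) false, .con (.h3 5 48) false, .con (.h3 6 12) false,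
   .room 3 41 .three, .room 5 30 .two, .room 5 48 .two, .room 6 12 .two, .con (.h3 3 41) true, .con (.h3 5 31) false,
   .con (.h3 5 49) false, .con (.h3 6 13) false, .room 3 40 .one, .room 5 31 .two, .room 5 49 .two, .room 6 13 .two,
   .con (.h1 3 40) true, .con (.h3 5 32) false, .con (.h3 5 50) false, .con (.h3 6 14) false, .room 4 40 .one,
   .room 5 32 .two, .room 5 50 .two, .room 6 9 .one, .room 6 14 .two, .con (.h1 4 32) false, .con (.h1 4 50) false,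
   .con (.h1 5 14) false, .con (.h1 4 40) true, .con (.h1 6 9) true, .room 4 32 .two, .room 4 50 .two,
   .room 5 14 .two, .room 5 40 .one, .room 7 9 .one, .con (.h1 3 32) false, .con (.h1 3 50) false,
   .con (.h1 4 14) false, .con (.h1 5 40) true, .con (.cp 7 9) false, .room 3 32 .two, .room 3 50 .two,
   .room 4 14 .two, .room 6 40 .one, .room 8 10 .two, .con (.h1 2 32) false, .con (.h1 2 50) false,
   .con (.h1 3 14) false, .con (.h1 6 40) true, .con (.h3 8 11) false, .room 2 32 .two, .room 2 50 .two,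
   .room 3 14 .two, .room 7 40 .three, .room 8 11 .two, .con (.h1 1 32) false, .con (.h1 1 50) false,
   .con (.h1 2 14) false, .con (.h3 7 40) true, .con (.h3 8 12) false, .room 1 32 .two, .room 1 50 .two,
   .room 2 14 .two, .room 7 39 .three, .room 8 12 .two, .con (.h1 0 32) false, .con (.h1 0 50) false,
   .con (.h1 1 14) false, .con (.h3 7 39) true, .con (.h3 8 13) false, .room 0 32 .two, .room 0 50 .two,
   .room 1 14 .two, .room 7 38 .three, .room 8 13 .two, .con (.h1 0 14) false, .con (.h3 7 38) true,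
   .con (.h3 8 14) false, .room 0 14 .two, .room 7 37 .three, .room 8 14 .two, .con (.h3 7 37) true,
   .con (.h3 8 15) false, .room 7 36 .three, .room 8 15 .two, .con (.h3 7 36) true, .con (.h3 8 16) false,
   .room 7 35 .three, .room 8 16 .two, .con (.h3 7 35) true, .con (.h3 8 17) false, .room 7 34 .three,
   .room 8 17 .two, .con (.h3 7 34) true, .con (.h3 8 18) false, .room 7 33 .three, .room 8 18 .two,
   .con (.h3 7 33) true, .con (.h3 8 19) false, .room 7 32 .three, .room 8 19 .two, .con (.h3 7 32) true,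
   .con (.h3 8 20) false, .room 7 31 .three, .room 8 20 .two, .con (.h3 7 31) true, .con (.h3 8 21) false,
   .room 7 30 .three, .room 8 21 .two, .con (.h3 7 30) true, .con (.h3 8 22) false, .room 7 29 .three,
   .room 8 22 .two, .con (.h1 7 22) false, .con (.h3 7 29) true, .room 7 22 .two, .room 7 28 .three,
   .con (.h1 6 22) false, .con (.h3 7 28) true, .room 6 22 .two, .room 7 27 .three, .con (.h1 5 22) false,
   .con (.cp 6 26) true, .room 5 22 .two, .room 6 26 .two, .con (.h1 4 22) false, .con (.h1 5 26) false,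
   .room 4 22 .two, .con (.h1 3 22) false, .room 3 22 .two, .con (.h3 3 23) false, .room 3 23 .one,
   .con (.cp 3 23) false, .room 4 24 .one, .room 5 26 .three, .con (.h3 5 26) true]

def sG1 : List Step :=
  [.con (.p3 0 5) true, .con (.p3 0 14) true, .con (.p3 0 23) true, .con (.p3 0 32) true, .con (.p3 0 41) true,
   .con (.p3 0 50) true, .con (.p3 1 5) true, .con (.p3 1 14) true, .con (.p3 1 23) true, .con (.p3 1 32) true,
   .con (.p3 1 41) true, .con (.p3 1 50) true, .con (.p3 2 5) true, .con (.p2 2 6) true, .con (.p3 2 14) true,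
   .con (.p3 2 23) true, .con (.p2 2 24) true, .con (.p3 2 32) true, .con (.p3 2 41) true, .con (.p2 2 42) true,
   .con (.p3 2 50) true, .con (.p3 3 5) true, .con (.p2 3 7) true, .con (.p3 3 14) true, .con (.p3 3 22) true,
   .con (.p2 3 25) true, .con (.p3 3 32) true, .con (.p3 3 40) true, .con (.p2 3 43) true, .con (.p3 3 50) true,
   .con (.p2 4 6) true, .con (.p2 4 8) true, .con (.p3 4 14) true, .con (.p3 4 22) true, .con (.p2 4 24) true,
   .con (.p2 4 26) true, .con (.p3 4 32) true, .con (.p3 4 40) true, .con (.p2 4 42) true, .con (.p2 4 44) true,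
   .con (.p3 4 50) true, .con (.p2 5 7) true, .con (.p2 5 9) true, .con (.p3 5 14) true, .con (.p3 5 22) true,
   .con (.p2 5 25) true, .con (.p2 5 27) true, .con (.p3 5 32) true, .con (.p3 5 40) true, .con (.p1 5 43) true,
   .con (.p1 5 44) true, .con (.p1 5 45) true, .con (.p1 5 46) true, .con (.p1 5 47) true, .con (.p1 5 48) true,
   .con (.p1 5 49) true, .con (.p1 5 50) true, .con (.p1 6 8) true, .con (.p1 6 10) true, .con (.p1 6 11) true,
   .con (.p1 6 12) true, .con (.p1 6 13) true, .con (.p1 6 14) true, .con (.p3 6 22) true, .con (.p1 6 26) true,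
   .con (.p1 6 28) true, .con (.p1 6 29) true, .con (.p1 6 30) true, .con (.p1 6 31) true, .con (.p1 6 32) true,
   .con (.p3 6 40) true, .con (.p3 7 9) true, .con (.p3 7 22) true, .con (.p3 7 27) true, .con (.p3 7 40) true,
   .con (.p1 8 10) true, .con (.p1 8 11) true, .con (.p1 8 12) true, .con (.p1 8 13) true, .con (.p1 8 14) true,
   .con (.p1 8 15) true, .con (.p1 8 16) true, .con (.p1 8 17) true, .con (.p1 8 18) true, .con (.p1 8 19) true,
   .con (.p1 8 20) true, .con (.p1 8 21) true, .con (.p1 8 22) true, .con (.p1 8 28) true, .con (.p1 8 29) true,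
   .con (.p1 8 30) true, .con (.p1 8 31) true, .con (.p1 8 32) true, .con (.p1 8 33) true, .con (.p1 8 34) true,
   .con (.p1 8 35) true, .con (.p1 8 36) true, .con (.p1 8 37) true, .con (.p1 8 38) true, .con (.p1 8 39) true,
   .con (.p1 8 40) true, .con (.h1 2 5) true, .con (.h1 2 23) true, .con (.h1 2 41) true, .room 2 5 .two,
   .room 2 23 .two, .room 2 41 .two, .con (.h1 1 5) false, .con (.h1 1 23) false, .con (.h1 1 41) false,
   .con (.h3 2 6) false, .con (.h3 2 24) false, .con (.h3 2 42) false, .room 3 5 .one, .con (.cp 3 5) false,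
   .room 1 5 .two, .room 1 23 .two, .room 1 41 .two, .room 2 6 .one, .room 2 24 .one, .room 2 42 .one,
   .con (.h1 0 5) false, .con (.h1 0 23) false, .con (.h1 0 41) false, .con (.cp 2 6) false, .con (.cp 2 24) false,
   .con (.cp 2 42) false, .room 4 6 .one, .con (.cp 4 6) false, .room 0 5 .two, .room 0 23 .two, .room 0 41 .two,
   .room 3 7 .one, .room 3 25 .one, .room 3 43 .one, .con (.cp 3 7) false, .con (.cp 3 25) false,
   .con (.cp 3 43) false, .room 5 7 .one, .con (.cp 5 7) false, .room 4 8 .one, .room 4 26 .one, .room 4 44 .one,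
   .con (.cp 4 8) false, .con (.cp 4 26) false, .con (.h1 4 44) true, .room 6 8 .two, .con (.h3 5 45) false,
   .con (.h3 6 9) false, .room 5 9 .one, .room 5 27 .one, .room 5 44 .three, .con (.h3 5 44) true,
   .con (.h1 5 9) true, .con (.h1 5 27) true, .room 5 45 .two, .con (.h3 5 46) false, .con (.h3 6 10) false,
   .con (.h3 6 28) false, .room 5 43 .three, .con (.cp 4 42) true, .room 5 46 .two, .room 6 10 .two, .room 6 28 .two,
   .con (.h3 5 47) false, .con (.h3 6 11) false, .con (.h3 6 29) false, .room 4 42 .three, .con (.cp 3 41) true,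
   .room 5 47 .two, .room 6 11 .two, .room 6 29 .two, .con (.h3 5 48) false, .con (.h3 6 12) false,
   .con (.h3 6 30) false, .room 3 41 .three, .room 5 48 .two, .room 6 12 .two, .room 6 30 .two, .con (.h3 3 41) true,
   .con (.h3 5 49) false, .con (.h3 6 13) false, .con (.h3 6 31) false, .room 3 40 .one, .room 5 49 .two,
   .room 6 13 .two, .room 6 31 .two, .con (.h1 3 40) true, .con (.h3 5 50) false, .con (.h3 6 14) false,
   .con (.h3 6 32) false, .room 4 40 .one, .room 5 50 .two, .room 6 9 .one, .room 6 14 .two, .room 6 32 .two,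
   .con (.h1 4 50) false, .con (.h1 5 14) false, .con (.h1 5 32) false, .con (.h1 4 40) true, .con (.h1 6 9) true,
   .room 4 50 .two, .room 5 14 .two, .room 5 32 .two, .room 5 40 .one, .room 7 9 .one, .con (.h1 3 50) false,
   .con (.h1 4 14) false, .con (.h1 4 32) false, .con (.h1 5 40) true, .con (.cp 7 9) false, .room 3 50 .two,
   .room 4 14 .two, .room 4 32 .two, .room 6 40 .one, .room 8 10 .two, .con (.h1 2 50) false, .con (.h1 3 14) false,
   .con (.h1 3 32) false, .con (.h1 6 40) true, .con (.h3 8 11) false, .room 2 50 .two, .room 3 14 .two,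
   .room 3 32 .two, .room 7 40 .one, .room 8 11 .two, .con (.h1 1 50) false, .con (.h1 2 14) false,
   .con (.h1 2 32) false, .con (.h3 8 12) false, .con (.h1 7 40) true, .room 1 50 .two, .room 2 14 .two,
   .room 2 32 .two, .room 8 12 .two, .room 8 40 .three, .con (.h1 0 50) false, .con (.h1 1 14) false,
   .con (.h1 1 32) false, .con (.h3 8 13) false, .con (.h3 8 40) true, .room 0 50 .two, .room 1 14 .two,
   .room 1 32 .two, .room 8 13 .two, .room 8 39 .three, .con (.h1 0 14) false, .con (.h1 0 32) false,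
   .con (.h3 8 14) false, .con (.h3 8 39) true, .room 0 14 .two, .room 0 32 .two, .room 8 14 .two, .room 8 38 .three,
   .con (.h3 8 15) false, .con (.h3 8 38) true, .room 8 15 .two, .room 8 37 .three, .con (.h3 8 16) false,
   .con (.h3 8 37) true, .room 8 16 .two, .room 8 36 .three, .con (.h3 8 17) false, .con (.h3 8 36) true,
   .room 8 17 .two, .room 8 35 .three, .con (.h3 8 18) false, .con (.h3 8 35) true, .room 8 18 .two,
   .room 8 34 .three, .con (.h3 8 19) false, .con (.h3 8 34) true, .room 8 19 .two, .room 8 33 .three,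
   .con (.h3 8 20) false, .con (.h3 8 33) true, .room 8 20 .two, .room 8 32 .three, .con (.h3 8 21) false,
   .con (.h3 8 32) true, .room 8 21 .two, .room 8 31 .three, .con (.h3 8 22) false, .con (.h3 8 31) true,
   .room 8 22 .two, .room 8 30 .three, .con (.h1 7 22) false, .con (.h3 8 30) true, .room 7 22 .two,
   .room 8 29 .three, .con (.h1 6 22) false, .con (.h3 8 29) true, .room 6 22 .two, .room 8 28 .three,
   .con (.h1 5 22) false, .con (.cp 7 27) true, .room 5 22 .two, .room 7 27 .two, .con (.h1 4 22) false,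
   .con (.h1 6 27) false, .room 4 22 .two, .con (.h1 3 22) false, .room 3 22 .two, .con (.h3 3 23) false,
   .room 3 23 .one, .con (.cp 3 23) false, .room 4 24 .one, .con (.cp 4 24) false, .room 5 25 .one,
   .room 6 27 .three, .con (.h3 6 27) true]

def sE : List Step :=
  [.con (.p3 0 0) true, .con (.p1 0 1) true, .con (.p1 0 2) true, .con (.p1 0 3) true, .con (.p1 0 4) true,
   .con (.p1 0 5) true, .con (.p1 0 6) true, .con (.p1 0 7) true, .con (.p2 0 8) true, .con (.p3 1 0) true,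
   .con (.p3 1 8) true, .con (.p3 2 0) true, .con (.p1 2 1) true, .con (.p2 2 2) true, .con (.p3 2 8) true,
   .con (.p3 3 0) true, .con (.p3 3 2) true, .con (.p3 3 8) true, .con (.p3 4 2) true, .con (.p2 4 3) true,
   .con (.p3 4 8) true, .con (.p3 5 0) true, .con (.p3 5 2) true, .con (.p2 5 4) true, .con (.p3 5 8) true,
   .con (.p3 6 0) true, .con (.p2 6 3) true, .con (.p2 6 5) true, .con (.p3 6 8) true, .con (.p3 7 0) true,
   .con (.p2 7 4) true, .con (.p2 7 6) true, .con (.p3 7 8) true, .con (.p3 8 0) true, .con (.p1 8 5) true,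
   .con (.p1 8 7) true, .con (.p1 8 8) true, .con (.p3 9 0) true, .con (.p3 9 6) true, .con (.p1 10 0) true,
   .con (.p1 10 7) true, .con (.p1 10 8) true, .con (.p1 10 9) true, .con (.p1 10 10) true, .con (.p1 10 11) true,
   .con (.p1 10 12) true, .con (.p1 10 13) true, .con (.p1 10 14) true, .con (.p1 10 15) true, .con (.p1 10 16) true,
   .con (.p1 10 17) true, .con (.h1 4 2) true, .room 4 2 .two, .room 10 0 .two, .con (.h1 3 2) false,
   .con (.h3 4 3) false, .con (.h1 9 0) false, .room 5 2 .one, .con (.cp 5 2) false, .room 3 2 .two, .room 4 3 .one,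
   .room 9 0 .two, .con (.h1 2 2) false, .con (.cp 4 3) false, .con (.h1 8 0) false, .room 6 3 .one,
   .con (.cp 6 3) false, .room 2 2 .three, .room 5 4 .one, .room 8 0 .two, .con (.h3 2 2) true, .con (.cp 5 4) false,
   .con (.h1 7 0) false, .room 7 4 .one, .con (.cp 7 4) false, .room 2 1 .three, .room 6 5 .one, .room 7 0 .two,
   .con (.h3 2 1) true, .con (.h1 6 0) false, .con (.cp 6 5) false, .room 8 5 .two, .con (.h1 1 0) false,
   .con (.h3 8 6) false, .room 2 0 .one, .room 6 0 .two, .room 7 6 .one, .con (.h1 2 0) true, .con (.h1 5 0) false,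
   .con (.h1 7 6) true, .room 1 0 .two, .con (.h1 0 0) false, .con (.h3 8 7) false, .room 3 0 .one, .room 5 0 .two,
   .con (.h1 4 0) false, .con (.h1 3 0) true, .room 0 0 .two, .room 8 7 .two, .con (.h3 0 1) false,
   .con (.h3 8 8) false, .room 0 1 .two, .room 8 8 .two, .con (.h3 0 2) false, .con (.h1 7 8) false, .room 0 2 .two,
   .room 7 8 .two, .con (.h3 0 3) false, .con (.h1 6 8) false, .room 0 3 .two, .room 6 8 .two, .con (.h3 0 4) false,
   .con (.h1 5 8) false, .room 0 4 .two, .room 5 8 .two, .room 8 6 .one, .con (.h3 0 5) false, .con (.h1 4 8) false,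
   .con (.h1 8 6) true, .room 0 5 .two, .room 4 8 .two, .room 9 6 .one, .con (.h3 0 6) false, .con (.h1 3 8) false,
   .con (.cp 9 6) false, .room 0 6 .two, .room 3 8 .two, .room 10 7 .two, .con (.h3 0 7) false, .con (.h1 2 8) false,
   .con (.h3 10 8) false, .room 0 7 .two, .room 2 8 .two, .room 10 8 .two, .con (.h3 0 8) false,
   .con (.h1 1 8) false, .con (.h3 10 9) false, .room 0 8 .one, .room 1 8 .two, .room 10 9 .two,
   .con (.h3 10 10) false, .room 10 10 .two, .con (.h3 10 11) false, .room 10 11 .two, .con (.h3 10 12) false,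
   .room 10 12 .two, .con (.h3 10 13) false, .room 10 13 .two, .con (.h3 10 14) false, .room 10 14 .two,
   .con (.h3 10 15) false, .room 10 15 .two, .con (.h3 10 16) false, .room 10 16 .two, .con (.h3 10 17) false,
   .room 10 17 .two]

def sF : List Step :=
  [.con (.p3 4 2) true, .con (.p2 4 3) true, .con (.p3 5 2) true, .con (.p2 5 4) true, .con (.p2 6 3) true,
   .con (.p2 6 5) true, .con (.p2 7 4) true, .con (.p2 7 6) true, .con (.p1 8 5) true, .con (.p3 9 6) true,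
   .con (.p1 10 7) true, .con (.p1 10 8) true, .con (.p1 10 9) true, .con (.p1 10 10) true, .con (.p1 10 11) true,
   .con (.p1 10 12) true, .con (.p1 10 13) true, .con (.p1 10 14) true, .con (.p1 10 15) true, .con (.p1 10 16) true,
   .con (.p1 10 17) true, .con (.h1 4 2) true, .room 4 2 .two, .con (.h3 4 3) false, .room 5 2 .one,
   .con (.cp 5 2) false, .room 4 3 .one, .con (.cp 4 3) false, .room 6 3 .one, .con (.cp 6 3) false, .room 5 4 .one,
   .con (.cp 5 4) false, .room 7 4 .one, .con (.cp 7 4) false, .room 6 5 .one, .con (.cp 6 5) false, .room 8 5 .two,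
   .con (.h3 8 6) false, .room 7 6 .one, .con (.h1 7 6) true, .room 8 6 .one, .con (.h1 8 6) true, .room 9 6 .one,
   .con (.cp 9 6) false, .room 10 7 .two, .con (.h3 10 8) false, .room 10 8 .two, .con (.h3 10 9) false,
   .room 10 9 .two, .con (.h3 10 10) false, .room 10 10 .two, .con (.h3 10 11) false, .room 10 11 .two,
   .con (.h3 10 12) false, .room 10 12 .two, .con (.h3 10 13) false, .room 10 13 .two, .con (.h3 10 14) false,
   .room 10 14 .two, .con (.h3 10 15) false, .room 10 15 .two, .con (.h3 10 16) false, .room 10 16 .two,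
   .con (.h3 10 17) false, .room 10 17 .two]

def sU : List Step :=
  [.con (.p3 0 5) true, .con (.p3 0 14) true, .con (.p3 1 5) true, .con (.p3 1 14) true, .con (.p3 2 5) true,
   .con (.p3 2 14) true, .con (.p1 3 6) true, .con (.p1 3 7) true, .con (.p1 3 8) true, .con (.p1 3 9) true,
   .con (.p1 3 10) true, .con (.p1 3 11) true, .con (.p1 3 12) true, .con (.p1 3 13) true, .con (.p1 3 14) true,
   .con (.p2 3 15) true, .con (.p3 4 15) true, .con (.p3 5 15) true, .con (.p3 6 15) true, .con (.p3 7 15) true,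
   .con (.p3 8 15) true, .con (.p3 9 15) true, .con (.p3 10 15) true, .con (.p3 11 15) true, .con (.p3 12 15) true,
   .con (.p3 13 15) true, .con (.p3 15 15) true, .con (.p3 16 15) true, .con (.p3 17 15) true, .con (.p3 18 15) true,
   .con (.p1 19 0) true, .con (.p1 19 1) true, .con (.p1 19 2) true, .con (.p1 19 3) true, .con (.p1 19 4) true,
   .con (.p1 19 5) true, .con (.p1 19 6) true, .con (.p1 19 7) true, .con (.p1 19 8) true, .con (.p1 19 9) true,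
   .con (.p1 19 10) true, .con (.p1 19 11) true, .con (.p1 19 12) true, .con (.p1 19 13) true, .con (.p1 19 14) true,
   .con (.p1 19 15) true, .con (.cp 2 5) false, .room 2 5 .two, .room 19 0 .two, .con (.h1 1 5) false,
   .con (.h3 19 1) false, .room 3 6 .two, .con (.h3 3 7) false, .room 1 5 .two, .room 19 1 .two,
   .con (.h1 0 5) false, .con (.h3 19 2) false, .room 3 7 .two, .con (.h3 3 8) false, .room 0 5 .two,
   .room 19 2 .two, .con (.h3 19 3) false, .room 3 8 .two, .con (.h3 3 9) false, .room 19 3 .two,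
   .con (.h3 19 4) false, .room 3 9 .two, .con (.h3 3 10) false, .room 19 4 .two, .con (.h3 19 5) false,
   .room 3 10 .two, .con (.h3 3 11) false, .room 19 5 .two, .con (.h3 19 6) false, .room 3 11 .two,
   .con (.h3 3 12) false, .room 19 6 .two, .con (.h3 19 7) false, .room 3 12 .two, .con (.h3 3 13) false,
   .room 19 7 .two, .con (.h3 19 8) false, .room 3 13 .two, .con (.h3 3 14) false, .room 19 8 .two,
   .con (.h3 19 9) false, .room 3 14 .two, .con (.h1 2 14) false, .con (.h3 3 15) false, .room 19 9 .two,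
   .con (.h3 19 10) false, .room 2 14 .two, .room 3 15 .one, .con (.h1 1 14) false, .con (.h1 3 15) true,
   .room 19 10 .two, .con (.h3 19 11) false, .room 1 14 .two, .room 4 15 .one, .con (.h1 0 14) false,
   .con (.h1 4 15) true, .room 19 11 .two, .con (.h3 19 12) false, .room 0 14 .two, .room 5 15 .one,
   .con (.h1 5 15) true, .room 19 12 .two, .con (.h3 19 13) false, .room 6 15 .one, .con (.h1 6 15) true,
   .room 19 13 .two, .con (.h3 19 14) false, .room 7 15 .one, .con (.h1 7 15) true, .room 19 14 .two,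
   .con (.h3 19 15) false, .room 8 15 .one, .con (.h1 8 15) true, .room 19 15 .two, .con (.h1 18 15) false,
   .room 9 15 .one, .con (.h1 9 15) true, .room 18 15 .two, .con (.h1 17 15) false, .room 10 15 .one,
   .con (.h1 10 15) true, .room 17 15 .two, .con (.h1 16 15) false, .room 11 15 .one, .con (.h1 11 15) true,
   .room 16 15 .two, .con (.h1 15 15) false, .room 12 15 .one, .con (.h1 12 15) true, .room 15 15 .two,
   .con (.h1 14 15) false, .room 13 15 .one, .con (.h1 13 15) true]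

def sG0r : List Step :=
  [.con (.p3 2 5) true, .con (.p2 2 6) true, .con (.p3 2 23) true, .con (.p2 2 24) true, .con (.p3 2 41) true,
   .con (.p2 2 42) true, .con (.p3 3 5) true, .con (.p2 3 7) true, .con (.p3 3 22) true, .con (.p2 3 25) true,
   .con (.p3 3 40) true, .con (.p2 3 43) true, .con (.p2 4 6) true, .con (.p2 4 8) true, .con (.p3 4 22) true,
   .con (.p2 4 24) true, .con (.p2 4 26) true, .con (.p3 4 40) true, .con (.p2 4 42) true, .con (.p2 4 44) true,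
   .con (.p2 5 7) true, .con (.p2 5 9) true, .con (.p3 5 22) true, .con (.p1 5 25) true, .con (.p3 5 40) true,
   .con (.p1 5 43) true, .con (.p1 5 44) true, .con (.p1 6 8) true, .con (.p3 6 22) true, .con (.p3 6 26) true,
   .con (.p3 6 40) true, .con (.p3 7 9) true, .con (.p3 7 22) true, .con (.p1 7 27) true, .con (.p1 7 28) true,
   .con (.p1 7 29) true, .con (.p1 7 30) true, .con (.p1 7 31) true, .con (.p1 7 32) true, .con (.p1 7 33) true,
   .con (.p1 7 34) true, .con (.p1 7 35) true, .con (.p1 7 36) true, .con (.p1 7 37) true, .con (.p1 7 38) true,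
   .con (.p1 7 39) true, .con (.p1 7 40) true, .con (.p1 8 10) true, .con (.p1 8 11) true, .con (.p1 8 12) true,
   .con (.p1 8 13) true, .con (.p1 8 14) true, .con (.p1 8 15) true, .con (.p1 8 16) true, .con (.p1 8 17) true,
   .con (.p1 8 18) true, .con (.p1 8 19) true, .con (.p1 8 20) true, .con (.p1 8 21) true, .con (.p1 8 22) true,
   .con (.h1 2 5) true, .con (.h1 2 23) true, .con (.h1 2 41) true, .room 2 5 .two, .room 2 23 .two, .room 2 41 .two,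
   .con (.h3 2 6) false, .con (.h3 2 24) false, .con (.h3 2 42) false, .room 3 5 .one, .con (.cp 3 5) false,
   .room 2 6 .one, .room 2 24 .one, .room 2 42 .one, .con (.cp 2 6) false, .con (.cp 2 24) false,
   .con (.cp 2 42) false, .room 4 6 .one, .con (.cp 4 6) false, .room 3 7 .one, .room 3 25 .one, .room 3 43 .one,
   .con (.cp 3 7) false, .con (.cp 3 25) false, .con (.cp 3 43) false, .room 5 7 .one, .con (.cp 5 7) false,
   .room 4 8 .one, .room 4 26 .one, .room 4 44 .one, .con (.cp 4 8) false, .con (.h1 4 26) true,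
   .con (.h1 4 44) true, .room 6 8 .two, .con (.h3 6 9) false, .room 5 9 .one, .room 5 44 .three,
   .con (.h3 5 44) true, .con (.h1 5 9) true, .room 5 43 .three, .con (.cp 4 42) true, .room 4 42 .three,
   .con (.cp 3 41) true, .room 3 41 .three, .con (.h3 3 41) true, .room 3 40 .one, .con (.h1 3 40) true,
   .room 4 40 .one, .room 6 9 .one, .con (.h1 4 40) true, .con (.h1 6 9) true, .room 5 40 .one, .room 7 9 .one,
   .con (.h1 5 40) true, .con (.cp 7 9) false, .room 6 40 .one, .room 8 10 .two, .con (.h1 6 40) true,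
   .con (.h3 8 11) false, .room 7 40 .three, .room 8 11 .two, .con (.h3 7 40) true, .con (.h3 8 12) false,
   .room 7 39 .three, .room 8 12 .two, .con (.h3 7 39) true, .con (.h3 8 13) false, .room 7 38 .three,
   .room 8 13 .two, .con (.h3 7 38) true, .con (.h3 8 14) false, .room 7 37 .three, .room 8 14 .two,
   .con (.h3 7 37) true, .con (.h3 8 15) false, .room 7 36 .three, .room 8 15 .two, .con (.h3 7 36) true,
   .con (.h3 8 16) false, .room 7 35 .three, .room 8 16 .two, .con (.h3 7 35) true, .con (.h3 8 17) false,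
   .room 7 34 .three, .room 8 17 .two, .con (.h3 7 34) true, .con (.h3 8 18) false, .room 7 33 .three,
   .room 8 18 .two, .con (.h3 7 33) true, .con (.h3 8 19) false, .room 7 32 .three, .room 8 19 .two,
   .con (.h3 7 32) true, .con (.h3 8 20) false, .room 7 31 .three, .room 8 20 .two, .con (.h3 7 31) true,
   .con (.h3 8 21) false, .room 7 30 .three, .room 8 21 .two, .con (.h3 7 30) true, .con (.h3 8 22) false,
   .room 7 29 .three, .room 8 22 .two, .con (.h1 7 22) false, .con (.h3 7 29) true, .room 7 22 .two,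
   .room 7 28 .three, .con (.h1 6 22) false, .con (.h3 7 28) true, .room 6 22 .two, .room 7 27 .three,
   .con (.h1 5 22) false, .con (.cp 6 26) true, .room 5 22 .two, .room 6 26 .two, .con (.h1 4 22) false,
   .con (.h1 5 26) false, .room 4 22 .two, .con (.h1 3 22) false, .room 3 22 .two, .con (.h3 3 23) false,
   .room 3 23 .one, .con (.cp 3 23) false, .room 4 24 .one, .room 5 26 .three, .con (.h3 5 26) true]

/-- the rooms of the loops and of the paths between them -/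
def rG0r : List (ℤ × ℤ) :=
  [(2, 5), (2, 6), (2, 23), (2, 24), (2, 41), (2, 42), (3, 5), (3, 7), (3, 22), (3, 23), (3, 25), (3, 40), (3, 41),
   (3, 43), (4, 6), (4, 8), (4, 22), (4, 24), (4, 26), (4, 40), (4, 42), (4, 44), (5, 7), (5, 9), (5, 22), (5, 25),
   (5, 26), (5, 40), (5, 43), (5, 44), (6, 8), (6, 9), (6, 22), (6, 26), (6, 40), (7, 9), (7, 22), (7, 27), (7, 28),
   (7, 29), (7, 30), (7, 31), (7, 32), (7, 33), (7, 34), (7, 35), (7, 36), (7, 37), (7, 38), (7, 39), (7, 40),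
   (8, 10), (8, 11), (8, 12), (8, 13), (8, 14), (8, 15), (8, 16), (8, 17), (8, 18), (8, 19), (8, 20), (8, 21), (8, 22)]

def sG1r : List Step :=
  [.con (.p3 2 5) true, .con (.p2 2 6) true, .con (.p3 2 23) true, .con (.p2 2 24) true, .con (.p3 2 41) true,
   .con (.p2 2 42) true, .con (.p3 3 5) true, .con (.p2 3 7) true, .con (.p3 3 22) true, .con (.p2 3 25) true,
   .con (.p3 3 40) true, .con (.p2 3 43) true, .con (.p2 4 6) true, .con (.p2 4 8) true, .con (.p3 4 22) true,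
   .con (.p2 4 24) true, .con (.p2 4 26) true, .con (.p3 4 40) true, .con (.p2 4 42) true, .con (.p2 4 44) true,
   .con (.p2 5 7) true, .con (.p2 5 9) true, .con (.p3 5 22) true, .con (.p2 5 25) true, .con (.p2 5 27) true,
   .con (.p3 5 40) true, .con (.p1 5 43) true, .con (.p1 5 44) true, .con (.p1 6 8) true, .con (.p3 6 22) true,
   .con (.p1 6 26) true, .con (.p3 6 40) true, .con (.p3 7 9) true, .con (.p3 7 22) true, .con (.p3 7 27) true,
   .con (.p3 7 40) true, .con (.p1 8 10) true, .con (.p1 8 11) true, .con (.p1 8 12) true, .con (.p1 8 13) true,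
   .con (.p1 8 14) true, .con (.p1 8 15) true, .con (.p1 8 16) true, .con (.p1 8 17) true, .con (.p1 8 18) true,
   .con (.p1 8 19) true, .con (.p1 8 20) true, .con (.p1 8 21) true, .con (.p1 8 22) true, .con (.p1 8 28) true,
   .con (.p1 8 29) true, .con (.p1 8 30) true, .con (.p1 8 31) true, .con (.p1 8 32) true, .con (.p1 8 33) true,
   .con (.p1 8 34) true, .con (.p1 8 35) true, .con (.p1 8 36) true, .con (.p1 8 37) true, .con (.p1 8 38) true,
   .con (.p1 8 39) true, .con (.p1 8 40) true, .con (.h1 2 5) true, .con (.h1 2 23) true, .con (.h1 2 41) true,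
   .room 2 5 .two, .room 2 23 .two, .room 2 41 .two, .con (.h3 2 6) false, .con (.h3 2 24) false,
   .con (.h3 2 42) false, .room 3 5 .one, .con (.cp 3 5) false, .room 2 6 .one, .room 2 24 .one, .room 2 42 .one,
   .con (.cp 2 6) false, .con (.cp 2 24) false, .con (.cp 2 42) false, .room 4 6 .one, .con (.cp 4 6) false,
   .room 3 7 .one, .room 3 25 .one, .room 3 43 .one, .con (.cp 3 7) false, .con (.cp 3 25) false,
   .con (.cp 3 43) false, .room 5 7 .one, .con (.cp 5 7) false, .room 4 8 .one, .room 4 26 .one, .room 4 44 .one,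
   .con (.cp 4 8) false, .con (.cp 4 26) false, .con (.h1 4 44) true, .room 6 8 .two, .con (.h3 6 9) false,
   .room 5 9 .one, .room 5 27 .one, .room 5 44 .three, .con (.h3 5 44) true, .con (.h1 5 9) true,
   .con (.h1 5 27) true, .room 5 43 .three, .con (.cp 4 42) true, .room 4 42 .three, .con (.cp 3 41) true,
   .room 3 41 .three, .con (.h3 3 41) true, .room 3 40 .one, .con (.h1 3 40) true, .room 4 40 .one, .room 6 9 .one,
   .con (.h1 4 40) true, .con (.h1 6 9) true, .room 5 40 .one, .room 7 9 .one, .con (.h1 5 40) true,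
   .con (.cp 7 9) false, .room 6 40 .one, .room 8 10 .two, .con (.h1 6 40) true, .con (.h3 8 11) false,
   .room 7 40 .one, .room 8 11 .two, .con (.h3 8 12) false, .con (.h1 7 40) true, .room 8 12 .two, .room 8 40 .three,
   .con (.h3 8 13) false, .con (.h3 8 40) true, .room 8 13 .two, .room 8 39 .three, .con (.h3 8 14) false,
   .con (.h3 8 39) true, .room 8 14 .two, .room 8 38 .three, .con (.h3 8 15) false, .con (.h3 8 38) true,
   .room 8 15 .two, .room 8 37 .three, .con (.h3 8 16) false, .con (.h3 8 37) true, .room 8 16 .two,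
   .room 8 36 .three, .con (.h3 8 17) false, .con (.h3 8 36) true, .room 8 17 .two, .room 8 35 .three,
   .con (.h3 8 18) false, .con (.h3 8 35) true, .room 8 18 .two, .room 8 34 .three, .con (.h3 8 19) false,
   .con (.h3 8 34) true, .room 8 19 .two, .room 8 33 .three, .con (.h3 8 20) false, .con (.h3 8 33) true,
   .room 8 20 .two, .room 8 32 .three, .con (.h3 8 21) false, .con (.h3 8 32) true, .room 8 21 .two,
   .room 8 31 .three, .con (.h3 8 22) false, .con (.h3 8 31) true, .room 8 22 .two, .room 8 30 .three,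
   .con (.h1 7 22) false, .con (.h3 8 30) true, .room 7 22 .two, .room 8 29 .three, .con (.h1 6 22) false,
   .con (.h3 8 29) true, .room 6 22 .two, .room 8 28 .three, .con (.h1 5 22) false, .con (.cp 7 27) true,
   .room 5 22 .two, .room 7 27 .two, .con (.h1 4 22) false, .con (.h1 6 27) false, .room 4 22 .two,
   .con (.h1 3 22) false, .room 3 22 .two, .con (.h3 3 23) false, .room 3 23 .one, .con (.cp 3 23) false,
   .room 4 24 .one, .con (.cp 4 24) false, .room 5 25 .one, .room 6 27 .three, .con (.h3 6 27) true]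

/-- the rooms of the loops and of the paths between them -/
def rG1r : List (ℤ × ℤ) :=
  [(2, 5), (2, 6), (2, 23), (2, 24), (2, 41), (2, 42), (3, 5), (3, 7), (3, 22), (3, 23), (3, 25), (3, 40), (3, 41),
   (3, 43), (4, 6), (4, 8), (4, 22), (4, 24), (4, 26), (4, 40), (4, 42), (4, 44), (5, 7), (5, 9), (5, 22), (5, 25),
   (5, 27), (5, 40), (5, 43), (5, 44), (6, 8), (6, 9), (6, 22), (6, 26), (6, 27), (6, 40), (7, 9), (7, 22), (7, 27),
   (7, 40), (8, 10), (8, 11), (8, 12), (8, 13), (8, 14), (8, 15), (8, 16), (8, 17), (8, 18), (8, 19), (8, 20),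
   (8, 21), (8, 22), (8, 28), (8, 29), (8, 30), (8, 31), (8, 32), (8, 33), (8, 34), (8, 35), (8, 36), (8, 37),
   (8, 38), (8, 39), (8, 40)]

theorem sV_chk : chkSteps sV [(3, 0, .three)] cV 18 bV.rooms = true := by decide +kernel

theorem sT_chk : chkSteps sT [(8, 5, .one), (3, 0, .three)] cT 28 bT.rooms = true := by decide +kernel

theorem sX_chk : chkSteps sX [(8, 5, .one), (3, 0, .three)] cX 45 bX.rooms = true := by decide +kernel

theorem sA_chk : chkSteps sA [(8, 5, .one), (3, 0, .three)] cA 84 bA.rooms = true := by decide +kernel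

theorem sS_chk : chkSteps sS [(2, 5, .one)] cS 25 bS.rooms = true := by decide +kernel

theorem sG0_chk : chkSteps sG0 [(2, 5, .one), (2, 23, .one), (2, 41, .one)] cG0 66 bG0.rooms = true := by decide +kernel

theorem sG1_chk : chkSteps sG1 [(2, 5, .one), (2, 23, .one), (2, 41, .one)] cG1 68 bG1.rooms = true := by decide +kernel

theorem sE_chk : chkSteps sE [(10, 0, .three), (4, 2, .one)] cE 45 bE.rooms = true := by decide +kernel

theorem sF_chk : chkSteps sF [(4, 2, .one)] cF 45 bF.rooms = true := by decide +kernel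

theorem sU_chk : chkSteps sU [(2, 5, .one), (19, 0, .three)] cU 42 bU.rooms = true := by decide +kernel

theorem sG0r_chk : chkSteps sG0r [(2, 5, .one), (2, 23, .one), (2, 41, .one)] rG00 66 rG0r = true := by decide +kernel

theorem sG1r_chk : chkSteps sG1r [(2, 5, .one), (2, 23, .one), (2, 41, .one)] rG10 68 rG1r = true := by decide +kernel

theorem cov_V : (cV.all fun c => decide (c ∈ rV2)) = true := by decide +kernel

theorem sub_rV2 : (rV2.all fun c => decide (c ∈ cV)) = true := by decide +kernel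

theorem cov_T : (cT.all fun c => decide (c ∈ rT2)) = true := by decide +kernel

theorem sub_rT2 : (rT2.all fun c => decide (c ∈ cT)) = true := by decide +kernel

theorem cov_X : (cX.all fun c => decide (c ∈ rX1) || decide (c ∈ rX2)) = true := by decide +kernel

theorem sub_rX1 : (rX1.all fun c => decide (c ∈ cX)) = true := by decide +kernel

theorem sub_rX2 : (rX2.all fun c => decide (c ∈ cX)) = true := by decide +kernel

theorem cov_A : (cA.all fun c => decide (c ∈ rA1) || decide (c ∈ rA2)) = true := by decide +kernel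

theorem sub_rA1 : (rA1.all fun c => decide (c ∈ cA)) = true := by decide +kernel

theorem sub_rA2 : (rA2.all fun c => decide (c ∈ cA)) = true := by decide +kernel

theorem cov_S : (cS.all fun c => decide (c ∈ rS1) || decide (c ∈ rS2)) = true := by decide +kernel

theorem sub_rS1 : (rS1.all fun c => decide (c ∈ cS)) = true := by decide +kernel

theorem sub_rS2 : (rS2.all fun c => decide (c ∈ cS)) = true := by decide +kernel

theorem cov_G0 : (cG0.all fun c => decide (c ∈ rG00) || decide (c ∈ rG0p0) || decide (c ∈ rG0m0) || decide (c ∈ rG0p1) || decide (c ∈ rG0m1) || decide (c ∈ rG0p2) || decide (c ∈ rG0m2)) = true := by decide +kernel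

theorem sub_rG00 : (rG00.all fun c => decide (c ∈ cG0)) = true := by decide +kernel

theorem sub_rG0p0 : (rG0p0.all fun c => decide (c ∈ cG0)) = true := by decide +kernel

theorem sub_rG0m0 : (rG0m0.all fun c => decide (c ∈ cG0)) = true := by decide +kernel

theorem sub_rG0p1 : (rG0p1.all fun c => decide (c ∈ cG0)) = true := by decide +kernel

theorem sub_rG0m1 : (rG0m1.all fun c => decide (c ∈ cG0)) = true := by decide +kernel

theorem sub_rG0p2 : (rG0p2.all fun c => decide (c ∈ cG0)) = true := by decide +kernel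

theorem sub_rG0m2 : (rG0m2.all fun c => decide (c ∈ cG0)) = true := by decide +kernel

theorem cov_G1 : (cG1.all fun c => decide (c ∈ rG10) || decide (c ∈ rG1p0) || decide (c ∈ rG1m0) || decide (c ∈ rG1p1) || decide (c ∈ rG1m1) || decide (c ∈ rG1p2) || decide (c ∈ rG1m2)) = true := by decide +kernel

theorem sub_rG10 : (rG10.all fun c => decide (c ∈ cG1)) = true := by decide +kernel

theorem sub_rG1p0 : (rG1p0.all fun c => decide (c ∈ cG1)) = true := by decide +kernel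

theorem sub_rG1m0 : (rG1m0.all fun c => decide (c ∈ cG1)) = true := by decide +kernel

theorem sub_rG1p1 : (rG1p1.all fun c => decide (c ∈ cG1)) = true := by decide +kernel

theorem sub_rG1m1 : (rG1m1.all fun c => decide (c ∈ cG1)) = true := by decide +kernel

theorem sub_rG1p2 : (rG1p2.all fun c => decide (c ∈ cG1)) = true := by decide +kernel

theorem sub_rG1m2 : (rG1m2.all fun c => decide (c ∈ cG1)) = true := by decide +kernel

theorem cov_E : (cE.all fun c => decide (c ∈ rE1) || decide (c ∈ rE2) || decide (c ∈ rE0)) = true := by decide +kernel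

theorem sub_rE1 : (rE1.all fun c => decide (c ∈ cE)) = true := by decide +kernel

theorem sub_rE2 : (rE2.all fun c => decide (c ∈ cE)) = true := by decide +kernel

theorem sub_rE0 : (rE0.all fun c => decide (c ∈ cE)) = true := by decide +kernel

theorem cov_F : (cF.all fun c => decide (c ∈ rF0)) = true := by decide +kernel

theorem sub_rF0 : (rF0.all fun c => decide (c ∈ cF)) = true := by decide +kernel

theorem cov_U : (cU.all fun c => decide (c ∈ rU1) || decide (c ∈ rU2) || decide (c ∈ rU0)) = true := by decide +kernel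

theorem sub_rU1 : (rU1.all fun c => decide (c ∈ cU)) = true := by decide +kernel

theorem sub_rU2 : (rU2.all fun c => decide (c ∈ cU)) = true := by decide +kernel

theorem sub_rU0 : (rU0.all fun c => decide (c ∈ cU)) = true := by decide +kernel


end Pool.Agent.Lib.MP_6ff0c5_lc.N
end
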